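import Pool.Agent.Helper10.RS.Core
import Pool.Agent.Helper51.SigLeo.Modulus

/-!
# Project RS (MP_fc6b1e_nt), packet CHR
-/

namespace Pool.Agent.Helper10.RS

open NumberField Polynomial Module IsDedekindDomain Pool.Agent.Helper51.SigLeo
  Pool.Agent.Helper38.RS Pool.Agent.Helper10.CHR

theorem natAbs_pow (u : ℤˣ) (n : ℤ) : u ^ n.natAbs = u ^ n := by
  rcases Int.natAbs_eq n with h | h
  · conv_rhs => rw [h]
    rw [zpow_natCast]
  · conv_rhs => rw [h]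
    rw [zpow_neg, zpow_natCast, Int.units_inv_eq_self]

theorem s_chr (h1 : S_BIN) : Pool.Agent.Helper38.RS.S_CHR := by
  intro k _ _ _ L K M _ _ _ _ _ _ m δ P hδ hm T a ha0 ha S hS hpr lam hU hlG hlP hlne
  classical
  have hst : ∀ w ∈ S, ∀ v, ConjP K v w → v ∈ S := hS.stable
  have hA : ∀ a : ℤˣ, a ^ 2 = 1 := Int.units_sq
  -- the modulus
  set 𝔫 : Ideal (𝓞 M) := Ideal.span {(8 : 𝓞 M)} with h𝔫
  have h𝔫S : ∀ w : HeightOneSpectrum (𝓞 M), 𝔫 ≤ w.asIdeal → w ∈ S := by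
    intro w hw
    have hwp : w.asIdeal.IsPrime := w.isPrime
    rw [h𝔫, Ideal.span_singleton_le_iff_mem] at hw
    have h3 : (2 : 𝓞 M) ∈ w.asIdeal := by
      apply hwp.mem_of_pow_mem 3
      have : (2 : 𝓞 M) ^ 3 = 8 := by norm_num
      rwa [this]
    have h4 := (w.valuation_lt_one_iff_mem (K := M) (2 : 𝓞 M)).2 h3
    apply hS.two
    have h5 : ((2 : 𝓞 M) : M) = (2 : M) := map_ofNat (algebraMap (𝓞 M) M) 2
    rw [← h5]
    exact h4
  have h80 : (8 : 𝓞 M) ≠ 0 := by norm_num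
  have h𝔫0 : 𝔫 ≠ ⊥ := by
    rw [h𝔫, Ne, Ideal.span_singleton_eq_bot]
    exact h80
  set 𝔪 : Ideal (𝓞 M) := 𝔫 * ∏ v ∈ hS.fin.toFinset, v.asIdeal with h𝔪
  have hcop : ∀ w : HeightOneSpectrum (𝓞 M), w.asIdeal ⊔ 𝔪 = ⊤ ↔ w ∉ S :=
    fun w => cop_iff S hS.fin 𝔫 h𝔫S w
  have hle : 𝔪 ≤ 𝔫 := Ideal.mul_le_left
  have hleS : ∀ w ∈ S, 𝔪 ≤ w.asIdeal := by
    intro w hw
    refine Ideal.mul_le_right.trans ?_
    have h4 := Finset.dvd_prod_of_mem (fun v : HeightOneSpectrum (𝓞 M) => v.asIdeal)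
      (hS.fin.mem_toFinset.2 hw)
    exact Ideal.le_of_dvd h4
  set ψ : Ideal (𝓞 M) → ℝ :=
    fun I => if I ≠ ⊥ ∧ I ⊔ 𝔪 = ⊤ then (((psi0 S lam I : ℤˣ) : ℤ) : ℝ) else 0 with hψ
  have hψ1 : ∀ I, I ≠ ⊥ → I ⊔ 𝔪 = ⊤ → ψ I = (((psi0 S lam I : ℤˣ) : ℤ) : ℝ) := by
    intro I h2 h3
    rw [hψ]
    simp only
    rw [if_pos ⟨h2, h3⟩]
  have hψ0 : ∀ I, ¬ (I ≠ ⊥ ∧ I ⊔ 𝔪 = ⊤) → ψ I = 0 := by
    intro I h2
    rw [hψ]
    simp only
    rw [if_neg h2]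
  have hpm : ∀ I, I ≠ ⊥ → I ⊔ 𝔪 = ⊤ → ψ I = 1 ∨ ψ I = -1 := by
    intro I h2 h3
    rw [hψ1 I h2 h3]
    rcases Int.units_eq_one_or (psi0 S lam I) with h | h
    · left; rw [h]; simp
    · right; rw [h]; simp
  have hψp : ∀ 𝔮 : HeightOneSpectrum (𝓞 M), 𝔮 ∉ S → ∀ l : ℕ,
      ψ (cj δ l 𝔮.asIdeal) = (((psi0 S lam (cj δ l 𝔮.asIdeal) : ℤˣ) : ℤ) : ℝ) := by
    intro 𝔮 h𝔮 l
    rw [cj_eq]
    exact hψ1 _ (Pool.Agent.Helper40.RS.gw (δ ^ l) 𝔮).ne_bot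
      ((hcop _).2 (gw_mem hst _ _ h𝔮))
  refine ⟨𝔪, ψ, ⟨mod_ne S hS.fin 𝔫 h𝔫0, ?_, ?_, hpm, ?_, ?_, ?_⟩, ?_, ?_, ?_⟩
  · exact hψ0 _ (fun h => h.1 rfl)
  · intro I J
    by_cases hI : I ≠ ⊥ ∧ I ⊔ 𝔪 = ⊤
    · by_cases hJ : J ≠ ⊥ ∧ J ⊔ 𝔪 = ⊤
      · have h2 : I * J ≠ ⊥ := mul_ne_zero hI.1 hJ.1
        have h3 : I * J ⊔ 𝔪 = ⊤ := by
          rw [← Ideal.isCoprime_iff_sup_eq]
          exact (Ideal.isCoprime_iff_sup_eq.2 hI.2).mul_left (Ideal.isCoprime_iff_sup_eq.2 hJ.2)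
        rw [hψ1 _ h2 h3, hψ1 _ hI.1 hI.2, hψ1 _ hJ.1 hJ.2, psi0_mul hU hpr hI.1 hJ.1]
        push_cast
        ring
      · rw [hψ0 J hJ, mul_zero]
        apply hψ0
        rintro ⟨h2, h3⟩
        apply hJ
        refine ⟨right_ne_zero_of_mul h2, ?_⟩
        rw [← Ideal.isCoprime_iff_sup_eq] at h3 ⊢
        exact h3.of_mul_left_right
    · rw [hψ0 I hI, zero_mul]
      apply hψ0
      rintro ⟨h2, h3⟩
      apply hI
      refine ⟨left_ne_zero_of_mul h2, ?_⟩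
      rw [← Ideal.isCoprime_iff_sup_eq] at h3 ⊢
      exact h3.of_mul_left_left
  · intro I _ h3
    exact hψ0 I (fun h => h3 h.2)
  · intro α hα hα1
    have hα0 : (α : M) ≠ 0 := by simpa using hα
    have hspan : Ideal.span {α} ≠ ⊥ := by simpa using hα
    have hcopα : Ideal.span {α} ⊔ 𝔪 = ⊤ := by
      rw [Ideal.eq_top_iff_one]
      have h2 : (1 : 𝓞 M) = α + (-(α - 1)) := by ring
      rw [h2]
      exact Submodule.add_mem_sup (Ideal.mem_span_singleton_self α) (𝔪.neg_mem hα1)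
    have h2 : lam (Units.mk0 (α : M) hα0) = 1 := by
      apply hlG
      have h3 : ∀ w ∈ S, w.valuation M ((α : M) - 1) < 1 := by
        intro w hw
        have h4 := (w.valuation_lt_one_iff_mem (K := M) (α - 1)).2 (hleS w hw hα1)
        have h5 : algebraMap (𝓞 M) M (α - 1) = (α : M) - 1 := by
          rw [map_sub, map_one]
        rw [← h5]
        exact h4
      refine ⟨fun w hw _ => ?_, fun w hw _ => Or.inl ⟨1, ?_⟩, ?_⟩
      · have h4 : w.valuation M (α : M) = 1 := by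
          have h5 : (α : M) = 1 + ((α : M) - 1) := by ring
          rw [h5]
          exact Valuation.map_one_add_of_lt _ (h3 w hw)
        have h5 : ordv w ((Units.mk0 (α : M) hα0 : Mˣ) : M) = 0 :=
          (Pool.Agent.Helper90.RS.ordv_eq_zero_iff w hα0).2 h4
        rw [h5]
        exact Even.zero
      · rw [one_pow, mul_one]
        exact h3 w hw
      · apply h1
        intro τ _
        obtain ⟨β, hβ⟩ := Ideal.mem_span_singleton'.1 (hle hα1)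
        have h3 : (α : M) - 1 = (β : M) * (8 : M) := by
          have h4 := congrArg (algebraMap (𝓞 M) M) hβ
          rw [map_mul, map_ofNat, map_sub, map_one] at h4
          exact h4.symm
        have h5 : τ ((Units.mk0 (α : M) hα0 : Mˣ) : M) - 1 = τ ((α : M) - 1) := by
          rw [map_sub, map_one]; rfl
        rw [h5, h3, map_mul, norm_mul, map_ofNat]
        have h6 : ‖(8 : k)‖ = 1 / 8 := by
          have h7 : (8 : k) = algebraMap ℚ_[2] k ((2 : ℕ) : ℚ_[2]) ^ 3 := by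
            rw [map_natCast]; norm_num
          rw [h7, norm_pow, norm_algebraMap', Padic.norm_p]; norm_num
        rw [h6]
        have h8 : ‖τ (β : M)‖ ≤ 1 :=
          norm_map_le_one 2 τ (RingOfIntegers.isIntegral_coe β)
        calc ‖τ (β : M)‖ * (1 / 8 : ℝ) ≤ 1 * (1 / 8 : ℝ) :=
              mul_le_mul_of_nonneg_right h8 (by positivity)
          _ = (1 / 8 : ℝ) := one_mul _
    rw [hψ1 _ hspan hcopα, psi0_span hU hα (Units.mk0 (α : M) hα0) rfl, h2]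
    simp
  · obtain ⟨x, hx⟩ := hlne
    obtain ⟨w, hw, hw1⟩ := exists_prime hU hpr ⟨x, by rw [hx]; decide⟩
    refine ⟨w.asIdeal, ?_⟩
    rw [hψ1 _ w.ne_bot ((hcop w).2 hw)]
    rcases Int.units_eq_one_or (psi0 S lam w.asIdeal) with h | h
    · exact absurd h hw1
    · rw [h]; simp
  · intro w hw h
    exact (hcop w).1 h hw
  · intro 𝔮 h𝔮 l
    refine ⟨?_, ?_⟩
    · rw [hψp 𝔮 h𝔮 l]
      rcases Int.units_eq_one_or (psi0 S lam (cj δ l 𝔮.asIdeal)) with h | h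
      · left; rw [h]; simp
      · right; rw [h]; simp
    · obtain ⟨x, hx⟩ := exists_gen hpr (Pool.Agent.Helper40.RS.gw (δ ^ l) 𝔮).asIdeal
      have h2 := hlP x
      unfold pol at h2
      rw [MonoidHom.finsetProd_apply, map_prod] at h2
      have h3 : ∏ j ∈ P.support, psi0 S lam (cj δ (l + j) 𝔮.asIdeal) = 1 := by
        rw [← h2]
        apply Finset.prod_congr rfl
        intro j _
        exact psi0_cj hU hst δ l 𝔮 x hx j
      have h4 : ∏ j ∈ P.support, ψ (cj δ (l + j) 𝔮.asIdeal) =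
          (((∏ j ∈ P.support, psi0 S lam (cj δ (l + j) 𝔮.asIdeal) : ℤˣ) : ℤ) : ℝ) := by
        rw [Units.coe_prod, Int.cast_prod]
        apply Finset.prod_congr rfl
        intro j _
        exact hψp 𝔮 h𝔮 (l + j)
      rw [h4, h3]
      simp
  · intro 𝔮 h𝔮 hf x hx hxn
    have h2 := psi0_rel hU hpr m 2 hA δ hδ hm 𝔮 hf x (hlG x hx)
      (fun w hw hc => even_iff_two_dvd.1 (hxn w hw hc))
    have h4 : ∏ j ∈ Finset.range m,
        ψ (cj δ j 𝔮.asIdeal) ^ (ordv 𝔮 (((δ ^ j)⁻¹ : M ≃ₐ[K] M) (x : M))).natAbs =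
        (((∏ j ∈ Finset.range m, psi0 S lam (cj δ j 𝔮.asIdeal) ^
          (ordv 𝔮 (((δ ^ j)⁻¹ : M ≃ₐ[K] M) (x : M))) : ℤˣ) : ℤ) : ℝ) := by
      rw [Units.coe_prod, Int.cast_prod]
      apply Finset.prod_congr rfl
      intro j _
      rw [hψp 𝔮 h𝔮 j, ← natAbs_pow, Units.val_pow_eq_pow_val, Int.cast_pow]
    rw [h4, h2]
    simp

end Pool.Agent.Helper10.RS
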