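import Pool.Agent.Helper81.RS.SEX
import Pool.Agent.Helper90.RS.DUAL
import Pool.Agent.Helper40.RS.Gal

/-!
# Projects RS and RP (MP_fc6b1e_nt), packets CHR: the common core

`S` is a finite set of primes of `M` such that every divisor is principal outside `S`; a homomorphism
`lam` on `Mˣ`, trivial on the `S`-units, gives a function `psi0` on the ideals.
-/

namespace Pool.Agent.Helper10.CHR

open NumberField Module IsDedekindDomain Pool.Agent.Helper38.RS
open scoped nonZeroDivisors Pointwise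

section core

variable {M : Type} [Field M] [NumberField M]

/-- The exponent of `w` in the ideal `I`. -/
noncomputable def oI (w : HeightOneSpectrum (𝓞 M)) (I : Ideal (𝓞 M)) : ℤ :=
  FractionalIdeal.count M w (I : FractionalIdeal (𝓞 M)⁰ M)

theorem oI_mul (w : HeightOneSpectrum (𝓞 M)) {I J : Ideal (𝓞 M)} (hI : I ≠ ⊥) (hJ : J ≠ ⊥) :
    oI w (I * J) = oI w I + oI w J := by
  unfold oI
  rw [FractionalIdeal.coeIdeal_mul, FractionalIdeal.count_mul]
  · exact FractionalIdeal.coeIdeal_ne_zero.mpr hI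
  · exact FractionalIdeal.coeIdeal_ne_zero.mpr hJ

theorem oI_prime [DecidableEq (HeightOneSpectrum (𝓞 M))] (w v : HeightOneSpectrum (𝓞 M)) :
    oI w v.asIdeal = if v = w then 1 else 0 := by
  unfold oI
  exact FractionalIdeal.count_maximal M w v

theorem oI_span (w : HeightOneSpectrum (𝓞 M)) (r : 𝓞 M) (hr : r ≠ 0) :
    oI w (Ideal.span {r}) = ordv w (r : M) := by
  unfold oI
  rw [FractionalIdeal.coeIdeal_span_singleton]
  exact (Pool.Agent.Helper81.RS.ordv_int w r hr).symm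

theorem ordv_mul' (w : HeightOneSpectrum (𝓞 M)) (x y : Mˣ) :
    ordv w ((x * y : Mˣ) : M) = ordv w (x : M) + ordv w (y : M) := by
  rw [Units.val_mul]
  exact Pool.Agent.Helper90.RS.ordv_mul w x.ne_zero y.ne_zero

theorem ordv_inv' (w : HeightOneSpectrum (𝓞 M)) (x : Mˣ) :
    ordv w ((x⁻¹ : Mˣ) : M) = - ordv w (x : M) := by
  rw [Units.val_inv_eq_inv_val]
  exact Pool.Agent.Helper90.RS.ordv_inv w _

theorem ordv_one' (w : HeightOneSpectrum (𝓞 M)) : ordv w ((1 : Mˣ) : M) = 0 := by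
  rw [Units.val_one]
  exact (Pool.Agent.Helper90.RS.ordv_eq_zero_iff w one_ne_zero).2 (map_one _)

/-- The valuation as a homomorphism. -/
noncomputable def oh (w : HeightOneSpectrum (𝓞 M)) : Mˣ →* Multiplicative ℤ where
  toFun x := Multiplicative.ofAdd (ordv w (x : M))
  map_one' := by rw [ordv_one']; rfl
  map_mul' x y := by rw [ordv_mul']; rfl

theorem ordv_zpow' (w : HeightOneSpectrum (𝓞 M)) (x : Mˣ) (n : ℤ) :
    ordv w ((x ^ n : Mˣ) : M) = n * ordv w (x : M) := by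
  have h := congrArg Multiplicative.toAdd (map_zpow (oh w) x n)
  rw [toAdd_zpow] at h
  simpa [oh] using h

theorem ordv_prod' {ι : Type} (w : HeightOneSpectrum (𝓞 M)) (s : Finset ι) (f : ι → Mˣ) :
    ordv w ((∏ i ∈ s, f i : Mˣ) : M) = ∑ i ∈ s, ordv w ((f i : Mˣ) : M) := by
  classical
  induction s using Finset.induction_on with
  | empty => rw [Finset.prod_empty, Finset.sum_empty]; exact ordv_one' w
  | insert i s hi ih => rw [Finset.prod_insert hi, Finset.sum_insert hi, ordv_mul', ih]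

theorem mem_unit (S : Set (HeightOneSpectrum (𝓞 M))) (x : Mˣ)
    (h : ∀ w, w ∉ S → ordv w (x : M) = 0) : x ∈ S.unit M := by
  intro w hw
  exact (Pool.Agent.Helper90.RS.ordv_eq_zero_iff w x.ne_zero).1 (h w hw)

variable {A : Type} [CommGroup A] (S : Set (HeightOneSpectrum (𝓞 M))) (lam : Mˣ →* A)

/-- `x` is a generator of the ideal `I` outside `S`. -/
def Gen (I : Ideal (𝓞 M)) (x : Mˣ) : Prop := ∀ w, w ∉ S → ordv w (x : M) = oI w I

open Classical in
/-- The function on ideals attached to `lam`. -/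
noncomputable def psi0 (I : Ideal (𝓞 M)) : A :=
  if h : ∃ x : Mˣ, Gen S I x then lam h.choose else 1

variable {S lam}

theorem psi0_eq (hU : ∀ x ∈ S.unit M, lam x = 1) {I : Ideal (𝓞 M)} {x : Mˣ} (hx : Gen S I x) :
    psi0 S lam I = lam x := by
  have h : ∃ x : Mˣ, Gen S I x := ⟨x, hx⟩
  unfold psi0
  rw [dif_pos h]
  have h1 : lam (h.choose * x⁻¹) = 1 := by
    apply hU
    apply mem_unit
    intro w hw
    rw [ordv_mul', ordv_inv', h.choose_spec w hw, hx w hw]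
    ring
  rw [map_mul, map_inv] at h1
  exact mul_inv_eq_one.1 h1

theorem exists_gen
    (hpr : ∀ n : HeightOneSpectrum (𝓞 M) →₀ ℤ, ∃ x : Mˣ, ∀ w ∉ S, ordv w (x : M) = n w)
    (I : Ideal (𝓞 M)) : ∃ x : Mˣ, Gen S I x := by
  have h1 := FractionalIdeal.finite_factors (R := 𝓞 M) (K := M)
    (I : FractionalIdeal (𝓞 M)⁰ M)
  have h2 : {w : HeightOneSpectrum (𝓞 M) | oI w I ≠ 0}.Finite := by
    rw [Filter.eventually_cofinite] at h1
    exact h1
  obtain ⟨x, hx⟩ := hpr (Finsupp.ofSupportFinite (fun w => oI w I) h2)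
  exact ⟨x, fun w hw => hx w hw⟩

theorem psi0_mul (hU : ∀ x ∈ S.unit M, lam x = 1)
    (hpr : ∀ n : HeightOneSpectrum (𝓞 M) →₀ ℤ, ∃ x : Mˣ, ∀ w ∉ S, ordv w (x : M) = n w)
    {I J : Ideal (𝓞 M)} (hI : I ≠ ⊥) (hJ : J ≠ ⊥) :
    psi0 S lam (I * J) = psi0 S lam I * psi0 S lam J := by
  obtain ⟨x, hx⟩ := exists_gen hpr I
  obtain ⟨y, hy⟩ := exists_gen hpr J
  have hxy : Gen S (I * J) (x * y) := fun w hw => by
    rw [ordv_mul', oI_mul w hI hJ, hx w hw, hy w hw]
  rw [psi0_eq hU hx, psi0_eq hU hy, psi0_eq hU hxy, map_mul]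

theorem psi0_span (hU : ∀ x ∈ S.unit M, lam x = 1) {r : 𝓞 M} (hr : r ≠ 0) (x : Mˣ)
    (hx : (x : M) = (r : M)) : psi0 S lam (Ideal.span {r}) = lam x :=
  psi0_eq hU (fun w _ => by rw [hx, oI_span w r hr])

theorem psi0_inS (hU : ∀ x ∈ S.unit M, lam x = 1) {v : HeightOneSpectrum (𝓞 M)} (hv : v ∈ S) :
    psi0 S lam v.asIdeal = 1 := by
  classical
  have h1 : Gen S v.asIdeal (1 : Mˣ) := fun w hw => by
    rw [ordv_one', oI_prime, if_neg]
    rintro rfl
    exact hw hv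
  rw [psi0_eq hU h1, map_one]

theorem psi0_top (hU : ∀ x ∈ S.unit M, lam x = 1) :
    psi0 S lam (⊤ : Ideal (𝓞 M)) = 1 := by
  have h := psi0_span hU (one_ne_zero (α := 𝓞 M)) (1 : Mˣ) (by simp)
  rw [Ideal.span_singleton_one] at h
  rw [h, map_one]

/-- If all the primes have trivial image then `psi0` is trivial. -/
theorem psi0_triv (hU : ∀ x ∈ S.unit M, lam x = 1)
    (hpr : ∀ n : HeightOneSpectrum (𝓞 M) →₀ ℤ, ∃ x : Mˣ, ∀ w ∉ S, ordv w (x : M) = n w)
    (hv : ∀ v : HeightOneSpectrum (𝓞 M), v ∉ S → psi0 S lam v.asIdeal = 1)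
    (I : Ideal (𝓞 M)) : I ≠ ⊥ → psi0 S lam I = 1 := by
  induction I using UniqueFactorizationMonoid.induction_on_prime with
  | h₁ => exact fun h => absurd rfl h
  | h₂ I hI =>
    intro _
    rw [Ideal.isUnit_iff.1 hI]
    exact psi0_top hU
  | h₃ I P hI hP ih =>
    intro h
    rw [psi0_mul hU hpr hP.ne_zero hI, ih hI, mul_one]
    by_cases hS : (⟨P, Ideal.isPrime_of_prime hP, hP.ne_zero⟩ : HeightOneSpectrum (𝓞 M)) ∈ S
    · exact psi0_inS hU hS
    · exact hv _ hS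

theorem exists_prime (hU : ∀ x ∈ S.unit M, lam x = 1)
    (hpr : ∀ n : HeightOneSpectrum (𝓞 M) →₀ ℤ, ∃ x : Mˣ, ∀ w ∉ S, ordv w (x : M) = n w)
    (hl : ∃ x, lam x ≠ 1) : ∃ v : HeightOneSpectrum (𝓞 M), v ∉ S ∧ psi0 S lam v.asIdeal ≠ 1 := by
  by_contra hcon
  push Not at hcon
  obtain ⟨x, hx⟩ := hl
  apply hx
  have h1 : ∀ (r : 𝓞 M) (y : Mˣ), (y : M) = (r : M) → lam y = 1 := by
    intro r y hy
    have hr : r ≠ 0 := by
      rintro rfl
      exact y.ne_zero (by rw [hy]; rfl)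
    rw [← psi0_span hU hr y hy]
    exact psi0_triv hU hpr hcon _ (by simpa using hr)
  obtain ⟨a, b, hb, hab⟩ := IsFractionRing.div_surjective (A := 𝓞 M) (x : M)
  have hb0 : (b : M) ≠ 0 := by
    have := nonZeroDivisors.ne_zero hb
    simpa using this
  have ha0 : (a : M) ≠ 0 := by
    intro h
    apply x.ne_zero
    rw [← hab]
    show (a : M) / (b : M) = 0
    rw [h, zero_div]
  have h2 : x = Units.mk0 (a : M) ha0 * (Units.mk0 (b : M) hb0)⁻¹ := by
    ext
    rw [Units.val_mul, Units.val_inv_eq_inv_val, Units.val_mk0, Units.val_mk0, ← hab]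
    exact div_eq_mul_inv _ _
  rw [h2, map_mul, map_inv, h1 a _ rfl, h1 b _ rfl, inv_one, mul_one]

end core

section conj

variable {K M : Type} [Field K] [NumberField K] [Field M] [NumberField M] [Algebra K M]
  [IsGalois K M]

theorem map_eq_smul (g : M ≃ₐ[K] M) (I : Ideal (𝓞 M)) :
    I.map (RingOfIntegers.mapRingHom (g : M →+* M)) = g • I := by
  rw [Ideal.pointwise_smul_def]
  congr 1

theorem cj_eq (δ : M ≃ₐ[K] M) (n : ℕ) (v : HeightOneSpectrum (𝓞 M)) :
    cj δ n v.asIdeal = (Pool.Agent.Helper40.RS.gw (δ ^ n) v).asIdeal := by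
  unfold cj
  exact map_eq_smul (δ ^ n) v.asIdeal

theorem gw_one (v : HeightOneSpectrum (𝓞 M)) :
    Pool.Agent.Helper40.RS.gw (1 : M ≃ₐ[K] M) v = v := by
  apply HeightOneSpectrum.ext
  exact one_smul _ _

theorem gw_mul (g h : M ≃ₐ[K] M) (v : HeightOneSpectrum (𝓞 M)) :
    Pool.Agent.Helper40.RS.gw (g * h) v =
      Pool.Agent.Helper40.RS.gw g (Pool.Agent.Helper40.RS.gw h v) := by
  apply HeightOneSpectrum.ext
  exact mul_smul _ _ _

theorem gw_val (g : M ≃ₐ[K] M) (v : HeightOneSpectrum (𝓞 M)) (y : M) :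
    (Pool.Agent.Helper40.RS.gw g v).valuation M (g y) = v.valuation M y :=
  Pool.Agent.Helper40.RS.val_smul g v _ rfl y

theorem ordv_gw (g : M ≃ₐ[K] M) (v : HeightOneSpectrum (𝓞 M)) (y : M) :
    ordv (Pool.Agent.Helper40.RS.gw g v) (g y) = ordv v y := by
  unfold ordv
  rw [gw_val]

theorem gw_conj (g : M ≃ₐ[K] M) (v : HeightOneSpectrum (𝓞 M)) :
    ConjP K (Pool.Agent.Helper40.RS.gw g v) v := ⟨g, fun y => gw_val g v y⟩

theorem conj_gw {w v : HeightOneSpectrum (𝓞 M)} (h : ConjP K w v) :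
    ∃ g : M ≃ₐ[K] M, w = Pool.Agent.Helper40.RS.gw g v := by
  obtain ⟨g, hg⟩ := h
  refine ⟨g, Pool.Agent.Helper81.RS.eq_of_valuation _ _ fun y => ?_⟩
  have h1 := gw_val g v (g⁻¹ y)
  have h2 := hg (g⁻¹ y)
  have h3 : g (g⁻¹ y) = y := g.apply_symm_apply y
  rw [h3] at h1 h2
  rw [h1, h2]

variable {A : Type} [CommGroup A] {S : Set (HeightOneSpectrum (𝓞 M))} {lam : Mˣ →* A}

theorem gw_mem (hst : ∀ w ∈ S, ∀ v, ConjP K v w → v ∈ S) (g : M ≃ₐ[K] M)
    (v : HeightOneSpectrum (𝓞 M)) (hv : v ∉ S) : Pool.Agent.Helper40.RS.gw g v ∉ S := by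
  intro h
  apply hv
  apply hst _ h
  have := gw_conj g⁻¹ (Pool.Agent.Helper40.RS.gw g v)
  rwa [← gw_mul, inv_mul_cancel, gw_one] at this

theorem gen_gw (hst : ∀ w ∈ S, ∀ v, ConjP K v w → v ∈ S) (g : M ≃ₐ[K] M)
    (v : HeightOneSpectrum (𝓞 M)) (x : Mˣ) (hx : Gen S v.asIdeal x) :
    Gen S (Pool.Agent.Helper40.RS.gw g v).asIdeal (Units.map ((g : M →+* M) : M →* M) x) := by
  classical
  intro w hw
  have h1 : w = Pool.Agent.Helper40.RS.gw g (Pool.Agent.Helper40.RS.gw g⁻¹ w) := by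
    rw [← gw_mul, mul_inv_cancel, gw_one]
  have h2 : ordv w ((Units.map ((g : M →+* M) : M →* M) x : Mˣ) : M) =
      ordv (Pool.Agent.Helper40.RS.gw g⁻¹ w) (x : M) := by
    conv_lhs => rw [h1]
    exact ordv_gw g _ _
  rw [h2, hx _ (gw_mem hst g⁻¹ w hw), oI_prime, oI_prime]
  have h3 : (v = Pool.Agent.Helper40.RS.gw g⁻¹ w) ↔ (Pool.Agent.Helper40.RS.gw g v = w) := by
    constructor
    · intro h
      rw [h, ← h1]
    · intro h
      rw [← h, ← gw_mul, inv_mul_cancel, gw_one]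
  simp only [h3]

/-- (ii) -/
theorem psi0_cj (hU : ∀ x ∈ S.unit M, lam x = 1) (hst : ∀ w ∈ S, ∀ v, ConjP K v w → v ∈ S)
    (δ : M ≃ₐ[K] M) (l : ℕ) (v : HeightOneSpectrum (𝓞 M)) (x : Mˣ)
    (hx : Gen S (Pool.Agent.Helper40.RS.gw (δ ^ l) v).asIdeal x) (j : ℕ) :
    psi0 S lam (cj δ (l + j) v.asIdeal) =
      lam (Units.map (((δ ^ j : M ≃ₐ[K] M) : M →+* M) : M →* M) x) := by
  have h1 := gen_gw hst (δ ^ j) _ x hx
  rw [← gw_mul, ← pow_add, add_comm j l, ← cj_eq] at h1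
  exact psi0_eq hU h1

/-- (iii) -/
theorem psi0_rel (hU : ∀ x ∈ S.unit M, lam x = 1)
    (hpr : ∀ n : HeightOneSpectrum (𝓞 M) →₀ ℤ, ∃ x : Mˣ, ∀ w ∉ S, ordv w (x : M) = n w)
    (m n : ℕ) (hn : ∀ a : A, a ^ n = 1) (δ : M ≃ₐ[K] M) (hδ : orderOf δ = m)
    (hm : finrank K M = m) (v : HeightOneSpectrum (𝓞 M)) (hf : FreeP K v)
    (x : Mˣ) (hx : lam x = 1)
    (hxn : ∀ w, w ∉ S → ¬ ConjP K w v → (n : ℤ) ∣ ordv w (x : M)) :
    ∏ j ∈ Finset.range m, psi0 S lam (cj δ j v.asIdeal) ^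
      (ordv v (((δ ^ j)⁻¹ : M ≃ₐ[K] M) (x : M))) = 1 := by
  classical
  have hfd : FiniteDimensional K M := Module.Finite.of_restrictScalars_finite ℚ K M
  have hmpos : 0 < m := by rw [← hm]; exact finrank_pos
  -- all the automorphisms are powers
  have hpow : ∀ g : M ≃ₐ[K] M, ∃ j < m, g = δ ^ j := by
    intro g
    have hcard : Nat.card (M ≃ₐ[K] M) = orderOf δ := by
      rw [IsGalois.card_aut_eq_finrank, hm, hδ]
    have hfinG : Finite (M ≃ₐ[K] M) := inferInstance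
    have htop : Subgroup.zpowers δ = ⊤ := by
      apply Subgroup.eq_top_of_card_eq
      rw [Nat.card_zpowers, hcard]
    have hg : g ∈ Subgroup.zpowers δ := by rw [htop]; exact Subgroup.mem_top g
    have h2 := (isOfFinOrder_of_finite δ).mem_zpowers_iff_mem_range_orderOf.1 hg
    rw [Finset.mem_image] at h2
    obtain ⟨j, hj, hjg⟩ := h2
    rw [Finset.mem_range, hδ] at hj
    exact ⟨j, hj, hjg.symm⟩
  have hinj : ∀ i < m, ∀ j < m, Pool.Agent.Helper40.RS.gw (δ ^ i) v =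
      Pool.Agent.Helper40.RS.gw (δ ^ j) v → i = j := by
    intro i hi j hj h
    have h2 := Pool.Agent.Helper40.RS.gw_inj v hf h
    have h3 : δ ^ i = δ ^ j := h2
    rw [← hδ] at hi hj
    exact pow_injOn_Iio_orderOf hi hj h3
  -- the generators
  choose y hy using fun j : ℕ => exists_gen hpr (Pool.Agent.Helper40.RS.gw (δ ^ j) v).asIdeal
  have hpsi : ∀ j, psi0 S lam (cj δ j v.asIdeal) = lam (y j) := by
    intro j
    rw [cj_eq]
    exact psi0_eq hU (hy j)
  have hord : ∀ j, ordv v (((δ ^ j)⁻¹ : M ≃ₐ[K] M) (x : M)) =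
      ordv (Pool.Agent.Helper40.RS.gw (δ ^ j) v) (x : M) := by
    intro j
    have h1 := ordv_gw (δ ^ j) v (((δ ^ j)⁻¹ : M ≃ₐ[K] M) (x : M))
    rw [← h1]
    congr 1
    exact (δ ^ j).apply_symm_apply _
  -- the element z
  have hfinx : {w : HeightOneSpectrum (𝓞 M) |
      (if ConjP K w v then 0 else ordv w (x : M) / n) ≠ 0}.Finite := by
    refine (Pool.Agent.Helper90.RS.finite_ordv (x : M) x.ne_zero).subset ?_
    intro w hw h0
    apply hw
    split_ifs
    · rfl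
    · rw [h0, Int.zero_ediv]
  obtain ⟨z, hz⟩ := hpr (Finsupp.ofSupportFinite
    (fun w => if ConjP K w v then 0 else ordv w (x : M) / n) hfinx)
  have hz' : ∀ w, w ∉ S → ordv w (z : M) = if ConjP K w v then 0 else ordv w (x : M) / n :=
    fun w hw => hz w hw
  set e : ℕ → ℤ := fun j => ordv (Pool.Agent.Helper40.RS.gw (δ ^ j) v) (x : M) with he
  have hmem : x * (z ^ n)⁻¹ * (∏ j ∈ Finset.range m, (y j) ^ (e j))⁻¹ ∈ S.unit M := by
    apply mem_unit
    intro w hw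
    rw [ordv_mul', ordv_mul', ordv_inv', ordv_inv', ordv_prod', ← zpow_natCast z n, ordv_zpow',
      hz' w hw]
    have h1 : ∀ j ∈ Finset.range m, ordv w ((y j ^ (e j) : Mˣ) : M) =
        if Pool.Agent.Helper40.RS.gw (δ ^ j) v = w then e j else 0 := by
      intro j _
      rw [ordv_zpow', hy j w hw, oI_prime]
      split_ifs <;> simp
    rw [Finset.sum_congr rfl h1]
    by_cases hc : ConjP K w v
    · rw [if_pos hc]
      obtain ⟨g, hg⟩ := conj_gw hc
      obtain ⟨i, hi, rfl⟩ := hpow g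
      have h2 : ∀ j ∈ Finset.range m, (if Pool.Agent.Helper40.RS.gw (δ ^ j) v = w then e j else 0) =
          if j = i then e j else 0 := by
        intro j hj
        rw [Finset.mem_range] at hj
        by_cases hji : j = i
        · subst hji
          rw [if_pos hg.symm, if_pos rfl]
        · rw [if_neg hji, if_neg]
          intro h
          apply hji
          apply hinj j hj i hi
          rw [h, hg]
      rw [Finset.sum_congr rfl h2, Finset.sum_ite_eq' (Finset.range m) i,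
        if_pos (Finset.mem_range.2 hi)]
      rw [he]
      simp only
      rw [← hg]
      ring
    · rw [if_neg hc]
      have h2 : ∀ j ∈ Finset.range m,
          (if Pool.Agent.Helper40.RS.gw (δ ^ j) v = w then e j else 0) = 0 := by
        intro j _
        rw [if_neg]
        rintro rfl
        exact hc (gw_conj _ _)
      rw [Finset.sum_congr rfl h2, Finset.sum_const_zero]
      have h3 := hxn w hw hc
      rw [Int.mul_ediv_cancel' h3]
      ring
  have h1 := hU _ hmem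
  rw [map_mul, map_mul, map_inv, map_inv, map_pow, hn, hx, map_prod, inv_one, one_mul,
    one_mul, inv_eq_one] at h1
  rw [← h1]
  apply Finset.prod_congr rfl
  intro j _
  rw [hpsi, hord, map_zpow]

end conj

section modulus

variable {M : Type} [Field M] [NumberField M]

theorem cop_iff (S : Set (HeightOneSpectrum (𝓞 M))) (hS : S.Finite) (𝔫 : Ideal (𝓞 M))
    (h : ∀ w : HeightOneSpectrum (𝓞 M), 𝔫 ≤ w.asIdeal → w ∈ S) (w : HeightOneSpectrum (𝓞 M)) :
    w.asIdeal ⊔ 𝔫 * ∏ v ∈ hS.toFinset, v.asIdeal = ⊤ ↔ w ∉ S := by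
  have hmax : w.asIdeal.IsMaximal := w.isMaximal
  constructor
  · intro h1 h2
    have h3 : 𝔫 * ∏ v ∈ hS.toFinset, v.asIdeal ≤ w.asIdeal := by
      refine Ideal.mul_le_right.trans ?_
      have h4 := Finset.dvd_prod_of_mem (fun v : HeightOneSpectrum (𝓞 M) => v.asIdeal)
        (hS.mem_toFinset.2 h2)
      exact Ideal.le_of_dvd h4
    rw [sup_eq_left.2 h3] at h1
    exact hmax.ne_top h1
  · intro h1
    by_contra h2
    have h3 : w.asIdeal = w.asIdeal ⊔ 𝔫 * ∏ v ∈ hS.toFinset, v.asIdeal :=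
      hmax.eq_of_le h2 le_sup_left
    have h4 : 𝔫 * ∏ v ∈ hS.toFinset, v.asIdeal ≤ w.asIdeal := by
      rw [h3]; exact le_sup_right
    have hp : w.asIdeal.IsPrime := w.isPrime
    rcases (Ideal.IsPrime.mul_le hp).1 h4 with h5 | h5
    · exact h1 (h w h5)
    · rw [Ideal.IsPrime.prod_le hp] at h5
      obtain ⟨v, hv, hvw⟩ := h5
      rw [hS.mem_toFinset] at hv
      have hvm : v.asIdeal.IsMaximal := v.isMaximal
      have h6 := hvm.eq_of_le hp.ne_top hvw
      apply h1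
      have : v = w := HeightOneSpectrum.ext h6
      rwa [← this]

theorem mod_ne (S : Set (HeightOneSpectrum (𝓞 M))) (hS : S.Finite) (𝔫 : Ideal (𝓞 M))
    (h : 𝔫 ≠ ⊥) : 𝔫 * ∏ v ∈ hS.toFinset, v.asIdeal ≠ ⊥ := by
  have h1 : (∏ v ∈ hS.toFinset, v.asIdeal) ≠ 0 := by
    rw [Finset.prod_ne_zero_iff]
    intro v _
    exact v.ne_bot
  exact mul_ne_zero h h1

end modulus

end Pool.Agent.Helper10.CHR
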