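import Mathlib

/-!
Proportions of `r`-singular elements of a finite group.
-/

namespace Pool.Agent.Helper10.RS

universe u v

/-- The number of elements of `G` whose order is divisible by `r`. -/
noncomputable def sing (G : Type u) [Group G] (r : ℕ) : ℕ := Nat.card {g : G // r ∣ orderOf g}

/-- The proportion of elements of `G` whose order is divisible by `r`. -/
noncomputable def mu (G : Type u) [Group G] (r : ℕ) : ℚ := (sing G r : ℚ) / (Nat.card G : ℚ)

/-- The set of the proportions `mu G r`, for the primes `r` dividing the order of `G`. -/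
def muSet (G : Type u) [Group G] : Set ℚ :=
  {x | ∃ r : ℕ, r.Prime ∧ r ∣ Nat.card G ∧ x = mu G r}

/-- `G` has a simple chief factor `X / Y` (`X` and `Y` normal in `G`) which is not abelian, not
isomorphic to an alternating group, of order divisible by `r` and by every power `l ^ a` of a prime
`l` which divides `r - 1`, as soon as `n ≤ (l - 2) ^ l`. -/
def NonAltFactor (G : Type u) [Group G] (n r : ℕ) : Prop :=
  ∃ (X Y : Subgroup G) (_ : X.Normal) (_ : Y.Normal), Y ≤ X ∧
    IsSimpleGroup (↥X ⧸ Y.subgroupOf X) ∧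
    (∃ a b : ↥X ⧸ Y.subgroupOf X, a * b ≠ b * a) ∧
    (∀ m : ℕ, IsEmpty ((↥X ⧸ Y.subgroupOf X) ≃* alternatingGroup (Fin m))) ∧
    r ∣ Nat.card (↥X ⧸ Y.subgroupOf X) ∧
    ∀ l a : ℕ, l.Prime → n ≤ (l - 2) ^ l → l ^ a ∣ r - 1 →
      l ^ a ∣ Nat.card (↥X ⧸ Y.subgroupOf X)

end Pool.Agent.Helper10.RS
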