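import Pool.Agent.Helper10.RS.Goals

/-!
Goals of project RS, part 2: the non-alternating factors are not `PSL_2(r)` either, and contain an
automizer condition; the number of exceptions is at most `n^ε`.
-/

open Finset

namespace Pool.Agent.Helper10.RS

universe u v

/-- The group `PSL_2(p)`. -/
abbrev PSL2 (p : ℕ) : Type := Matrix.ProjectiveSpecialLinearGroup (Fin 2) (ZMod p)

/-- `G` has a simple chief factor `T = X / Y` (`X`, `Y` normal in `G`) which is not abelian, not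
isomorphic to an alternating group, not isomorphic to `PSL_2(r)`, and has an element `x` of order `r`
such that, for every prime power `l ^ a` dividing `r - 1` with `n ≤ (l - 2) ^ l`, some element of `T`
normalizes `⟨x⟩` and acts on it as an automorphism of order `l ^ a`. -/
def ExoticFactor (G : Type u) [Group G] (n r : ℕ) : Prop :=
  ∃ (X Y : Subgroup G) (_ : X.Normal) (_ : Y.Normal), Y ≤ X ∧
    IsSimpleGroup (↥X ⧸ Y.subgroupOf X) ∧
    (∃ a b : ↥X ⧸ Y.subgroupOf X, a * b ≠ b * a) ∧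
    (∀ m : ℕ, IsEmpty ((↥X ⧸ Y.subgroupOf X) ≃* alternatingGroup (Fin m))) ∧
    IsEmpty ((↥X ⧸ Y.subgroupOf X) ≃* PSL2 r) ∧
    ∃ x : ↥X ⧸ Y.subgroupOf X, orderOf x = r ∧
      ∀ l a : ℕ, l.Prime → n ≤ (l - 2) ^ l → l ^ a ∣ r - 1 →
        ∃ (g : ↥X ⧸ Y.subgroupOf X) (s : ℕ), g * x * g⁻¹ = x ^ s ∧ orderOf (s : ZMod r) = l ^ a

/-- (FRAT2) Stronger form of FRAT (same hypotheses).

Proof. As FRAT (`Pool.Agent.Helper57.RS.p_frat`): `R ≤ X` of order `r`, `N = N_G(R)`,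
`φ : N → Aut R` onto, `Aut R ≅ (Z/r)^*` cyclic of order `r - 1`, `A = φ(N ∩ X)`, and `l ^ a ∣ |A|` for
`l ^ a ∣ r - 1`. So the cyclic group `A` has an element of order `l ^ a`: some `h ∈ N ∩ X` with
`h y h⁻¹ = y ^ s` for `y ∈ R`, `s` of order `l ^ a` mod `r`. Map to `T = X / Y`: `R` maps isomorphically
onto a subgroup `R̄` of order `r` (`r ∤ |Y|`), a Sylow `r`-subgroup of `T`. If `x ∈ T` has order `r`,
`⟨x⟩` is conjugate in `T` to `R̄` (Sylow), so `x = t ȳ t⁻¹` with `ȳ ∈ R̄`, and `g = t h̄ t⁻¹` works. -/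
def FRAT2 : Prop := ∀ (G : Type u) [Group G] [Finite G] (r l : ℕ), r.Prime → l.Prime →
  ¬ r ^ 2 ∣ Nat.card G →
  (∀ R : Subgroup G, Nat.card R = r →
    ∀ x ∈ R, ∀ y ∈ R, x ≠ 1 → y ≠ 1 → ∃ g : G, g * x * g⁻¹ = y) →
  (∀ N : Subgroup G, N.Normal → N.index ≠ l) →
  ∀ (X Y : Subgroup G) [X.Normal] [Y.Normal], Y ≤ X → ¬ r ∣ Nat.card Y → r ∣ Nat.card X →
    ∀ x : ↥X ⧸ Y.subgroupOf X, orderOf x = r → ∀ a : ℕ, l ^ a ∣ r - 1 →
      ∃ (g : ↥X ⧸ Y.subgroupOf X) (s : ℕ), g * x * g⁻¹ = x ^ s ∧ orderOf (s : ZMod r) = l ^ a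

/-- (PSLC) Order of `PSL_2(p)` and its elements of odd order: at most three quarters.

Proof. `|SL_2(p)| = p (p² - 1)`, centre `{±1}`. Let `J = !![0, 1; -1, 0] ∈ SL_2(p)`, `J² = -1`, and
`C = C_{SL_2(p)}(J)`. Centralizers of non-scalar `2 × 2` matrices are commutative
(`C = {a + b J}`), so for `c ∈ C`, `c ≠ ±1`, `C_{SL_2}(c) = C`. If `g C g⁻¹ ≠ C` then
`g C g⁻¹ ∩ C = {±1}`. If `g C g⁻¹ = C` then `g J g⁻¹ ∈ C` has square `-1`; the elements
`a + b J ∈ C` with square `-1` are `±J` (`a b = 0`; `b = 0` would give `a² = -1` and determinant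
`a² = -1 ≠ 1`), so `|N(C) : C| ≤ 2`. In the image `C̄ = C / {±1}`, abelian of even order (the image of
`J` has order `2`), the elements of odd order form a proper subgroup, so at least half of the elements
of `C̄` have even order. There are at least `|SL_2| / (2 |C|)` conjugates of `C̄`, meeting pairwise
trivially: at least `(|PSL_2| / (2 |C̄|)) (|C̄| / 2) = |PSL_2| / 4` elements of even order. -/
def PSLC : Prop := ∀ p : ℕ, p.Prime → 5 ≤ p →
  2 * Nat.card (PSL2 p) = p * (p ^ 2 - 1) ∧ reg (PSL2 p) 2 * 4 ≤ 3 * Nat.card (PSL2 p)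

/-- (AUTP) `PSL_2(p)` has index at most `2` in any group in which it is normal and self-centralizing.

Proof. `u = !![1, 1; 0, 1]`, `v = !![1, 0; 1, 1]` (classes in `T = PSL_2(p)`), `U = ⟨u⟩`, `V = ⟨v⟩`,
`T = ⟨u, v⟩`. The subgroups of order `p` of `T` are Sylow subgroups (`|T| = p (p² - 1) / 2`), one for
each point of the projective line (its fixed point), and `T` acts 2-transitively on the projective
line. So for `b ∈ B` there is `t ∈ T` such that `c = t b` normalizes `U` and `V`: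
`c u c⁻¹ = u ^ s`, `c v c⁻¹ = v ^ s'`. `u v⁻²` has trace `0`, so it has order `2` in `T`, so
`u ^ s v ^ (-2 s')` has order `2`, hence trace `0`: `2 - 2 s s' = 0`, `s s' = 1`. If `s = d²` is a
square mod `p`, `c` acts on `u`, `v` as `diag(d, d⁻¹)`, so `c ∈ T C_B(T) = T` and `b ∈ T`. If
`b₁, b₂ ∉ T` then `s₁`, `s₂` are non-squares; `c₁ c₂⁻¹` normalizes `U`, `V` with parameter `s₁ / s₂`, a
square, so `c₁ c₂⁻¹ ∈ T`, `b₁ b₂⁻¹ ∈ T`. -/
def AUTP : Prop := PSLC → ∀ (B : Type u) [Group B] [Finite B] (T : Subgroup B) [T.Normal] (p : ℕ),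
  p.Prime → 5 ≤ p → Nonempty (T ≃* PSL2 p) → Subgroup.centralizer (T : Set B) = ⊥ →
  T.index ≤ 2

/-- (PRODT) Few chief factors `PSL_2(p)`.

Proof. `P = {p_1, ..., p_t}`, `X_i / Y_i ≅ PSL_2(p_i)` simple, `K_i = {g | ∀ x ∈ X_i,
g x g⁻¹ x⁻¹ ∈ Y_i}` normal in `G`, `K_i ∩ X_i = Y_i`, `B_i = G / K_i`, `T_i` = image of `X_i` in `B_i`,
`T_i ≅ PSL_2(p_i)`, normal with trivial centralizer, so `|B_i : T_i| ≤ 2` by AUTP. Let `G₀` be the
subgroup of `G` generated by the elements of odd order (normal). It contains all elements of odd order,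
so `reg G 2 = reg G₀ 2`. Its image in `B_i` lies in `T_i` (elements of odd order do) and contains all
elements of odd order of `T_i` (an element of odd order of a quotient lifts to one: take a power of a
lift), is normal and non-trivial, so it is `T_i` (simple). Let `L_i` be the kernel of `G₀ → T_i`. The
`L_i` are pairwise distinct (the orders of the `T_i` are distinct: `p (p² - 1) / 2` is strictly
increasing). Claim: `|G₀ : L_1 ∩ ... ∩ L_j| = ∏ |T_i|` and the proportion of elements of odd order of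
`G₀ / (L_1 ∩ ... ∩ L_j)` is the product of those of the `T_i`. Induction: `M = L_1 ∩ ... ∩ L_j` is not
contained in `L_{j+1}`: otherwise, with `Q = G₀ / L_{j+1}` non-abelian simple, all `L_i` (`i ≤ j`) map
onto `Q` (distinct maximal normal subgroups), and the iterated commutator
`[..[L_1, L_2], .., L_j] ≤ M ≤ L_{j+1}` maps onto `[..[Q, Q], .., Q] = Q`, contradiction. So
`M L_{j+1} = G₀` and `G₀ / (M ∩ L_{j+1}) ≅ G₀ / M × T_{j+1}`. By QUO
`reg G₀ 2 / |G₀| ≤ ∏ reg T_i 2 / |T_i| ≤ (3/4)^t`. -/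
def PRODT : Prop := QUO.{u} → QUO.{0} → AUTP.{u} → PSLC → ∀ (G : Type u) [Group G] [Finite G]
  (P : Finset ℕ),
  (∀ p ∈ P, p.Prime ∧ 5 ≤ p ∧ ∃ (X Y : Subgroup G) (_ : X.Normal) (_ : Y.Normal), Y ≤ X ∧
    IsSimpleGroup (↥X ⧸ Y.subgroupOf X) ∧ Nonempty ((↥X ⧸ Y.subgroupOf X) ≃* PSL2 p)) →
  reg G 2 * 4 ^ P.card ≤ 3 ^ P.card * Nat.card G

/-- (SMOE) Fewer than `n^ε` primes `r ≤ n` are such that every prime `l ∣ r - 1` has `(l-2)^l < n`.

Proof. Let `L = ⌈2 log n / log log n⌉`. For large `n`, `L log (L - 2) ≥ log n`, so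
`(l - 2) ^ l ≥ n` for all `l ≥ L`, and `r - 1` is composed of primes below `L`. The number of such
integers up to `n` is at most `(1 + log_2 n) ^ π(L)` (exponent vectors with entries `≤ log_2 n`), and
`π(L) ≤ C L / log L` (Chebyshev, Mathlib), so it is `exp (O(log n / log log n)) = n^{o(1)}`. -/
def SMOE : Prop := ∀ ε : ℝ, 0 < ε → ∃ n₀ : ℕ, ∀ n : ℕ, n₀ ≤ n →
  (({r : ℕ | r ≤ n ∧ r.Prime ∧ ∀ l : ℕ, l.Prime → l ∣ r - 1 → (l - 2) ^ l < n}.ncard : ℕ)
    : ℝ) + 10 * Real.log n + 100 ≤ (n : ℝ) ^ ε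

/-- (MAIN2) The main theorem, stronger form. -/
def MAIN2 : Prop := ∀ ε : ℝ, 0 < ε → ∃ n₀ : ℕ, ∀ n : ℕ, n₀ ≤ n → ∀ (G : Type u) [Group G] [Finite G],
  muSet G = muSet (alternatingGroup (Fin n)) →
  Nonempty (G ≃* alternatingGroup (Fin n)) ∨
    ((({r : ℕ | r.Prime ∧ n < 2 * r ∧ r ≤ n ∧ ¬ ExoticFactor G n r}.ncard : ℕ) : ℝ) ≤
      (n : ℝ) ^ ε ∧
    ∃ r : ℕ, r.Prime ∧ n < 2 * r ∧ r ≤ n ∧ ExoticFactor G n r)

end Pool.Agent.Helper10.RS
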