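import Pool.Agent.Helper10.RS.MAIN
import Pool.Agent.Helper10.RS.Goals2

open Finset

namespace Pool.Agent.Helper10.RS

universe u v

/-- `ExoticFactor` without the condition on `PSL_2(r)`. -/
def SemiFactor (G : Type u) [Group G] (n r : ℕ) : Prop :=
  ∃ (X Y : Subgroup G) (_ : X.Normal) (_ : Y.Normal), Y ≤ X ∧
    IsSimpleGroup (↥X ⧸ Y.subgroupOf X) ∧
    (∃ a b : ↥X ⧸ Y.subgroupOf X, a * b ≠ b * a) ∧
    (∀ m : ℕ, IsEmpty ((↥X ⧸ Y.subgroupOf X) ≃* alternatingGroup (Fin m))) ∧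
    ∃ x : ↥X ⧸ Y.subgroupOf X, orderOf x = r ∧
      ∀ l a : ℕ, l.Prime → n ≤ (l - 2) ^ l → l ^ a ∣ r - 1 →
        ∃ (g : ↥X ⧸ Y.subgroupOf X) (s : ℕ), g * x * g⁻¹ = x ^ s ∧ orderOf (s : ZMod r) = l ^ a

/-- all inputs -/
structure Inputs2 : Prop extends Inputs.{u} where
  quo0 : QUO.{0}
  frat2 : FRAT2.{u}
  pslc : PSLC
  autp : AUTP.{u}
  prodt : PRODT.{u}
  smoe : SMOE

theorem key2 (H : Inputs2.{u}) : ∃ n₁ : ℕ, ∀ n : ℕ, n₁ ≤ n → ∀ (G : Type u) [Group G] [Finite G],
    2 * Nat.card G = n.factorial →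
    (∀ p : ℕ, p.Prime → reg G p = reg (alternatingGroup (Fin n)) p) →
    ¬ Nonempty (G ≃* alternatingGroup (Fin n)) →
    ∀ r p : ℕ, r.Prime → p.Prime → n < 2 * p → p + 3 ≤ r → r + 2 ≤ n →
      (n - r) + Nat.log 2 n < p - 1 → (∃ l : ℕ, l.Prime ∧ l ∣ r - 1 ∧ n ≤ (l - 2) ^ l) →
      SemiFactor G n r := by
  obtain ⟨hS, hA2, hAl⟩ := H.toInputs.cnt H.toInputs.cntw
  have hTOP := H.topf H.quo H.cen H.auta (fun G _ _ K R _ r => H.cop H.copl G K R r)
    (fun n => ⟨hS n 2 Nat.prime_two, hA2 n⟩)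
  obtain ⟨n₁, hN⟩ := p_ntc H.frob ⟨hA2, hAl⟩ H.blk
  refine ⟨n₁ + 100, ?_⟩
  intro n hn G _ _ hcard hreg hiso r p hr hp hnp hpr hrn hlog hex
  have hr7 : 7 ≤ r := by omega
  have hrG : r ∣ Nat.card G := by
    have h1 : r ∣ 2 * Nat.card G := by
      rw [hcard]; exact (hr.dvd_factorial).2 (by omega)
    rcases hr.dvd_mul.1 h1 with h2 | h2
    · have := Nat.le_of_dvd (by norm_num) h2
      omega
    · exact h2
  have hr2 : ¬ r ^ 2 ∣ Nat.card G := by
    intro h
    apply not_sq_dvd_factorial hr (n := n) (by omega) (by omega)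
    rw [← hcard]
    exact h.mul_left 2
  have hcardQ : (Nat.card G : ℚ) = n.factorial / 2 := by
    have : ((2 * Nat.card G : ℕ) : ℚ) = n.factorial := by exact_mod_cast hcard
    push_cast at this
    linarith
  have hfpos : (0 : ℚ) < n.factorial := by exact_mod_cast n.factorial_pos
  -- the proportion of `r`-regular elements
  have hregr : reg G r * r = (r - 1) * Nat.card G := by
    have h1 := hAl n r (by omega) hr (by omega)
    have hq : n / r = 1 := by
      rw [Nat.div_eq_iff hr.pos]; constructor <;> omega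
    have hm : n % r = n - r := by
      have := Nat.div_add_mod n r
      rw [hq] at this; omega
    rw [bb_zero (by omega : 2 ≤ n % r)] at h1
    have e1 : aa r n = 1 - 1 / (r : ℚ) := by
      unfold aa; rw [hq]; simp
    rw [e1, ← hreg r hr] at h1
    have hr0 : (7 : ℚ) ≤ r := by exact_mod_cast hr7
    have h2 : (reg G r : ℚ) * r = (r - 1) * Nat.card G := by
      rw [h1, hcardQ]; field_simp; ring
    have h3 : ((reg G r * r : ℕ) : ℚ) = (((r - 1) * Nat.card G : ℕ) : ℚ) := by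
      rw [Nat.cast_mul, Nat.cast_mul, Nat.cast_sub (by omega)]
      push_cast
      exact h2
    exact_mod_cast h3
  obtain ⟨X, Y, hX, hY, hYX, hrY, hsimple, hrXY⟩ := H.simp G r hr hrG hr2
  have hconj := H.auto G r hr hr2 hregr
  have hrX : r ∣ Nat.card X := by
    have : Nat.card (↥X ⧸ Y.subgroupOf X) ∣ Nat.card X :=
      Subgroup.card_quotient_dvd_card _
    exact hrXY.trans this
  -- no normal subgroup of index `l`
  have hnoidx : ∀ l : ℕ, l.Prime → l ∣ r - 1 → n ≤ (l - 2) ^ l →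
      ∀ N : Subgroup G, N.Normal → N.index ≠ l := by
    intro l hl hlr hnl N hNn hidx
    have hl2 : l ≠ 2 := by
      rintro rfl
      norm_num at hnl
      omega
    have hln : l ≤ n := by
      have := Nat.le_of_dvd (by omega) hlr
      omega
    have h1 := (H.quo G N l hl).2.2 hidx
    have h2 := H.aalow n l hl hl2 hln hnl
    have h3 := hAl n l (by omega) hl hl2
    rw [← hreg l hl] at h3
    have h4 : (reg G l : ℚ) * l ≤ Nat.card G := by exact_mod_cast h1
    rw [h3, hcardQ] at h4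
    nlinarith
  obtain ⟨l₀, hl₀, hl₀r, hl₀n⟩ := hex
  have hF0 := H.frat G r l₀ hr hl₀ hr2 hconj (hnoidx l₀ hl₀ hl₀r hl₀n) X Y hYX hrY hrX
  obtain ⟨x, hx⟩ := exists_prime_orderOf_dvd_card' (hp := ⟨hr⟩) r hrXY
  refine ⟨X, Y, hX, hY, hYX, hsimple, hF0.2 hl₀r, ?_, x, hx, ?_⟩
  · -- not alternating
    intro m
    by_contra hm
    rw [not_isEmpty_iff] at hm
    have hcm : 2 * Nat.card (↥X ⧸ Y.subgroupOf X) = m.factorial ∨
        Nat.card (↥X ⧸ Y.subgroupOf X) = 1 := by
      rw [Nat.card_congr hm.some.toEquiv]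
      rcases Nat.lt_or_ge m 2 with h | h
      · right
        have : m = 0 ∨ m = 1 := by omega
        rcases this with rfl | rfl
        · rw [Nat.card_eq_one_iff_unique]
          exact ⟨inferInstance, inferInstance⟩
        · rw [Nat.card_eq_one_iff_unique]
          exact ⟨inferInstance, inferInstance⟩
      · left
        have : Nontrivial (Fin m) := Fin.nontrivial_iff_two_le.2 h
        rw [two_mul_nat_card_alternatingGroup, Nat.card_perm]
        simp
    have hcm' : 2 * Nat.card (↥X ⧸ Y.subgroupOf X) = m.factorial := by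
      rcases hcm with h | h
      · exact h
      · exfalso
        rw [h] at hrXY
        exact hr.one_lt.ne' (Nat.dvd_one.1 hrXY)
    have hrm : r ≤ m := by
      apply (hr.dvd_factorial).1
      rw [← hcm']
      exact hrXY.mul_left 2
    have hmn : m ≤ n := by
      by_contra hc
      have h1 : n.factorial < m.factorial := by
        apply (Nat.factorial_lt (by omega)).2; omega
      have h2 : Nat.card (↥X ⧸ Y.subgroupOf X) ≤ Nat.card G := by
        refine le_trans ?_ (Subgroup.card_le_card_group X)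
        exact Nat.le_of_dvd Nat.card_pos (Subgroup.card_quotient_dvd_card _)
      omega
    have hval : ∀ q : ℕ, q.Prime → ¬ q ^ (p - 1) ∣ n.factorial / m.factorial := by
      intro q hq hdv
      have h1 := H.val n m q hmn hq
      have h0 : n.factorial / m.factorial ≠ 0 := by
        have := Nat.div_pos (Nat.factorial_le hmn) m.factorial_pos
        omega
      have h2 := (hq.pow_dvd_iff_le_factorization h0).1 hdv
      omega
    obtain ⟨K, hK, -, hKc, hKi, hKr⟩ := hTOP G X Y n m p hYX hm hcard (hreg 2 Nat.prime_two)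
      (by omega) (by omega) hp hnp (by omega) hval
    rcases Nat.lt_or_ge m n with hlt | hge
    · apply hN n m (by omega) hlt (by omega) K hKc
      intro q hq
      rw [← hreg q hq]
      exact hKr q hq
    · have hmn' : m = n := le_antisymm hmn hge
      subst hmn'
      have hK1 : Nat.card K = 1 := by
        have : Nat.card K * m.factorial = 1 * m.factorial := by rw [hKc, one_mul]
        exact Nat.eq_of_mul_eq_mul_right m.factorial_pos this
      have hKb : K = ⊥ := Subgroup.card_eq_one.1 hK1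
      subst hKb
      apply hiso
      exact ⟨(QuotientGroup.quotientBot).symm.trans hKi.some⟩
  · intro l a hl hln hla
    rcases Nat.eq_zero_or_pos a with rfl | ha
    · refine ⟨1, 1, by simp, ?_⟩
      rw [pow_zero, Nat.cast_one, orderOf_one]
    · have hlr : l ∣ r - 1 := (dvd_pow_self l ha.ne').trans hla
      exact H.frat2 G r l hr hl hr2 hconj (hnoidx l hl hlr hln) X Y hYX hrY hrX x hx a hla


theorem aa2_lower (n : ℕ) (hn : 2 ≤ n) : 1 / (n : ℚ) ≤ aa 2 n := by
  have h1 : ∀ N : ℕ, 1 ≤ N → 1 / (2 * (N : ℚ)) ≤ ∏ i ∈ Icc 1 N, (1 - 1 / (((2 : ℕ) : ℚ) * i)) := by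
    intro N hN
    induction N, hN using Nat.le_induction with
    | base => norm_num
    | succ k hk ih =>
      rw [Finset.prod_Icc_succ_top (by omega)]
      have hk0 : (1 : ℚ) ≤ k := by exact_mod_cast hk
      have h2 : (0 : ℚ) ≤ 1 - 1 / (((2 : ℕ) : ℚ) * ((k + 1 : ℕ) : ℚ)) := by
        push_cast
        have : 1 / (2 * ((k : ℚ) + 1)) ≤ 1 := by
          rw [div_le_one (by linarith)]; linarith
        linarith
      refine le_trans ?_ (mul_le_mul_of_nonneg_right ih h2)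
      push_cast
      rw [show (1 : ℚ) / (2 * k) * (1 - 1 / (2 * (k + 1))) = (2 * k + 1) / (2 * k * (2 * (k + 1))) by
        field_simp; ring]
      rw [div_le_div_iff₀ (by linarith) (by positivity)]
      nlinarith
  refine le_trans ?_ (h1 (n / 2) (by omega))
  have h2 : 2 * (n / 2) ≤ n := by omega
  have h3 : 2 * ((n / 2 : ℕ) : ℚ) ≤ n := by exact_mod_cast h2
  have h4 : (1 : ℚ) ≤ ((n / 2 : ℕ) : ℚ) := by
    have : 1 ≤ n / 2 := by omega
    exact_mod_cast this
  apply one_div_le_one_div_of_le (by linarith) h3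

/-- `G` has a simple chief factor isomorphic to `PSL_2(p)` -/
def HasPSL (G : Type u) [Group G] (p : ℕ) : Prop :=
  ∃ (X Y : Subgroup G) (_ : X.Normal) (_ : Y.Normal), Y ≤ X ∧
    IsSimpleGroup (↥X ⧸ Y.subgroupOf X) ∧ Nonempty ((↥X ⧸ Y.subgroupOf X) ≃* PSL2 p)

theorem psl_few (H : Inputs2.{u}) (n : ℕ) (hn : 10 ≤ n) (G : Type u) [Group G] [Finite G]
    (hcard : 2 * Nat.card G = n.factorial)
    (hreg : ∀ p : ℕ, p.Prime → reg G p = reg (alternatingGroup (Fin n)) p)
    (P : Finset ℕ) (hP : ∀ p ∈ P, p.Prime ∧ n < 2 * p ∧ HasPSL G p) :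
    (P.card : ℝ) ≤ 4 * Real.log n := by
  obtain ⟨-, hA2, -⟩ := H.toInputs.cnt H.toInputs.cntw
  have h1 := H.prodt H.quo H.quo0 H.autp H.pslc G P (fun p hp =>
    ⟨(hP p hp).1, by have := (hP p hp).2.1; omega, (hP p hp).2.2⟩)
  have h2 : (reg G 2 : ℚ) = 2 * Nat.card G * aa 2 n := by
    rw [hreg 2 Nat.prime_two, hA2 n]
    have : ((2 * Nat.card G : ℕ) : ℚ) = n.factorial := by exact_mod_cast hcard
    push_cast at this
    rw [this]
  have h3 : (reg G 2 : ℚ) * 4 ^ P.card ≤ 3 ^ P.card * Nat.card G := by exact_mod_cast h1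
  have hc0 : (0 : ℚ) < Nat.card G := by exact_mod_cast Nat.card_pos
  have hn0 : (0 : ℚ) < n := by
    have : 0 < n := by omega
    exact_mod_cast this
  have h4 : (2 : ℚ) / n * 4 ^ P.card ≤ 3 ^ P.card := by
    have h5 := aa2_lower n (by omega)
    rw [h2] at h3
    have h6 : (Nat.card G : ℚ) * (2 * aa 2 n * 4 ^ P.card) ≤ Nat.card G * 3 ^ P.card := by
      linarith
    have h7 := le_of_mul_le_mul_left h6 hc0
    refine le_trans ?_ h7
    apply mul_le_mul_of_nonneg_right _ (by positivity)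
    rw [show (2 : ℚ) / n = 2 * (1 / n) by ring]
    linarith
  have h5 : (4 : ℚ) ^ P.card ≤ n * 3 ^ P.card := by
    rw [div_mul_eq_mul_div, div_le_iff₀ hn0] at h4
    have : (0 : ℚ) < 4 ^ P.card := by positivity
    linarith
  have h6 : (4 : ℝ) ^ P.card ≤ n * 3 ^ P.card := by exact_mod_cast h5
  have hnR : (0 : ℝ) < n := by
    have : 0 < n := by omega
    exact_mod_cast this
  have h7 := Real.log_le_log (by positivity) h6
  rw [Real.log_pow, Real.log_mul hnR.ne' (by positivity), Real.log_pow] at h7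
  have h8 : (1 : ℝ) / 4 ≤ Real.log 4 - Real.log 3 := by
    rw [← Real.log_div (by norm_num) (by norm_num)]
    have h9 := Real.one_sub_inv_le_log_of_pos (x := 4 / 3) (by norm_num)
    norm_num at h9 ⊢
    linarith
  have h10 : (0 : ℝ) ≤ P.card := Nat.cast_nonneg _
  nlinarith

theorem p_main2 (H : Inputs2.{u}) : MAIN2.{u} := by
  intro ε₀ hε₀
  set ε : ℝ := min ε₀ (2 / 3) with hε
  have hεp : 0 < ε := lt_min hε₀ (by norm_num)
  obtain ⟨n₁, hkey⟩ := key2 H
  obtain ⟨n₂, hsmo⟩ := H.smoe ε hεp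
  obtain ⟨n₃, hpct⟩ := H.pct
  refine ⟨n₁ + n₂ + n₃ + 100, ?_⟩
  intro n hn G _ _ hmu
  have hfr : ∀ (G : Type u) [Group G] [Finite G] (p : ℕ), p.Prime →
    (ordCompl[p] (Nat.card G)) ∣ reg G p ∧ ¬ p ∣ reg G p :=
    fun G _ _ p hp => ⟨H.frob G p hp, H.frob2 G p hp⟩
  have hfr0 : ∀ (G : Type) [Group G] [Finite G] (p : ℕ), p.Prime →
    (ordCompl[p] (Nat.card G)) ∣ reg G p ∧ ¬ p ∣ reg G p :=
    fun G _ _ p hp => ⟨H.frob0 G p hp, H.frob20 G p hp⟩
  obtain ⟨hc, hreg⟩ := H.mueq hfr hfr0 G (alternatingGroup (Fin n)) hmu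
  have hcard : 2 * Nat.card G = n.factorial := by
    rw [hc]
    have : Nontrivial (Fin n) := Fin.nontrivial_iff_two_le.2 (by omega)
    rw [two_mul_nat_card_alternatingGroup, Nat.card_perm]
    simp
  by_cases hiso : Nonempty (G ≃* alternatingGroup (Fin n))
  · exact Or.inl hiso
  right
  have hmain := hkey n (by omega) G hcard hreg hiso
  -- the smallest prime above `n / 2`
  obtain ⟨p, hp, hnp, hpn⟩ : ∃ p : ℕ, p.Prime ∧ n / 2 < p ∧ p ≤ 2 * (n / 2) :=
    Nat.exists_prime_lt_and_le_two_mul (n / 2) (by omega)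
  classical
  have hexp : ∃ p : ℕ, p.Prime ∧ n < 2 * p := ⟨p, hp, by omega⟩
  set p₁ := Nat.find hexp with hp₁
  have hp₁' := Nat.find_spec hexp
  rw [← hp₁] at hp₁'
  have hmin : ∀ q : ℕ, q.Prime → n < 2 * q → p₁ ≤ q := fun q hq hq2 => Nat.find_min' hexp ⟨hq, hq2⟩
  set E : Set ℕ := {r : ℕ | r.Prime ∧ n < 2 * r ∧ r ≤ n ∧ ¬ ExoticFactor G n r} with hE
  set S : Set ℕ := {r : ℕ | r ≤ n ∧ r.Prime ∧ ∀ l : ℕ, l.Prime → l ∣ r - 1 → (l - 2) ^ l < n} with hS
  set P : Finset ℕ := {r ∈ Finset.Icc 1 n | r.Prime ∧ n < 2 * r ∧ HasPSL G r} with hPd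
  have hPc : (P.card : ℝ) ≤ 4 * Real.log n := by
    apply psl_few H n (by omega) G hcard hreg P
    intro q hq
    rw [hPd, Finset.mem_filter] at hq
    exact hq.2
  set F : Finset ℕ := (({n - 1, n} ∪ {p₁, p₁ + 1, p₁ + 2}) ∪
    Finset.Icc (n / 2) (n / 2 + Nat.log 2 n + 4)) ∪ P with hF
  have hsub : E ⊆ S ∪ (F : Set ℕ) := by
    rintro r ⟨h1, h2, h3, h4⟩
    by_contra hcon
    rw [Set.mem_union, not_or] at hcon
    obtain ⟨hcS, hcF⟩ := hcon
    apply h4
    rw [hF] at hcF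
    simp only [Finset.coe_union, Set.mem_union, Finset.coe_insert, Finset.coe_singleton,
      Set.mem_insert_iff, Set.mem_singleton_iff, Finset.coe_Icc, Set.mem_Icc, not_or,
      not_and] at hcF
    obtain ⟨⟨⟨⟨b1, b2⟩, b3, b4, b5⟩, b6⟩, b7⟩ := hcF
    have hp₁r := hmin r h1 h2
    have hlow : n / 2 + Nat.log 2 n + 4 < r := by
      by_contra hh
      exact b6 (by omega) (by omega)
    have hsemi : SemiFactor G n r := by
      apply hmain r p₁ h1 hp₁'.1 hp₁'.2 (by omega) (by omega) (by omega)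
      by_contra hno
      apply hcS
      refine ⟨h3, h1, ?_⟩
      intro l hl hlr
      by_contra hh
      exact hno ⟨l, hl, hlr, by omega⟩
    obtain ⟨X, Y, hX, hY, hYX, hs, hna, halt, x, hx⟩ := hsemi
    refine ⟨X, Y, hX, hY, hYX, hs, hna, halt, ?_, x, hx⟩
    by_contra hpsl
    rw [not_isEmpty_iff] at hpsl
    apply b7
    rw [Finset.mem_coe, hPd, Finset.mem_filter, Finset.mem_Icc]
    exact ⟨⟨h1.one_lt.le, h3⟩, h1, h2, X, Y, hX, hY, hYX, hs, hpsl⟩
  have hSfin : S.Finite := (Set.finite_Iic n).subset (fun r hr => hr.1)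
  have hFc : F.card ≤ Nat.log 2 n + 10 + P.card := by
    rw [hF]
    refine (Finset.card_union_le _ _).trans ?_
    apply Nat.add_le_add_right
    refine (Finset.card_union_le _ _).trans ?_
    have c1 : (({n - 1, n} ∪ {p₁, p₁ + 1, p₁ + 2} : Finset ℕ)).card ≤ 5 := by
      refine (Finset.card_union_le _ _).trans ?_
      have := Finset.card_le_two (a := n - 1) (b := n)
      have := Finset.card_le_three (a := p₁) (b := p₁ + 1) (c := p₁ + 2)
      omega
    rw [Nat.card_Icc]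
    omega
  have hEc : E.ncard ≤ S.ncard + (Nat.log 2 n + 10 + P.card) := by
    calc E.ncard ≤ (S ∪ (F : Set ℕ)).ncard :=
          Set.ncard_le_ncard hsub (hSfin.union F.finite_toSet)
      _ ≤ S.ncard + (F : Set ℕ).ncard := Set.ncard_union_le _ _
      _ ≤ _ := by rw [Set.ncard_coe_finset]; omega
  have hlog : (Nat.log 2 n : ℝ) ≤ 2 * Real.log n := by
    have h1 : ((2 : ℕ) ^ Nat.log 2 n : ℕ) ≤ n := Nat.pow_log_le_self 2 (by omega)
    have h2 : (2 : ℝ) ^ (Nat.log 2 n) ≤ n := by exact_mod_cast h1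
    have h3 := Real.log_le_log (by positivity) h2
    rw [Real.log_pow] at h3
    have h4 : (1 : ℝ) / 2 ≤ Real.log 2 := by
      have := Real.log_two_gt_d9
      linarith
    have h5 : (0 : ℝ) ≤ Nat.log 2 n := Nat.cast_nonneg _
    nlinarith
  have hEb : (E.ncard : ℝ) ≤ (n : ℝ) ^ ε := by
    have h1 := hsmo n (by omega)
    have h2 : (E.ncard : ℝ) ≤ S.ncard + (Nat.log 2 n + 10 + P.card) := by exact_mod_cast hEc
    have h3 : (0 : ℝ) ≤ Real.log n := Real.log_natCast_nonneg n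
    linarith
  have hn1 : (1 : ℝ) ≤ n := by
    have : 1 ≤ n := by omega
    exact_mod_cast this
  refine ⟨hEb.trans (Real.rpow_le_rpow_of_exponent_le hn1 (min_le_left _ _)), ?_⟩
  by_contra hno
  push Not at hno
  have h1 := hpct n (by omega)
  have h2 : {r : ℕ | r.Prime ∧ n < 2 * r ∧ r ≤ n} ⊆ E := by
    rintro r ⟨a1, a2, a3⟩
    exact ⟨a1, a2, a3, hno r a1 a2 a3⟩
  have hEfin : E.Finite := (Set.finite_Iic n).subset (fun r hr => hr.2.2.1)
  have h3 := Set.ncard_le_ncard h2 hEfin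
  have h4 : (({r : ℕ | r.Prime ∧ n < 2 * r ∧ r ≤ n}.ncard : ℕ) : ℝ) ≤ (E.ncard : ℝ) := by
    exact_mod_cast h3
  have h5 := Real.rpow_le_rpow_of_exponent_le hn1 (min_le_right ε₀ (2 / 3))
  linarith

end Pool.Agent.Helper10.RS
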