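import Pool.Agent.Helper10.RS.PROJ
import Pool.Agent.Helper10.RS.PCE

/-!
MAIN3 from MAIN2, SMC, PROJ, PCE.
-/

open Finset

namespace Pool.Agent.Helper10.RS

universe u v

/-- automizer elements of coprime orders combine -/
theorem comb {T : Type u} [Group T] (x : T) (r : ℕ) (L : Finset ℕ) (e : ℕ → ℕ)
    (hL : ∀ l ∈ L, l.Prime)
    (h : ∀ l ∈ L, ∃ (g : T) (s : ℕ), g * x * g⁻¹ = x ^ s ∧ orderOf (s : ZMod r) = l ^ e l) :
    ∃ (g : T) (s : ℕ), g * x * g⁻¹ = x ^ s ∧ orderOf (s : ZMod r) = ∏ l ∈ L, l ^ e l := by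
  classical
  induction L using Finset.induction_on with
  | empty => exact ⟨1, 1, by simp, by simp⟩
  | insert l L hl ih =>
    obtain ⟨g₁, s₁, h1, h2⟩ := ih (fun q hq => hL q (mem_insert_of_mem hq))
      (fun q hq => h q (mem_insert_of_mem hq))
    obtain ⟨g₂, s₂, h3, h4⟩ := h l (mem_insert_self _ _)
    refine ⟨g₂ * g₁, s₂ * s₁, ?_, ?_⟩
    · rw [show g₂ * g₁ * x * (g₂ * g₁)⁻¹ = g₂ * (g₁ * x * g₁⁻¹) * g₂⁻¹ by group, h1, ← conj_pow, h3,
        ← pow_mul]
    · rw [prod_insert hl, Nat.cast_mul]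
      rw [(Commute.all _ _).orderOf_mul_eq_mul_orderOf_of_coprime, h2, h4]
      rw [h2, h4]
      refine Nat.Coprime.prod_right fun q hq => ?_
      apply Nat.Coprime.pow
      rw [Nat.coprime_primes (hL l (mem_insert_self _ _)) (hL q (mem_insert_of_mem hq))]
      rintro rfl
      exact hl hq

/-- the part of `m` composed of primes `l` with `n ≤ (l - 2) ^ l` -/
def big (n m : ℕ) : ℕ := ∏ l ∈ m.primeFactors with n ≤ (l - 2) ^ l, l ^ m.factorization l

/-- the part of `m` composed of primes `l` with `(l - 2) ^ l < n` -/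
def small (n m : ℕ) : ℕ := ∏ l ∈ m.primeFactors with ¬ n ≤ (l - 2) ^ l, l ^ m.factorization l

theorem big_mul_small {n m : ℕ} (hm : m ≠ 0) : big n m * small n m = m := by
  unfold big small
  rw [prod_filter_mul_prod_filter_not]
  exact Nat.prod_factorization_pow_eq_self hm

theorem small_prime {n m l : ℕ} (hl : l.Prime) (h : l ∣ small n m) : (l - 2) ^ l < n := by
  unfold small at h
  obtain ⟨q, hq, h1⟩ := (hl.prime.dvd_finsetProd_iff _).1 h
  rw [mem_filter] at hq
  have h2 := hl.dvd_of_dvd_pow h1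
  rw [Nat.prime_dvd_prime_iff_eq hl (Nat.prime_of_mem_primeFactors hq.1)] at h2
  subst h2
  exact not_le.1 hq.2

theorem Exotic.of_factor {G : Type u} [Group G] {n r d : ℕ} (hr : r.Prime)
    (hd : d < big n (r - 1)) (h : ExoticFactor G n r) : Exotic.{u, v} G r d := by
  obtain ⟨X, Y, hX, hY, hYX, hs, hab, halt, hpsl, x, hx, hc⟩ := h
  have h1 := comb x r ((r - 1).primeFactors.filter fun l => n ≤ (l - 2) ^ l)
    (fun l => (r - 1).factorization l)
    (fun l hl => Nat.prime_of_mem_primeFactors (mem_filter.1 hl).1)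
    (fun l hl => hc l _ (Nat.prime_of_mem_primeFactors (mem_filter.1 hl).1) (mem_filter.1 hl).2
      (Nat.ordProj_dvd _ _))
  obtain ⟨g, s, h2, h3⟩ := h1
  refine ⟨X, Y, hX, hY, hYX, hs, hab, halt, hpsl, ⟨x, g, s, hx, h2, ?_⟩, ?_⟩
  · rw [h3]; exact hd
  · intro k F _ hk hF f
    by_contra hf
    have hinj : Function.Injective f := by
      rw [← MonoidHom.ker_eq_bot_iff]
      rcases hs.eq_bot_or_eq_top_of_normal f.ker inferInstance with h5 | h5
      · exact h5
      · exfalso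
        apply hf
        exact MonoidHom.ker_eq_top_iff.1 h5
    have hfx : f x ≠ 1 := by
      intro h5
      have h6 : x = 1 := hinj (h5.trans (map_one f).symm)
      rw [h6, orderOf_one] at hx
      exact hr.one_lt.ne hx
    have h7 := p_proj _ F k r s x g hr hx h2 hF f hfx
    rw [h3] at h7
    unfold big at hd
    omega

theorem Exotic.mono {G : Type u} [Group G] {r d d' : ℕ} (hd : d' ≤ d) (h : Exotic.{u, v} G r d) :
    Exotic.{u, v} G r d' := by
  obtain ⟨X, Y, hX, hY, hYX, hs, hab, halt, hpsl, ⟨x, g, s, hx, h2, h3⟩, h4⟩ := h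
  exact ⟨X, Y, hX, hY, hYX, hs, hab, halt, hpsl, ⟨x, g, s, hx, h2, lt_of_le_of_lt hd h3⟩,
    fun k F _ hk hF f => h4 k F (hk.trans hd) hF f⟩

theorem count_big (n d : ℕ) :
    {r : ℕ | r.Prime ∧ n < 2 * r ∧ r ≤ n ∧ big n (r - 1) ≤ d}.ncard ≤
      {D : ℕ | 0 < D ∧ D ≤ n ∧ ∀ l : ℕ, l.Prime → l ∣ D → (l - 2) ^ l < n}.ncard * d := by
  classical
  set S : Set ℕ := {D : ℕ | 0 < D ∧ D ≤ n ∧ ∀ l : ℕ, l.Prime → l ∣ D → (l - 2) ^ l < n} with hS
  have hfin : S.Finite := (Set.finite_Iic n).subset fun D hD => hD.2.1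
  have h1 : ({r : ℕ | r.Prime ∧ n < 2 * r ∧ r ≤ n ∧ big n (r - 1) ≤ d}).ncard ≤
      (S ×ˢ (Icc 1 d : Set ℕ)).ncard := by
    refine Set.ncard_le_ncard_of_injOn (fun r => (small n (r - 1), big n (r - 1))) ?_ ?_
      (hfin.prod (Set.toFinite _))
    · rintro r ⟨hr, _, hrn, hb⟩
      have hr1 : r - 1 ≠ 0 := by have := hr.two_le; omega
      have h2 := big_mul_small (n := n) hr1
      have h3 : 0 < small n (r - 1) := by
        rcases Nat.eq_zero_or_pos (small n (r - 1)) with h | h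
        · rw [h, mul_zero] at h2; omega
        · exact h
      have h4 : 0 < big n (r - 1) := by
        rcases Nat.eq_zero_or_pos (big n (r - 1)) with h | h
        · rw [h, zero_mul] at h2; omega
        · exact h
      refine ⟨⟨h3, ?_, fun l hl hd => small_prime hl hd⟩, ?_⟩
      · have : small n (r - 1) ≤ r - 1 := Nat.le_of_dvd (by omega) ⟨_, by rw [mul_comm]; exact h2.symm⟩
        show small n (r - 1) ≤ n
        omega
      · exact Finset.mem_coe.2 (Finset.mem_Icc.2 ⟨h4, hb⟩)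
    · intro r hr r' hr' he
      simp only [Prod.mk.injEq] at he
      have hr1 : r - 1 ≠ 0 := by have := hr.1.two_le; omega
      have hr1' : r' - 1 ≠ 0 := by have := hr'.1.two_le; omega
      have h2 := big_mul_small (n := n) hr1
      have h2' := big_mul_small (n := n) hr1'
      rw [he.1, he.2] at h2
      have := hr.1.two_le
      have := hr'.1.two_le
      omega
  refine h1.trans ?_
  rw [Set.ncard_prod, Set.ncard_coe_finset, Nat.card_Icc, Nat.add_sub_cancel]

theorem p_main3 (hm : MAIN2.{u}) (hs : SMC) : MAIN3.{u, v} := by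
  intro ε₀ hε₀
  set ε := min ε₀ 1 with hε
  have hεpos : 0 < ε := lt_min hε₀ one_pos
  have hε1 : ε ≤ 1 := min_le_right _ _
  have hεε : ε ≤ ε₀ := min_le_left _ _
  obtain ⟨a, ha⟩ := hm (ε / 4) (by positivity)
  obtain ⟨b, hb⟩ := hs (ε / 4) (by positivity)
  obtain ⟨c, hc⟩ := p_pce (ε / 2) (by positivity)
  obtain ⟨e, he⟩ : ∃ e : ℕ, ∀ n : ℕ, e ≤ n → (2 : ℝ) ≤ (n : ℝ) ^ (ε / 4) := by
    have h1 := (tendsto_rpow_atTop (show 0 < ε / 4 by positivity)).comp
      (tendsto_natCast_atTop_atTop (R := ℝ))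
    obtain ⟨e, he⟩ := Filter.eventually_atTop.1 (h1.eventually_ge_atTop 2)
    exact ⟨e, fun n hn => he n hn⟩
  refine ⟨max (max a b) (max (max c e) 1), fun n hn G _ _ hG => ?_⟩
  have hna : a ≤ n := (le_max_left _ _).trans ((le_max_left _ _).trans hn)
  have hnb : b ≤ n := (le_max_right _ _).trans ((le_max_left _ _).trans hn)
  have hnc : c ≤ n := (le_max_left _ _).trans ((le_max_left _ _).trans ((le_max_right _ _).trans hn))
  have hne : e ≤ n := (le_max_right _ _).trans ((le_max_left _ _).trans ((le_max_right _ _).trans hn))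
  have hn1 : 1 ≤ n := (le_max_right _ _).trans ((le_max_right _ _).trans hn)
  have hn1' : (1 : ℝ) ≤ (n : ℝ) := by exact_mod_cast hn1
  have hn0 : (0 : ℝ) < (n : ℝ) := by linarith
  set q := (n : ℝ) ^ (ε / 4) with hq
  have hq2 : 2 ≤ q := he n hne
  rcases ha n hna G hG with h | ⟨h3, -⟩
  · exact Or.inl h
  right
  have key : ∀ d : ℕ, 0 < d →
      (({r : ℕ | r.Prime ∧ n < 2 * r ∧ r ≤ n ∧ ¬ Exotic.{u, v} G r d}.ncard : ℕ) : ℝ) ≤
        2 * d * q := by
    intro d hd
    have hsub : {r : ℕ | r.Prime ∧ n < 2 * r ∧ r ≤ n ∧ ¬ Exotic.{u, v} G r d} ⊆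
        {r : ℕ | r.Prime ∧ n < 2 * r ∧ r ≤ n ∧ ¬ ExoticFactor G n r} ∪
        {r : ℕ | r.Prime ∧ n < 2 * r ∧ r ≤ n ∧ big n (r - 1) ≤ d} := by
      rintro r ⟨h4, h5, h6, h7⟩
      by_cases h8 : ExoticFactor G n r
      · right
        refine ⟨h4, h5, h6, ?_⟩
        by_contra h9
        exact h7 (Exotic.of_factor h4 (not_le.1 h9) h8)
      · exact Or.inl ⟨h4, h5, h6, h8⟩
    have hfin : ({r : ℕ | r.Prime ∧ n < 2 * r ∧ r ≤ n ∧ ¬ ExoticFactor G n r} ∪
        {r : ℕ | r.Prime ∧ n < 2 * r ∧ r ≤ n ∧ big n (r - 1) ≤ d}).Finite := by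
      apply (Set.finite_Iic n).subset
      rintro r (h | h)
      · exact h.2.2.1
      · exact h.2.2.1
    have h4 := (Set.ncard_le_ncard hsub hfin).trans (Set.ncard_union_le _ _)
    have h5 := count_big n d
    have h6 := hb n hnb
    have h7 : (({r : ℕ | r.Prime ∧ n < 2 * r ∧ r ≤ n ∧ ¬ Exotic.{u, v} G r d}.ncard : ℕ) : ℝ) ≤
        q + q * d := by
      calc (({r : ℕ | r.Prime ∧ n < 2 * r ∧ r ≤ n ∧ ¬ Exotic.{u, v} G r d}.ncard : ℕ) : ℝ)
          ≤ (({r : ℕ | r.Prime ∧ n < 2 * r ∧ r ≤ n ∧ ¬ ExoticFactor G n r}.ncard +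
            {r : ℕ | r.Prime ∧ n < 2 * r ∧ r ≤ n ∧ big n (r - 1) ≤ d}.ncard : ℕ) : ℝ) := by
            exact_mod_cast h4
        _ ≤ q + q * d := by
            rw [Nat.cast_add]
            refine add_le_add h3 ?_
            calc (({r : ℕ | r.Prime ∧ n < 2 * r ∧ r ≤ n ∧ big n (r - 1) ≤ d}.ncard : ℕ) : ℝ)
                ≤ (({D : ℕ | 0 < D ∧ D ≤ n ∧ ∀ l : ℕ, l.Prime → l ∣ D →
                    (l - 2) ^ l < n}.ncard * d : ℕ) : ℝ) := by exact_mod_cast h5
              _ ≤ q * d := by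
                  rw [Nat.cast_mul]
                  exact mul_le_mul_of_nonneg_right h6 (Nat.cast_nonneg d)
    have hd1 : (1 : ℝ) ≤ d := by exact_mod_cast hd
    nlinarith
  constructor
  · intro d hd
    refine (key d hd).trans ?_
    have h4 : q * q ≤ (n : ℝ) ^ ε₀ := by
      rw [hq, ← Real.rpow_add hn0]
      apply Real.rpow_le_rpow_of_exponent_le hn1'
      linarith
    have hd1 : (0 : ℝ) ≤ d := Nat.cast_nonneg d
    calc 2 * (d : ℝ) * q = d * (2 * q) := by ring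
      _ ≤ d * (q * q) := by
          apply mul_le_mul_of_nonneg_left _ hd1
          nlinarith
      _ ≤ d * (n : ℝ) ^ ε₀ := mul_le_mul_of_nonneg_left h4 hd1
  · intro d hd
    by_contra hcon
    push Not at hcon
    set d' := max d 1 with hd'
    have hd'1 : 0 < d' := lt_of_lt_of_le one_pos (le_max_right _ _)
    have hd'2 : (d' : ℝ) ≤ (n : ℝ) ^ (1 - ε) := by
      have h4 : (n : ℝ) ^ (1 - ε₀) ≤ (n : ℝ) ^ (1 - ε) :=
        Real.rpow_le_rpow_of_exponent_le hn1' (by linarith)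
      have h5 : (1 : ℝ) ≤ (n : ℝ) ^ (1 - ε) := Real.one_le_rpow hn1' (by linarith)
      rw [hd', Nat.cast_max]
      exact max_le (hd.trans h4) (by simpa using h5)
    have h4 := key d' hd'1
    have h5 : {r : ℕ | r.Prime ∧ n < 2 * r ∧ r ≤ n ∧ ¬ Exotic.{u, v} G r d'} =
        {r : ℕ | r.Prime ∧ n < 2 * r ∧ r ≤ n} := by
      ext r
      constructor
      · rintro ⟨h6, h7, h8, -⟩
        exact ⟨h6, h7, h8⟩
      · rintro ⟨h6, h7, h8⟩
        exact ⟨h6, h7, h8, fun h9 => hcon r h6 h7 h8 (h9.mono (le_max_left _ _))⟩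
    rw [h5] at h4
    have h6 := hc n hnc
    have h7 : 2 * (d' : ℝ) * q ≤ (n : ℝ) ^ (1 - ε / 2) := by
      calc 2 * (d' : ℝ) * q = d' * (2 * q) := by ring
        _ ≤ (n : ℝ) ^ (1 - ε) * (q * q) := by
            apply mul_le_mul hd'2 _ (by positivity) (by positivity)
            nlinarith
        _ = (n : ℝ) ^ (1 - ε / 2) := by
            rw [hq, ← Real.rpow_add hn0, ← Real.rpow_add hn0]
            congr 1
            ring
    linarith

end Pool.Agent.Helper10.RS
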