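import Pool.Agent.Helper10.RS.Goals3
import Pool.Agent.Helper14.RS.SMOE

/-!
SMC: the number of all smooth integers (adapted from `Pool.Agent.Helper14.RS.p_smoe`).
-/

open Finset Real Filter

namespace Pool.Agent.Helper10.RS

open Pool.Agent.Helper14.RS (two_lt card_le)

theorem setD_le (n L : ℕ) (hn : 1 ≤ n) (h1 : Real.log n / 8 ≤ L) (h2 : 3000 ≤ L) :
    {D : ℕ | 0 < D ∧ D ≤ n ∧ ∀ l : ℕ, l.Prime → l ∣ D → (l - 2) ^ l < n}.ncard
      ≤ (Nat.smoothNumbersUpTo n L).card := by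
  have hsub : {D : ℕ | 0 < D ∧ D ≤ n ∧ ∀ l : ℕ, l.Prime → l ∣ D → (l - 2) ^ l < n} ⊆
      ((Nat.smoothNumbersUpTo n L : Finset ℕ) : Set ℕ) := by
    rintro r ⟨_, hr, hl⟩
    simp only [mem_coe, Nat.mem_smoothNumbersUpTo]
    refine ⟨hr, ?_⟩
    rw [Nat.mem_smoothNumbers']
    intro p hp' hd
    by_contra hc
    have hLp : L ≤ p := not_lt.mp hc
    have h3 : Real.log n / 8 ≤ p := h1.trans (by exact_mod_cast hLp)
    have h4 := Pool.Agent.Helper46.RS.smo_key n p hn h3 (h2.trans hLp)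
    have h5 := hl p hp' hd
    omega
  calc _ ≤ (((Nat.smoothNumbersUpTo n L : Finset ℕ) : Set ℕ)).ncard :=
        Set.ncard_le_ncard hsub (Finset.finite_toSet _)
    _ = (Nat.smoothNumbersUpTo n L).card := Set.ncard_coe_finset _

theorem p_smc : SMC := by
  intro ε hε
  set σ : ℝ := ε / 4 with hσd
  have hσ : 0 < σ := by positivity
  have h2 := two_lt hσ
  set C : ℝ := (1 - (2 : ℝ) ^ (-σ))⁻¹ with hC
  have hC0 : 0 < C := inv_pos.2 (by linarith)
  -- Cesaro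
  have t1 : Tendsto (fun m : ℕ => (m : ℝ) ^ (-σ)) atTop (nhds 0) :=
    (tendsto_rpow_neg_atTop hσ).comp tendsto_natCast_atTop_atTop
  have t2 := t1.cesaro.eventually_lt_const (u := ε / (4 * C)) (by positivity)
  have tL : Tendsto (fun n : ℕ => ⌈Real.log n / 8⌉₊) atTop atTop := by
    refine tendsto_nat_ceil_atTop.comp ?_
    exact (Real.tendsto_log_atTop.comp tendsto_natCast_atTop_atTop).atTop_div_const (by norm_num)
  have t3 := tL.eventually t2
  have e1 : ∀ᶠ x : ℝ in atTop, 10 * Real.log x ≤ x ^ (ε / 2) ∧ 12 ≤ x ^ (ε / 2) := by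
    have h1 := (isLittleO_log_rpow_atTop (show (0 : ℝ) < ε / 2 by positivity)).def
      (show (0 : ℝ) < 1 / 10 by norm_num)
    have h2 := (tendsto_rpow_atTop (show (0 : ℝ) < ε / 2 by positivity)).eventually_ge_atTop 12
    filter_upwards [h1, h2, eventually_ge_atTop (1 : ℝ)] with x hx1 hx2 hx3
    have hp : 0 ≤ x ^ (ε / 2) := by positivity
    rw [Real.norm_of_nonneg (Real.log_nonneg hx3), Real.norm_of_nonneg hp] at hx1
    exact ⟨by linarith, hx2⟩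
  have e3 : ∀ᶠ x : ℝ in atTop, 24000 ≤ Real.log x :=
    Real.tendsto_log_atTop.eventually_ge_atTop 24000
  have e4 := tendsto_natCast_atTop_atTop (R := ℝ) |>.eventually
    (e1.and (e3.and (eventually_ge_atTop (1 : ℝ))))
  obtain ⟨n₀, hn₀⟩ := eventually_atTop.mp (e4.and t3)
  refine ⟨n₀, fun n hn => ?_⟩
  obtain ⟨⟨⟨h1, h12⟩, h3, h4⟩, h5⟩ := hn₀ n hn
  set L : ℕ := ⌈Real.log n / 8⌉₊ with hL
  have hL1 : Real.log n / 8 ≤ L := Nat.le_ceil _
  have hL2 : (L : ℝ) ≤ Real.log n / 8 + 1 := (Nat.ceil_lt_add_one (by linarith)).le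
  have hL3 : 3000 ≤ L := by
    have : (3000 : ℝ) ≤ L := by linarith
    exact_mod_cast this
  have hL0 : (0 : ℝ) < L := by exact_mod_cast (by omega : 0 < L)
  have hn1 : 1 ≤ n := by exact_mod_cast h4
  have hn0 : (0 : ℝ) < n := by linarith
  have hc := setD_le n L hn1 hL1 hL3
  have hc' : ((({D : ℕ | 0 < D ∧ D ≤ n ∧ ∀ l : ℕ, l.Prime → l ∣ D → (l - 2) ^ l < n}.ncard
      : ℕ) : ℝ)) ≤ ((Nat.smoothNumbersUpTo n L).card : ℝ) := by exact_mod_cast hc
  have h6 := card_le hσ n L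
  have h7 : C * ∑ m ∈ range L, (m : ℝ) ^ (-σ) ≤ σ * Real.log n := by
    have h8 : ∑ m ∈ range L, (m : ℝ) ^ (-σ) ≤ ε / (4 * C) * L := by
      have h9 : (L : ℝ)⁻¹ * ∑ m ∈ range L, (m : ℝ) ^ (-σ) ≤ ε / (4 * C) := h5.le
      rw [inv_mul_le_iff₀ hL0] at h9
      linarith
    calc C * ∑ m ∈ range L, (m : ℝ) ^ (-σ) ≤ C * (ε / (4 * C) * L) :=
          mul_le_mul_of_nonneg_left h8 hC0.le
      _ = σ * L := by rw [hσd]; field_simp
      _ ≤ σ * Real.log n := mul_le_mul_of_nonneg_left (by linarith) hσ.le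
  have h8 : ((Nat.smoothNumbersUpTo n L).card : ℝ) ≤ (n : ℝ) ^ (ε / 2) := by
    calc ((Nat.smoothNumbersUpTo n L).card : ℝ)
        ≤ (n : ℝ) ^ σ * Real.exp (C * ∑ m ∈ range L, (m : ℝ) ^ (-σ)) := h6
      _ ≤ (n : ℝ) ^ σ * Real.exp (σ * Real.log n) := by gcongr
      _ = (n : ℝ) ^ σ * (n : ℝ) ^ σ := by
          rw [Real.rpow_def_of_pos hn0, mul_comm σ]
      _ = (n : ℝ) ^ (ε / 2) := by
          rw [← Real.rpow_add hn0]
          congr 1
          rw [hσd]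
          ring
  have h9 : (n : ℝ) ^ ε = (n : ℝ) ^ (ε / 2) * (n : ℝ) ^ (ε / 2) := by
    rw [← Real.rpow_add hn0]
    congr 1
    ring
  rw [h9]
  have h10 := hc'.trans h8
  set y : ℝ := (n : ℝ) ^ (ε / 2) with hy
  have h11 : y ≤ y * y := by nlinarith
  exact h10.trans h11

end Pool.Agent.Helper10.RS
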