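import Pool.Agent.Helper3.RS.FROB
import Pool.Agent.Helper59.RS.FROB2
import Pool.Agent.Helper22.RS.MUEQ
import Pool.Agent.Helper73.RS.CNTW
import Pool.Agent.Helper24.RS.QUO
import Pool.Agent.Helper49.RS.CEN
import Pool.Agent.Helper57.RS.SIMP
import Pool.Agent.Helper57.RS.FRAT
import Pool.Agent.Helper81.RS.AUTO
import Pool.Agent.Helper16.RS.COPL
import Pool.Agent.Helper64.RS.COP
import Pool.Agent.Helper7.RS.TOPF
import Pool.Agent.Helper70.RS.BLK
import Pool.Agent.Helper46.RS.SMO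
import Pool.Agent.Helper41.RS.AALOW
import Pool.Agent.Helper74.RS.PCT
import Pool.Agent.Helper92.RS.VAL
import Pool.Agent.Helper12.RS.CNT
import Pool.Agent.Helper86.RS.AUTA
import Pool.Agent.Helper82.RS.FRAT2
import Pool.Agent.Helper50.RS.PSLC
import Pool.Agent.Helper98.RS.AUTP
import Pool.Agent.Helper8.RS.PRODT
import Pool.Agent.Helper14.RS.SMOE
import Pool.Agent.Helper10.RS.MAIN2
import Pool.Agent.Helper10.RS.MAIN3
import Pool.Agent.Helper10.RS.SMC

/-!
Assembly of project RS.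
-/

namespace Pool.Agent.Helper10.RS

universe u v

theorem inputs2 : Inputs2.{u} where
  frob := Pool.Agent.Helper3.RS.p_frob
  frob2 := Pool.Agent.Helper59.RS.p_frob2
  frob0 := Pool.Agent.Helper3.RS.p_frob
  frob20 := Pool.Agent.Helper59.RS.p_frob2
  mueq := Pool.Agent.Helper22.RS.p_mueq
  cntw := Pool.Agent.Helper73.RS.p_cntw
  cnt := Pool.Agent.Helper12.RS.p_cnt
  quo := Pool.Agent.Helper24.RS.p_quo
  cen := Pool.Agent.Helper49.RS.p_cen
  simp := Pool.Agent.Helper57.RS.p_simp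
  auto := Pool.Agent.Helper81.RS.p_auto
  frat := Pool.Agent.Helper57.RS.p_frat
  auta := Pool.Agent.Helper86.RS.p_auta
  copl := Pool.Agent.Helper16.RS.p_copl
  cop := Pool.Agent.Helper64.RS.p_cop
  topf := Pool.Agent.Helper7.RS.p_topf
  blk := Pool.Agent.Helper70.RS.p_blk
  smo := Pool.Agent.Helper46.RS.p_smo
  aalow := Pool.Agent.Helper41.RS.p_aalow
  pct := Pool.Agent.Helper74.RS.p_pct
  val := Pool.Agent.Helper92.RS.p_val
  quo0 := Pool.Agent.Helper24.RS.p_quo
  frat2 := Pool.Agent.Helper82.RS.p_frat2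
  pslc := Pool.Agent.Helper50.RS.p_pslc
  autp := Pool.Agent.Helper98.RS.p_autp
  prodt := Pool.Agent.Helper8.RS.p_prodt
  smoe := Pool.Agent.Helper14.RS.p_smoe

theorem main3 : MAIN3.{u, v} :=
  p_main3 (p_main2 inputs2) p_smc

end Pool.Agent.Helper10.RS
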