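import Pool.Agent.Helper10.RS.Defs

/-!
Goals of project RS (MP_82322d_al).

MAIN THEOREM.  There is `n₀` such that for all `n ≥ n₀` and every finite group `G` with
`muSet G = muSet A_n`: either `G ≅ A_n`, or `NonAltFactor G n r` holds for all but at most `n^(2/3)` of
the primes `r` in `(n/2, n]` (and for at least one of them).

`reg G p` is the number of `p`-regular elements.  Each goal is a `Prop`; prove it as a theorem
`theorem p_xxx : XXX` (universe polymorphic where a universe occurs) in a file of your own which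
imports this one.  Never import the file of an unproved goal: take other goals as hypotheses.
-/

open Finset

namespace Pool.Agent.Helper10.RS

universe u v

/-- The number of elements of `G` whose order is not divisible by `p`. -/
noncomputable def reg (G : Type u) [Group G] (p : ℕ) : ℕ := Nat.card {g : G // ¬ p ∣ orderOf g}

/-- `a_n(l) = prod_{i <= n / l} (1 - 1 / (l i))`. -/
def aa (l n : ℕ) : ℚ := ∏ i ∈ Icc 1 (n / l), (1 - 1 / ((l : ℚ) * i))

/-- `b_n(l) = binom(-1/l, n / l)` if `n mod l` is `0` or `1`, and `0` otherwise. -/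
def bb (l n : ℕ) : ℚ :=
  if n % l ≤ 1 then ∏ i ∈ Icc 1 (n / l), (-(1 + (l : ℚ) * (i - 1)) / ((l : ℚ) * i)) else 0

/-! ### Counting in finite groups -/

/-- (FROB) Frobenius: the `p'`-part of `|G|` divides the number of `p`-regular elements.

Proof. Strong induction on `|G|`. Every `g` is uniquely `x y` with `x` a `p`-element, `y` `p`-regular,
`x y = y x` (both powers of `g`), so `|G| = ∑_{x a p-element} reg (C_G(x)) p`. For `x` central the
summand is `reg G p`; the set of non-central `p`-elements is a union of conjugacy classes, the class of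
`x` contributes `|G : C_G(x)| * reg (C_G(x)) p`, and by induction `|C_G(x)|_{p'}` divides
`reg (C_G(x)) p`, so `|G|_{p'}` divides the contribution. Hence `|G|_{p'}` divides
`reg G p * (number of central p-elements)`; that number is a power of `p` (the central `p`-elements
form a `p`-subgroup), so it is prime to `|G|_{p'}`. -/
def FROB : Prop := ∀ (G : Type u) [Group G] [Finite G] (p : ℕ), p.Prime →
  (ordCompl[p] (Nat.card G)) ∣ reg G p

/-- (FROB2) The number of `p`-regular elements is prime to `p`.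

Proof. A Sylow `p`-subgroup `P` acts on the set of `p`-regular elements by conjugation; the number is
congruent mod `p` to the number of `p`-regular elements of `C = C_G(P)`
(`IsPGroup.card_modEq_card_fixedPoints`). `Z = P ∩ C` is a central subgroup of `C` and `|C : Z|` is
prime to `p` (if `x ∈ C` is a `p`-element, `P ⟨x⟩` is a `p`-group, so `x ∈ P`). So every coset `c Z` in
`C` contains exactly one `p`-regular element, and `reg C p = |C : Z|`. -/
def FROB2 : Prop := ∀ (G : Type u) [Group G] [Finite G] (p : ℕ), p.Prime → ¬ p ∣ reg G p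

/-- (MUEQ) `mu(G) = mu(H)` gives equal orders and equal numbers of `p`-regular elements.

Proof from FROB and FROB2. Let `r ∣ |G|` be a prime, `R = ordProj[r] |G|`. `reg G r = t * |G|_{r'}`
with `t` prime to `r`, so `mu G r = (R - t) / R` has denominator `R` (`Rat.den`), a positive power of
`r`. So from `mu G r = mu H s` (`s ∣ |H|`) we get `r = s` and equal `r`-parts of the orders. Hence the
orders are equal and `mu G r = mu H r` for all primes `r ∣ |G|`, so `reg G r = reg H r`; for the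
primes not dividing `|G|` all elements are regular. -/
def MUEQ : Prop := (∀ (G : Type u) [Group G] [Finite G] (p : ℕ), p.Prime →
    (ordCompl[p] (Nat.card G)) ∣ reg G p ∧ ¬ p ∣ reg G p) →
  (∀ (G : Type v) [Group G] [Finite G] (p : ℕ), p.Prime →
    (ordCompl[p] (Nat.card G)) ∣ reg G p ∧ ¬ p ∣ reg G p) →
  ∀ (G : Type u) (H : Type v) [Group G] [Group H] [Finite G] [Finite H],
  muSet G = muSet H → Nat.card G = Nat.card H ∧ ∀ p : ℕ, p.Prime → reg G p = reg H p

/-- (CNTW) Cycle index recursion. For a weight `w` on `ℕ`, let `W n` be the sum over the permutations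
`σ` of `Fin n` of the product of `w k` over all cycle lengths `k` (fixed points included:
`σ.partition.parts`), divided by `n!`. Then `n W n = ∑_{k=1}^{n} w k W (n - k)`.

Proof. By the count of permutations with given cycle type (`Equiv.Perm.card_of_cycleType`),
`W n = ∑_{λ ⊢ n} z(λ)`, `z(λ) = ∏_k w(k)^{m_k} / (k^{m_k} m_k!)`, `m_k` the multiplicity of `k` in
`λ`. As `n = ∑_k k m_k(λ)`, `n W n = ∑_k ∑_λ k m_k(λ) z(λ)`, and for `m_k(λ) ≥ 1` one has
`k m_k(λ) z(λ) = w(k) z(λ - {k})`; `λ ↦ λ - {k}` is a bijection onto the partitions of `n - k`.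
(Or directly: choose the cycle of the point `0`.) -/
def CNTW : Prop := ∀ (w : ℕ → ℚ) (W : ℕ → ℚ),
  (∀ n : ℕ, W n = (∑ σ : Equiv.Perm (Fin n), (σ.partition.parts.map w).prod) / n.factorial) →
  ∀ n : ℕ, (n : ℚ) * W n = ∑ k ∈ Icc 1 n, w k * W (n - k)

/-- (CNT) The numbers of `l`-regular permutations and even permutations.

Proof from CNTW. `l ∤ orderOf σ` iff no cycle length is divisible by `l`. `w k = [l ∤ k]` gives
`N(n) / n!`, `w k = [l ∤ k] (-1)^(k-1)` gives `M(n) / n!`, `M(n) = ∑_{σ l-regular} sign σ`, and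
`reg A_n l = (N + M) / 2`. For `l = 2` all elements of odd order are even, `reg A_n 2 = N(n)`.
Check that `aa l` and `bb l` (`l` odd) satisfy the recursions (both are `1` at `0`): write
`n = q l + s`, `0 ≤ s < l`.
`aa`: `A_q` := the value of `aa` on the block of `q`. Claim `(l-1) ∑_{i<q} A_i = q l A_q` (induction:
`A_{q+1} = A_q (1 - 1/(l(q+1)))`). `∑_{j<n, l ∤ n-j} aa_j = l ∑_{i<q} A_i + s A_q - ∑_{i<q} A_i`
`= q l A_q + s A_q = n A_q`.
`bb`: `B_q` := binom(-1/l, q), `l(q+1) B_{q+1} = -(1+lq) B_q`; `bb_j` is `B_i` for `j = i l`,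
`i l + 1`, else `0`. In `∑_{j<n, l ∤ n-j} (-1)^{n-j-1} bb_j`: for `s ≥ 2` the terms `j = il`, `il+1`
cancel; for `s = 0` only `j = il+1`, `i < q` remain, sum `D_q = ∑_{i<q} (-1)^{q-i} B_i`; for `s = 1`
only `j = il`, `i ≤ q` remain, sum `D_q + B_q`. And `D_q = q l B_q` by induction
(`D_{q+1} = -D_q - B_q`). -/
def CNT : Prop := CNTW → (∀ n l : ℕ, l.Prime →
    (reg (Equiv.Perm (Fin n)) l : ℚ) = n.factorial * aa l n) ∧
  (∀ n : ℕ, (reg (alternatingGroup (Fin n)) 2 : ℚ) = n.factorial * aa 2 n) ∧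
  (∀ n l : ℕ, 2 ≤ n → l.Prime → l ≠ 2 →
    (reg (alternatingGroup (Fin n)) l : ℚ) = n.factorial / 2 * (aa l n + bb l n))

/-- (QUO) Quotients: the proportion of `p`-regular elements does not drop, is unchanged for `p'`-kernels,
and is at most `1 / p` if there is a normal subgroup of index `p`.

Proof. The image of a `p`-regular element is `p`-regular, so `reg G p ≤ |N| reg (G/N) p`; if `N` is a
`p'`-group all preimages of `p`-regular elements are `p`-regular. If `|G/N| = p`, the `p`-regular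
elements lie in `N`. -/
def QUO : Prop := ∀ (G : Type u) [Group G] [Finite G] (N : Subgroup G) [N.Normal] (p : ℕ), p.Prime →
  reg G p * Nat.card (G ⧸ N) ≤ reg (G ⧸ N) p * Nat.card G ∧
  (¬ p ∣ Nat.card N → reg G p * Nat.card (G ⧸ N) = reg (G ⧸ N) p * Nat.card G) ∧
  (Nat.card (G ⧸ N) = p → reg G p * p ≤ Nat.card G)

/-- (CEN) If `G = K C_G(K)` then `reg G p = reg K p * reg (G / K) p`.

Proof. Lemma: if `Z` is a central subgroup of `H`, then `reg H p * |Z| = reg (H/Z) p * |Z|_{p'} * ...`;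
precisely `reg H p = reg (H/Z) p * |Z|_{p'}` (each `p`-regular element of `H/Z` has exactly
`|Z|_{p'}` `p`-regular lifts: pick a `p`-regular lift `h` (the `p'`-part of any lift, raised to a
suitable power), the lifts are `h z`, and `h z` is `p`-regular iff `z` is). Let `C = C_G(K)`,
`Z = K ∩ C`. `K × C → G` is onto with kernel `≅ Z`, central, so
`reg K p * reg C p = reg (K × C) p = reg G p * |Z|_{p'}`; and `C / Z ≅ G / K` gives
`reg C p = reg (G/K) p * |Z|_{p'}`. -/
def CEN : Prop := ∀ (G : Type u) [Group G] [Finite G] (K : Subgroup G) [K.Normal] (p : ℕ), p.Prime →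
  K ⊔ Subgroup.centralizer (K : Set G) = ⊤ → reg G p = reg K p * reg (G ⧸ K) p

/-- (SIMP) If the prime `r` divides `|G|` exactly once there is a simple chief factor `X / Y` of order
divisible by `r` with `r ∤ |Y|`.

Proof. `Y` := a normal subgroup of `G` maximal subject to `r ∤ |Y|`; `X` := a normal subgroup of `G`
minimal subject to `Y < X`. Then `r ∣ |X|`. Suppose `X / Y` is not simple: there is `L`,
`Y < L < X`, `L` normal in `X`, we may take `L` maximal, so `X / L` is simple. If `r ∤ |X / L|`, the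
intersection `D` of all `g L g⁻¹` is normal in `G`, contains `Y`, is not `X`, so `D = Y` by minimality,
and `X / Y` embeds in the product of the `X / g L g⁻¹`: `r ∤ |X / Y|`, contradiction. So
`r ∣ |X / L|` and `r ∤ |L|` (`r² ∤ |G|`). The join `M` of all normal subgroups of `X` of order prime to
`r` has order prime to `r`, is normal in `G` (it is invariant under the automorphisms of `X`), contains
`L > Y`: contradiction to the choice of `Y`. -/
def SIMP : Prop := ∀ (G : Type u) [Group G] [Finite G] (r : ℕ), r.Prime → r ∣ Nat.card G →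
  ¬ r ^ 2 ∣ Nat.card G → ∃ (X Y : Subgroup G) (_ : X.Normal) (_ : Y.Normal), Y ≤ X ∧
    ¬ r ∣ Nat.card Y ∧ IsSimpleGroup (↥X ⧸ Y.subgroupOf X) ∧
    r ∣ Nat.card (↥X ⧸ Y.subgroupOf X)

/-- (AUTO) If `r² ∤ |G|` and the proportion of `r`-regular elements is `1 - 1/r`, then all non-identity
elements of a subgroup `R` of order `r` are conjugate in `G`.

Proof. `R` is a Sylow subgroup. Let `N = N_G(R)`, `C = C_G(R)`. An element `g` with `r ∣ orderOf g` is
uniquely `x y` with `x` of order `r`, `y` `r`-regular in `C_G(x)`; `⟨x⟩` is one of the `|G : N|`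
conjugates of `R`; `R` is a central Sylow subgroup of `C`, so `reg C r = |C| / r`. So the number of
`r`-singular elements is `|G : N| (r - 1) |C| / r`. By hypothesis it is `|G| / r`. So
`|N| = (r - 1) |C|`, `N / C` embeds in `Aut R` of order `r - 1`, hence is all of it. -/
def AUTO : Prop := ∀ (G : Type u) [Group G] [Finite G] (r : ℕ), r.Prime → ¬ r ^ 2 ∣ Nat.card G →
  reg G r * r = (r - 1) * Nat.card G → ∀ R : Subgroup G, Nat.card R = r →
  ∀ x ∈ R, ∀ y ∈ R, x ≠ 1 → y ≠ 1 → ∃ g : G, g * x * g⁻¹ = y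

/-- (FRAT) The chief factor `X / Y` containing such an `R` has order divisible by the `l`-part of `r-1`
if `G` has no normal subgroup of index `l`; it is not abelian if `l ∣ r - 1`.

Proof. Let `R ≤ X` have order `r` (`r ∣ |X|`), `N = N_G(R)`, `φ : N → Aut R` the action, onto (`Aut R`
cyclic of order `r - 1`) by hypothesis. `G = X N` (Frattini, `R` Sylow in `X` because `r² ∤ |G|`).
Let `A = φ(N ∩ X)`. Suppose `l ^ a ∣ r - 1`, `l ^ a ∤ |A|`. Then `l ∣ (r-1) / |A|`, there is a subgroup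
`B ≥ A` of the cyclic group `Aut R` of index `l`, `N₀ = φ⁻¹(B)` is normal in `N` of index `l` and
contains `N ∩ X`, so `X N₀` is normal in `G = X N` of index `l`, contradiction. So `l ^ a ∣ |A|`.
`N ∩ Y` centralizes `R` (`[N ∩ Y, R] ≤ R ∩ Y = 1`), so `|A|` divides `|(N ∩ X) / (N ∩ Y)|`, which
divides `|X / Y|`. If `X / Y` is abelian, `[N ∩ X, R] ≤ R ∩ Y = 1`, `A = 1`: take `a = 1`. -/
def FRAT : Prop := ∀ (G : Type u) [Group G] [Finite G] (r l : ℕ), r.Prime → l.Prime →
  ¬ r ^ 2 ∣ Nat.card G →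
  (∀ R : Subgroup G, Nat.card R = r →
    ∀ x ∈ R, ∀ y ∈ R, x ≠ 1 → y ≠ 1 → ∃ g : G, g * x * g⁻¹ = y) →
  (∀ N : Subgroup G, N.Normal → N.index ≠ l) →
  ∀ (X Y : Subgroup G) [X.Normal] [Y.Normal], Y ≤ X → ¬ r ∣ Nat.card Y → r ∣ Nat.card X →
    (∀ a : ℕ, l ^ a ∣ r - 1 → l ^ a ∣ Nat.card (↥X ⧸ Y.subgroupOf X)) ∧
    (l ∣ r - 1 → ∃ a b : ↥X ⧸ Y.subgroupOf X, a * b ≠ b * a)

/-- (AUTA) A group with a self-centralizing normal subgroup isomorphic to `A_m`, `m ≥ 7`, is `A_m` or
`S_m`.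

Proof. (1) An automorphism `φ` of `A_m`, `m ≥ 7`, maps 3-cycles to 3-cycles: an element of order `3` is
a product of `j` disjoint 3-cycles, the order of its centralizer in `S_m` is `3^j j! (m - 3j)!`
(`Equiv.Perm.nat_card_centralizer`), and for `m ≥ 7`, `2 ≤ j`, `3 j ≤ m` this is smaller than
`3 (m-3)!`; for `j` with `m - 3j ≤ 1` compare in `A_m` (number of conjugates of a 3-cycle in `A_m` is
`m(m-1)(m-2)/3`, of the others at least half the `S_m`-class). Any other proof of (1) is fine, e.g.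
(1') count solutions. (2) Let `H_i` be the stabilizer of the point `i` in `A_m`; it is generated by the
3-cycles fixing `i`. So `φ(H_i)` is generated by 3-cycles and has index `m`. If it is transitive, it is
primitive (a 3-cycle moving a block `B` off itself moves all its points and permutes three blocks, so
`|B| = 1`), so it is `A_m` by Jordan (`alternatingGroup_le_of_isPreprimitive_of_isThreeCycle_mem`),
contradiction. If it has an orbit of size `s`, `1 ≤ s < m`, it lies in the stabilizer of an `s`-set, of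
index `binom(m, s)` in `A_m`; index `m` forces `s = 1` or `m - 1`: `φ(H_i)` is some `H_j`. (3) So `B`
acts on the `m` subgroups `H_1, ..., H_m` of `A`; an element acting trivially centralizes `A` (for
`a ∈ A`, `b a b⁻¹` permutes the `H_i` in the same way as `a`), so is `1`. `B` embeds in `S_m`, and
contains `A_m`. -/
def AUTA : Prop := ∀ (B : Type u) [Group B] [Finite B] (A : Subgroup B) [A.Normal] (m : ℕ), 7 ≤ m →
  Nonempty (A ≃* alternatingGroup (Fin m)) → Subgroup.centralizer (A : Set B) = ⊥ →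
  A = ⊤ ∨ Nonempty (B ≃* Equiv.Perm (Fin m))

/-- (COPL) Linear part of the coprime action lemma. A group `Y` acts on a finite `q`-group `U` by
automorphisms, `g ∈ Y` has prime order `r ≠ q`, `g` is conjugate in `Y` to all its powers `g ^ i`,
`0 < i < r`, and `q ^ (r - 1) ∤ |U|`. Then `g` acts trivially on `U`.

Proof. Strong induction on `|U|`. Let `Z` be the subgroup of the elements `z` of the centre of `U` with
`z ^ q = 1`; it is non-trivial (if `U` is) and characteristic. By induction `g` acts trivially on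
`U / Z`. It acts trivially on `Z`: `Z` is an `F_q`-vector space of dimension `< r - 1`; let `f` be the
linear map of `g`. Suppose `f ≠ 1`. Over an algebraic closure, `f` is diagonalizable (`f ^ r = 1`,
`r ≠ q`), so it has an eigenvalue `ζ ≠ 1`, `ζ ^ r = 1`. `f ^ i` is conjugate to `f`, so its eigenvalue
`ζ ^ i` is an eigenvalue of `f`: `f` has `r - 1` distinct eigenvalues, contradiction to the dimension.
(With matrices: `charpoly f = charpoly (f ^ i)`.) Finally, if `g` is trivial on `Z` and on `U / Z`: for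
`x ∈ U`, `g • x = x z`, `z ∈ Z` fixed by `g`, so `x = g ^ r • x = x z ^ r`, `z ^ r = 1`, `z = 1`. -/
def COPL : Prop := ∀ (Y : Type u) (U : Type u) [Group Y] [Group U] [Finite Y] [Finite U]
  [MulDistribMulAction Y U] (q r : ℕ) (g : Y), q.Prime → r.Prime → q ≠ r → IsPGroup q U →
  orderOf g = r → (∀ i : ℕ, 0 < i → i < r → ∃ y : Y, y * g * y⁻¹ = g ^ i) →
  ¬ q ^ (r - 1) ∣ Nat.card U → ∀ x : U, g • x = x

/-- (COP) The coprime action lemma.

Proof from COPL. `R = ⟨g⟩`. Let `q` be a prime, `q ∣ |K|` (so `q ≠ r`). `R` acts by conjugation on the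
set of Sylow `q`-subgroups of `K`, whose size divides `|K|`, so is prime to `r`: there is an
`R`-invariant Sylow `q`-subgroup `U` of `K`. Let `N = N_G(R)`. If `U₁`, `U₂` are `R`-invariant Sylow
`q`-subgroups of `K`, the set of `t ∈ K` with `t U₁ t⁻¹ = U₂` is a coset of `N_K(U₁)`, invariant under
conjugation by `R`, of size prime to `r`: so some `t ∈ C_K(R)` conjugates `U₁` to `U₂`. For `n ∈ N`,
`n U n⁻¹` is an `R`-invariant Sylow `q`-subgroup of `K`; so `n = t n'` with `t ∈ C_K(R)`, `n' ∈ Y`,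
`Y := N ∩ N_G(U)`. By hypothesis `g ^ i = n g n⁻¹` for some `n ∈ G` (then `n ∈ N`), so `g ^ i` is
`n' g n'⁻¹` up to conjugation by `t⁻¹ ∈ C(R)`, i.e. equal to it. Apply COPL to the action of `Y` on `U`:
`g` centralizes `U`. So `C_K(g)` contains a Sylow `q`-subgroup of `K` for each prime `q`, and
`C_K(g) = K`. -/
def COP : Prop := COPL.{u} → ∀ (G : Type u) [Group G] [Finite G] (K R : Subgroup G) [K.Normal] (r : ℕ),
  r.Prime → Nat.card R = r → ¬ r ∣ Nat.card K →
  (∀ x ∈ R, ∀ y ∈ R, x ≠ 1 → y ≠ 1 → ∃ g : G, g * x * g⁻¹ = y) →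
  (∀ q : ℕ, q.Prime → ¬ q ^ (r - 1) ∣ Nat.card K) →
  R ≤ Subgroup.centralizer (K : Set G)

/-- (TOPF) The structure of `G` when `A_m` is a chief factor.

Proof (QUO, CNT, CEN, AUTA, COP as hypotheses). `m!/2` divides `|G| = n!/2`, so `m ≤ n`. Let
`K = {g | ∀ x ∈ X, g x g⁻¹ x⁻¹ ∈ Y}`, normal; `K ∩ X = Y` because `A_m` has trivial centre. In
`B = G / K` the image `A` of `X` is isomorphic to `X / Y ≅ A_m`, normal, with trivial centralizer
(if `g x g⁻¹ x⁻¹ ∈ K` for all `x ∈ X`, it lies in `K ∩ X = Y`, so `g ∈ K`). By AUTA `B ≅ A_m` (and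
`A = ⊤`) or `B ≅ S_m`. In the second case QUO with `p = 2` gives
`n! aa 2 n * m! ≤ m! aa 2 m * (n!/2)`, `2 aa 2 n ≤ aa 2 m`; but
`aa 2 n / aa 2 m ≥ ∏_{m/2 < i ≤ m} ... > 1/2` as `n < 2 m` (`n/2 ≤ 2 (m/2)`;
`∏ (1 - 1/(2i)) ≥ 1 - ∑ 1/(2i)` over `M < i ≤ 2M`, `M = m/2`, is `≥ 1 - M/(2(M+1)) > 1/2`).
So `G / K ≅ A_m` and `|K| = n!/m!`, which is prime to `r` (`r ≤ m ≤ n < 2r`). Let `R̄` be the subgroup
of `G / K` generated by an `r`-cycle: its non-identity elements are conjugate in `A_m`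
(`alternatingGroup.isConj_of`, `r + 2 ≤ m`). Let `R` be a Sylow `r`-subgroup of the preimage `P` of
`R̄`, of order `r`, mapping isomorphically onto `R̄`. If `x, y ∈ R` are not `1`, there is `g` with
`g x g⁻¹` mapping to the image of `y`; `⟨g x g⁻¹⟩` and `R` are Sylow in `P`, so
`p g x g⁻¹ p⁻¹ ∈ R` for some `p ∈ P`, with the same image as `y` (`R̄` abelian), so it is `y`. COP:
`R ≤ C_G(K)`. So the image of `C_G(K)` in `G / K ≅ A_m` is a non-trivial normal subgroup, i.e.
everything: `K C_G(K) = G`, and CEN applies. -/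
def TOPF : Prop := QUO.{u} → CEN.{u} → AUTA.{u} →
  (∀ (G : Type u) [Group G] [Finite G] (K R : Subgroup G) [K.Normal] (r : ℕ),
    r.Prime → Nat.card R = r → ¬ r ∣ Nat.card K →
    (∀ x ∈ R, ∀ y ∈ R, x ≠ 1 → y ≠ 1 → ∃ g : G, g * x * g⁻¹ = y) →
    (∀ q : ℕ, q.Prime → ¬ q ^ (r - 1) ∣ Nat.card K) →
    R ≤ Subgroup.centralizer (K : Set G)) →
  (∀ n : ℕ, (reg (Equiv.Perm (Fin n)) 2 : ℚ) = n.factorial * aa 2 n ∧
    (reg (alternatingGroup (Fin n)) 2 : ℚ) = n.factorial * aa 2 n) →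
  ∀ (G : Type u) [Group G] [Finite G] (X Y : Subgroup G) [X.Normal] [Y.Normal]
  (n m r : ℕ), Y ≤ X → Nonempty ((↥X ⧸ Y.subgroupOf X) ≃* alternatingGroup (Fin m)) →
  2 * Nat.card G = n.factorial → reg G 2 = reg (alternatingGroup (Fin n)) 2 →
  7 ≤ m → n < 2 * m → r.Prime → n < 2 * r → r + 3 ≤ m →
  (∀ q : ℕ, q.Prime → ¬ q ^ (r - 1) ∣ n.factorial / m.factorial) →
  ∃ (K : Subgroup G) (_ : K.Normal), m ≤ n ∧ Nat.card K * m.factorial = n.factorial ∧
    Nonempty ((G ⧸ K) ≃* alternatingGroup (Fin m)) ∧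
    ∀ p : ℕ, p.Prime → reg G p = reg K p * reg (alternatingGroup (Fin m)) p

/-! ### Number theory -/

/-- (BLK) Comparison of `∏ i` and `∏ (2 i - 1)` over `g` consecutive integers.

Proof. Suppose `v_q(∏_{i ∈ I} i) ≤ v_q(∏_{i ∈ I} (2 i - 1))` for all odd primes `q`, `I = (N - g, N]`.
Let `q` be an odd prime, `β = log_q (2 g - 1)` (floor). If some `i ∈ I` and some `2 j - 1`, `j ∈ I`,
are both divisible by `q ^ (β + 1)`, so is `2 i - (2 j - 1)`, which is odd, hence not `0`, and at most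
`2 g - 1 < q ^ (β + 1)` in absolute value: impossible. If no `i ∈ I` is divisible by `q ^ (β+1)`:
`v_q(∏ i) = ∑_{b ≤ β} #{i ∈ I : q^b ∣ i} ≤ ∑_{b ≤ β} (g / q^b + 1) = v_q(g!) + β`; if no `2 j - 1` is,
the same bound holds for `v_q(∏ (2 i - 1))`. So `v_q(binom(N, g)) ≤ β` for odd `q`, and
`2 ^ v_2(binom(N, g)) ≤ N` (`Nat.factorization_choose_le_log`), so
`binom(N, g) ≤ N * lcmUpto (2 g - 1)`, `(N/g)^g ≤ binom(N, g)`; with
`log (lcmUpto k) = ψ k ≤ (log 4 + 4) k ≤ 5.4 k`: `g (log (N/g) - 11) ≤ log N`. With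
`ε = exp (-14)`: `3 g ≤ log N`, and then `g (log N - log log N - 11) ≤ log N`, `g ≥ 2`, is false for
large `N`. -/
def BLK : Prop := ∃ (ε : ℝ) (N₀ : ℕ), 0 < ε ∧ ∀ N g : ℕ, N₀ ≤ N → 2 ≤ g → (g : ℝ) ≤ ε * N →
  ∃ q : ℕ, q.Prime ∧ q ≠ 2 ∧
    (∏ i ∈ Ioc (N - g) N, (2 * i - 1)).factorization q < (∏ i ∈ Ioc (N - g) N, i).factorization q

/-- (SMO) Few primes `r ≤ n` are such that every prime `l ∣ r - 1` has `(l - 2) ^ l < n`.

Proof. Let `L = ⌈log n / 8⌉`. For `n` large `(l - 2) ^ l ≥ n` for all `l ≥ L`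
(`L log (L - 2) ≥ log n` as `log (L-2) ≥ 8`). So for such `r`, `r - 1` is `L`-smooth:
`r - 1 ∈ Nat.smoothNumbersUpTo n L`, of size `≤ 2 ^ (L) √n` (`Nat.smoothNumbersUpTo_card_le`). -/
def SMO : Prop := ∃ n₀ : ℕ, ∀ n : ℕ, n₀ ≤ n →
  (({r : ℕ | r ≤ n ∧ r.Prime ∧ ∀ l : ℕ, l.Prime → l ∣ r - 1 → (l - 2) ^ l < n}.ncard : ℕ)
    : ℝ) + 2 * Real.log n + 20 ≤ (n : ℝ) ^ ((2 : ℝ) / 3)

/-- (AALOW) Lower bound for the proportion of `l`-regular elements of `A_n`.

Proof. `q = n / l ≥ 1`. `|bb l n| ≤ aa l n / (l - 1)`: the quotient is at most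
`(1/(l-1)) ∏_{2 ≤ i ≤ q} (l(i-1)+1)/(l i - 1)` with all factors `≤ 1`. And
`(aa l n * l/(l-1))^l = ∏_{2 ≤ i ≤ q} (1 - 1/(l i))^l ≥ ∏ (1 - 1/i) = 1/q` (Bernoulli). If
`l (aa + bb) ≤ 1` then `aa * l (l-2)/(l-1) ≤ 1`, so `1/q ≤ (l-2)^{-l}`, `q ≥ (l-2)^l ≥ n`,
contradiction (`q < n`). -/
def AALOW : Prop := ∀ n l : ℕ, l.Prime → l ≠ 2 → l ≤ n → n ≤ (l - 2) ^ l →
  1 < (l : ℚ) * (aa l n + bb l n)

/-- (NTC) The number theoretic contradiction: no group `K` of order `n! / m!`, `n/2 < m < n`, has the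
proportions of `p`-regular elements required by TOPF.

Proof (FROB, CNT, BLK and the prime number theorem `Pool.Agent.Helper74.SD.exists_prime_near`).
`ρ_p(K) := reg K p / |K| = ρ_p(A_n) / ρ_p(A_m)`, with `ρ_2(A_n) = 2 aa 2 n`,
`ρ_l(A_n) = aa l n + bb l n`. Let `ε₁` be small.
Case 1, `m ≤ (1 - ε₁) n`: there is a prime `l` with `max (m, 2n/3) < 2 l ≤ n - 2`. Then `3 l > n`,
`ρ_l(A_n) = (1 - 1/l)(1 - 1/(2l))` (`n / l = 2`, `n % l ≥ 2`), `ρ_l(A_m) = 1 - 1/l` (`m / l = 1`,
`m % l ≥ 2` as `m > n/2 ≥ l + 1`), so `ρ_l(K) = 1 - 1/(2l)`; `l` divides `n!/m!` exactly once, so by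
FROB `l ρ_l(K)` is an integer, contradiction.
Case 2, `m > (1 - ε₁) n`. `N = n / 2`, `M = m / 2`, `g = N - M`. By FROB for `p = 2`,
`|K|_2 ∏_{M < i ≤ N} (2i-1)/(2i)` is an integer, so `v_q(∏ i) ≤ v_q(∏ (2i - 1))` for all odd `q`; BLK
excludes `g ≥ 2`.
`g = 1`: `N` is prime to `2 N - 1`, so `N = 2^a` is a power of `2`. `(n, m) = (2N, 2N - 1)`:
`|K| = n = 2^b`, `K` is a `2`-group, `ρ_2(K) = 1/n`, but it is `1 - 1/n`. Otherwise choose an odd prime
`l ∤ |K|` with `bb l m ≠ 0`, `bb l n = 0`, `m / l = n / l`; then `ρ_l(K) = 1` and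
`ρ_l(A_m) = aa l n + bb l m ≠ ρ_l(A_n)`: `(n, m) = (2N, 2N-2)`: `l ∣ n - 3`; `(2N+1, 2N-1)`:
`l ∣ n - 2`; `(2N+1, 2N-2)`: `l ∣ n - 4`.
`g = 0`: `n` odd, `m = n - 1`: `l ∣ n - 2` an odd prime, `l ∤ n = |K|`. -/
def NTC : Prop := FROB.{u} → ((∀ n : ℕ, (reg (alternatingGroup (Fin n)) 2 : ℚ) = n.factorial * aa 2 n) ∧
  (∀ n l : ℕ, 2 ≤ n → l.Prime → l ≠ 2 →
    (reg (alternatingGroup (Fin n)) l : ℚ) = n.factorial / 2 * (aa l n + bb l n))) → BLK →
  ∃ n₀ : ℕ, ∀ n m : ℕ, n₀ ≤ n → m < n → n < 2 * m → ∀ (K : Type u) [Group K] [Finite K],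
    Nat.card K * m.factorial = n.factorial →
    (∀ p : ℕ, p.Prime → reg (alternatingGroup (Fin n)) p = reg K p * reg (alternatingGroup (Fin m)) p)
    → False

/-- (PCT) There are more than `n^(2/3)` primes in `(n/2, n]`, for large `n`.

Proof. Prime number theorem (`Pool.Agent.Helper56.theta_div_tendsto`): `θ(n) - θ(n/2) ≥ n/4` for large
`n`, and each prime contributes at most `log n`. -/
def PCT : Prop := ∃ n₀ : ℕ, ∀ n : ℕ, n₀ ≤ n →
  (n : ℝ) ^ ((2 : ℝ) / 3) < (({r : ℕ | r.Prime ∧ n < 2 * r ∧ r ≤ n}.ncard : ℕ) : ℝ)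

/-- (VAL) The power of a prime in `n! / m!`.

Proof. `n!/m! = binom(n, m) (n-m)!`, `Nat.factorization_choose_le_log`, and the exponent of `q` in
`k!` is at most `k`. -/
def VAL : Prop := ∀ n m q : ℕ, m ≤ n → q.Prime →
  (n.factorial / m.factorial).factorization q ≤ (n - m) + Nat.log 2 n

/-- (MAIN) The main theorem. -/
def MAIN : Prop := ∃ n₀ : ℕ, ∀ n : ℕ, n₀ ≤ n → ∀ (G : Type u) [Group G] [Finite G],
  muSet G = muSet (alternatingGroup (Fin n)) →
  Nonempty (G ≃* alternatingGroup (Fin n)) ∨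
    ((({r : ℕ | r.Prime ∧ n < 2 * r ∧ r ≤ n ∧ ¬ NonAltFactor G n r}.ncard : ℕ) : ℝ) ≤
      (n : ℝ) ^ ((2 : ℝ) / 3) ∧
    ∃ r : ℕ, r.Prime ∧ n < 2 * r ∧ r ≤ n ∧ NonAltFactor G n r)

end Pool.Agent.Helper10.RS
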