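import Pool.Agent.Helper10.RS.Goals2

/-!
Goals of project RS, part 3: one automizer condition with a free level `d`, and projective
representations.
-/

open Finset

namespace Pool.Agent.Helper10.RS

universe u v

/-- `G` has a simple chief factor `T = X / Y` (`X`, `Y` normal in `G`) which is not abelian, not
isomorphic to an alternating group, not isomorphic to `PSL_2(r)`; it has elements `x` of order `r`
and `g` such that `g x g⁻¹ = x ^ s` with `s` of order greater than `d` modulo `r`; and every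
homomorphism from `T` to `PGL_k(F)`, with `k ≤ d` and `F` a field of characteristic not `r`, is
trivial. -/
def Exotic (G : Type u) [Group G] (r d : ℕ) : Prop :=
  ∃ (X Y : Subgroup G) (_ : X.Normal) (_ : Y.Normal), Y ≤ X ∧
    IsSimpleGroup (↥X ⧸ Y.subgroupOf X) ∧
    (∃ a b : ↥X ⧸ Y.subgroupOf X, a * b ≠ b * a) ∧
    (∀ m : ℕ, IsEmpty ((↥X ⧸ Y.subgroupOf X) ≃* alternatingGroup (Fin m))) ∧
    IsEmpty ((↥X ⧸ Y.subgroupOf X) ≃* PSL2 r) ∧
    (∃ (x g : ↥X ⧸ Y.subgroupOf X) (s : ℕ), orderOf x = r ∧ g * x * g⁻¹ = x ^ s ∧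
      d < orderOf (s : ZMod r)) ∧
    ∀ (k : ℕ) (F : Type v) [Field F], k ≤ d → (r : F) ≠ 0 →
      ∀ f : (↥X ⧸ Y.subgroupOf X) →* Matrix.ProjGenLinGroup (Fin k) F, f = 1

/-- (PROJ) A projective representation of degree `k` in characteristic not `r`, non-trivial on the
element `x` of order `r`: the automizer of `⟨x⟩` has only elements of order at most `k`. -/
def PROJ : Prop := ∀ (T : Type u) [Group T] (F : Type v) [Field F] (k r s : ℕ) (x g : T), r.Prime →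
  orderOf x = r → g * x * g⁻¹ = x ^ s → (r : F) ≠ 0 →
  ∀ f : T →* Matrix.ProjGenLinGroup (Fin k) F, f x ≠ 1 → orderOf (s : ZMod r) ≤ k

/-- (SMC) The number of integers up to `n` all of whose prime divisors `l` have `(l-2)^l < n`. -/
def SMC : Prop := ∀ ε : ℝ, 0 < ε → ∃ n₀ : ℕ, ∀ n : ℕ, n₀ ≤ n →
  (({D : ℕ | 0 < D ∧ D ≤ n ∧ ∀ l : ℕ, l.Prime → l ∣ D → (l - 2) ^ l < n}.ncard : ℕ) : ℝ) ≤
    (n : ℝ) ^ ε

/-- (PCE) More than `n ^ (1 - ε)` primes in `(n / 2, n]`. -/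
def PCE : Prop := ∀ ε : ℝ, 0 < ε → ∃ n₀ : ℕ, ∀ n : ℕ, n₀ ≤ n →
  (n : ℝ) ^ (1 - ε) < (({r : ℕ | r.Prime ∧ n < 2 * r ∧ r ≤ n}.ncard : ℕ) : ℝ)

/-- (MAIN3) The main theorem, final form. -/
def MAIN3 : Prop := ∀ ε : ℝ, 0 < ε → ∃ n₀ : ℕ, ∀ n : ℕ, n₀ ≤ n → ∀ (G : Type u) [Group G] [Finite G],
  muSet G = muSet (alternatingGroup (Fin n)) →
  Nonempty (G ≃* alternatingGroup (Fin n)) ∨
    ((∀ d : ℕ, 0 < d →
      (({r : ℕ | r.Prime ∧ n < 2 * r ∧ r ≤ n ∧ ¬ Exotic.{u, v} G r d}.ncard : ℕ) : ℝ) ≤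
        d * (n : ℝ) ^ ε) ∧
    ∀ d : ℕ, (d : ℝ) ≤ (n : ℝ) ^ (1 - ε) →
      ∃ r : ℕ, r.Prime ∧ n < 2 * r ∧ r ≤ n ∧ Exotic.{u, v} G r d)

end Pool.Agent.Helper10.RS
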