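import Pool.Agent.Helper10.RS.Goals
import Pool.Agent.Helper74.SD.PrimeGap

open Finset

namespace Pool.Agent.Helper10.RS

universe u v

theorem aa_pos {l : ℕ} (hl : 2 ≤ l) (n : ℕ) : 0 < aa l n := by
  unfold aa
  apply Finset.prod_pos
  intro i hi
  rw [mem_Icc] at hi
  have h1 : (1 : ℚ) ≤ i := by exact_mod_cast hi.1
  have h2 : (2 : ℚ) ≤ l := by exact_mod_cast hl
  have h3 : (1 : ℚ) < (l : ℚ) * i := by nlinarith
  have h4 : 1 / ((l : ℚ) * i) < 1 := by
    rw [div_lt_one (by linarith)]; exact h3
  linarith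

theorem bb_ne {l n : ℕ} (hl : 2 ≤ l) (h : n % l ≤ 1) : bb l n ≠ 0 := by
  unfold bb
  rw [if_pos h]
  rw [Finset.prod_ne_zero_iff]
  intro i hi
  rw [mem_Icc] at hi
  have h1 : (1 : ℚ) ≤ i := by exact_mod_cast hi.1
  have h2 : (2 : ℚ) ≤ l := by exact_mod_cast hl
  apply div_ne_zero
  · have : 0 < 1 + (l : ℚ) * (i - 1) := by nlinarith
    linarith
  · have : 0 < (l : ℚ) * i := by nlinarith
    exact this.ne'

theorem bb_zero {l n : ℕ} (h : 2 ≤ n % l) : bb l n = 0 := by
  unfold bb
  rw [if_neg (by omega)]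

section

set_option linter.unusedSectionVars false

variable {K : Type u} [Group K] [Finite K] {n m : ℕ}

/-- the identity for odd primes -/
theorem eql (hc : ∀ n l : ℕ, 2 ≤ n → l.Prime → l ≠ 2 →
    (reg (alternatingGroup (Fin n)) l : ℚ) = n.factorial / 2 * (aa l n + bb l n))
    (hn : 2 ≤ n) (hm : 2 ≤ m) (hK : Nat.card K * m.factorial = n.factorial)
    (h : ∀ p : ℕ, p.Prime → reg (alternatingGroup (Fin n)) p =
      reg K p * reg (alternatingGroup (Fin m)) p) {l : ℕ} (hl : l.Prime) (hl2 : l ≠ 2) :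
    (Nat.card K : ℚ) * (aa l n + bb l n) = reg K l * (aa l m + bb l m) := by
  have h1 := h l hl
  have h2 : (reg (alternatingGroup (Fin n)) l : ℚ) =
      reg K l * (reg (alternatingGroup (Fin m)) l : ℚ) := by exact_mod_cast h1
  rw [hc n l hn hl hl2, hc m l hm hl hl2] at h2
  have h3 : (n.factorial : ℚ) = Nat.card K * m.factorial := by exact_mod_cast hK.symm
  rw [h3] at h2
  have h4 : (m.factorial : ℚ) ≠ 0 := by exact_mod_cast m.factorial_ne_zero
  field_simp at h2
  linear_combination h2

theorem eq2 (hc : ∀ n : ℕ, (reg (alternatingGroup (Fin n)) 2 : ℚ) = n.factorial * aa 2 n)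
    (hK : Nat.card K * m.factorial = n.factorial)
    (h : ∀ p : ℕ, p.Prime → reg (alternatingGroup (Fin n)) p =
      reg K p * reg (alternatingGroup (Fin m)) p) :
    (Nat.card K : ℚ) * aa 2 n = reg K 2 * aa 2 m := by
  have h1 := h 2 Nat.prime_two
  have h2 : (reg (alternatingGroup (Fin n)) 2 : ℚ) =
      reg K 2 * (reg (alternatingGroup (Fin m)) 2 : ℚ) := by exact_mod_cast h1
  rw [hc n, hc m] at h2
  have h3 : (n.factorial : ℚ) = Nat.card K * m.factorial := by exact_mod_cast hK.symm
  rw [h3] at h2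
  have h4 : (m.factorial : ℚ) ≠ 0 := by exact_mod_cast m.factorial_ne_zero
  have h5 : (m.factorial : ℚ) * ((Nat.card K : ℚ) * aa 2 n) =
      (m.factorial : ℚ) * (reg K 2 * aa 2 m) := by linear_combination h2
  exact mul_left_cancel₀ h4 h5

/-- If `l` does not divide the order, all elements are `l`-regular. -/
theorem reg_eq_card {l : ℕ} (hl : ¬ l ∣ Nat.card K) : reg K l = Nat.card K := by
  unfold reg
  apply Nat.card_congr
  refine Equiv.subtypeUnivEquiv ?_
  intro x hx
  exact hl (hx.trans (orderOf_dvd_natCard x))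

theorem card_eq_desc (hmn : m ≤ n) (hK : Nat.card K * m.factorial = n.factorial) :
    Nat.card K = n.descFactorial (n - m) := by
  have h1 := Nat.factorial_mul_descFactorial (n := n) (k := n - m) (by omega)
  rw [show n - (n - m) = m by omega] at h1
  have h2 : m.factorial * n.descFactorial (n - m) = m.factorial * Nat.card K := by
    rw [h1, ← hK, mul_comm]
  exact (Nat.eq_of_mul_eq_mul_left m.factorial_pos h2).symm

theorem not_dvd_card {l : ℕ} (hl : l.Prime) (hmn : m ≤ n) (hq : n / l = m / l)
    (hK : Nat.card K * m.factorial = n.factorial) : ¬ l ∣ Nat.card K := by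
  intro h
  rw [card_eq_desc hmn hK, Nat.descFactorial_eq_prod_range] at h
  obtain ⟨i, hi, k, hk⟩ := (hl.prime.dvd_finsetProd_iff _).1 h
  rw [mem_range] at hi
  have h0 := hl.pos
  have h1 : l * k ≤ n := by omega
  have h2 : m < l * k := by omega
  have h3 : k ≤ n / l := by
    rw [Nat.le_div_iff_mul_le h0, mul_comm]; exact h1
  have h4 : m / l < k := by
    rw [Nat.div_lt_iff_lt_mul h0, mul_comm]; exact h2
  omega

/-- the case of `bb` -/
theorem caseB (hc : ∀ n l : ℕ, 2 ≤ n → l.Prime → l ≠ 2 →
    (reg (alternatingGroup (Fin n)) l : ℚ) = n.factorial / 2 * (aa l n + bb l n))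
    (hn : 2 ≤ n) (hm : 2 ≤ m) (hmn : m ≤ n) (hK : Nat.card K * m.factorial = n.factorial)
    (h : ∀ p : ℕ, p.Prime → reg (alternatingGroup (Fin n)) p =
      reg K p * reg (alternatingGroup (Fin m)) p) {l : ℕ} (hl : l.Prime) (hl2 : l ≠ 2)
    (hq : n / l = m / l) (h1 : 2 ≤ n % l) (h2 : m % l ≤ 1) : False := by
  have h3 := eql hc hn hm hK h hl hl2
  rw [reg_eq_card (not_dvd_card hl hmn hq hK), bb_zero h1] at h3
  have h4 : aa l n = aa l m := by unfold aa; rw [hq]
  rw [h4] at h3
  have h5 : (Nat.card K : ℚ) ≠ 0 := by exact_mod_cast Nat.card_pos.ne'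
  have h6 := mul_left_cancel₀ h5 h3
  exact bb_ne hl.two_le h2 (by linarith)

/-- the case of one large prime -/
theorem caseP (hF : FROB.{u}) (hc : ∀ n l : ℕ, 2 ≤ n → l.Prime → l ≠ 2 →
    (reg (alternatingGroup (Fin n)) l : ℚ) = n.factorial / 2 * (aa l n + bb l n))
    (hK : Nat.card K * m.factorial = n.factorial)
    (h : ∀ p : ℕ, p.Prime → reg (alternatingGroup (Fin n)) p =
      reg K p * reg (alternatingGroup (Fin m)) p) {l : ℕ} (hl : l.Prime)
    (h1 : m < 2 * l) (h2 : 2 * l + 2 ≤ n) (h3 : n < 3 * l) (h4 : n < 2 * m) : False := by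
  have hl3 : 3 ≤ l := by omega
  have hq : n / l = 2 := by
    rw [Nat.div_eq_iff hl.pos]; constructor <;> omega
  have hr : n % l = n - 2 * l := by
    have := Nat.div_add_mod n l
    rw [hq] at this; omega
  have hq' : m / l = 1 := by
    rw [Nat.div_eq_iff hl.pos]; constructor <;> omega
  have hr' : m % l = m - l := by
    have := Nat.div_add_mod m l
    rw [hq'] at this; omega
  have h5 := eql hc (by omega) (by omega) hK h hl (by omega)
  rw [bb_zero (by omega : 2 ≤ n % l), bb_zero (by omega : 2 ≤ m % l)] at h5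
  have e1 : aa l n = (1 - 1 / (l : ℚ)) * (1 - 1 / (2 * l)) := by
    unfold aa
    rw [hq, show Icc 1 2 = {1, 2} by rfl, Finset.prod_pair (by norm_num)]
    push_cast
    rw [mul_one, mul_comm (l : ℚ) 2]
  have e2 : aa l m = 1 - 1 / (l : ℚ) := by
    unfold aa
    rw [hq']
    simp
  rw [e1, e2] at h5
  have hl0 : (3 : ℚ) ≤ l := by exact_mod_cast hl3
  have h6 : (Nat.card K : ℚ) * (2 * l - 1) = 2 * l * reg K l := by
    have h7 : (1 - 1 / (l : ℚ)) ≠ 0 := by
      have : 1 / (l : ℚ) < 1 := by rw [div_lt_one (by linarith)]; linarith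
      linarith
    have h8 : (1 - 1 / (l : ℚ)) * ((Nat.card K : ℚ) * (1 - 1 / (2 * l))) =
        (1 - 1 / (l : ℚ)) * reg K l := by linear_combination h5
    have h9 := mul_left_cancel₀ h7 h8
    rw [← h9]
    field_simp
  obtain ⟨t, ht⟩ := hF K l hl
  have h10 : (Nat.card K) * (2 * l - 1) = 2 * l * reg K l := by
    have : ((Nat.card K * (2 * l - 1) : ℕ) : ℚ) = ((2 * l * reg K l : ℕ) : ℚ) := by
      rw [Nat.cast_mul, Nat.cast_sub (by omega)]
      push_cast
      exact h6
    exact_mod_cast this
  have h11 := Nat.ordProj_mul_ordCompl_eq_self (Nat.card K) l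
  set k' := ordCompl[l] (Nat.card K) with hk'
  have hk0 : 0 < k' := Nat.ordCompl_pos l Nat.card_pos.ne'
  rw [ht] at h10
  rw [← h11] at h10
  have h12 : l ^ (Nat.card K).factorization l * (2 * l - 1) = 2 * l * t := by
    apply Nat.eq_of_mul_eq_mul_left hk0
    rw [show k' * (2 * l * t) = 2 * l * (k' * t) by ring, ← h10]
    ring
  have ho : Odd (l ^ (Nat.card K).factorization l * (2 * l - 1)) := by
    apply Odd.mul
    · exact (hl.odd_of_ne_two (by omega)).pow
    · exact ⟨l - 1, by omega⟩
  rw [h12] at ho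
  rw [show 2 * l * t = 2 * (l * t) by ring] at ho
  exact (Nat.not_odd_iff_even.2 (even_two_mul _)) ho

theorem aa_split {l n m : ℕ} (h : m / l ≤ n / l) :
    aa l n = aa l m * ∏ i ∈ Ioc (m / l) (n / l), (1 - 1 / ((l : ℚ) * i)) := by
  unfold aa
  generalize m / l = a at h ⊢
  generalize n / l = b at h ⊢
  rw [← Finset.prod_union]
  · congr 1
    ext i
    simp only [mem_union, mem_Icc, mem_Ioc]
    omega
  · rw [Finset.disjoint_left]
    intro i hi hj
    rw [mem_Icc] at hi
    rw [mem_Ioc] at hj
    omega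

/-- the identity at `2` in integers -/
theorem eq2' (hF : FROB.{u})
    (hc : ∀ n : ℕ, (reg (alternatingGroup (Fin n)) 2 : ℚ) = n.factorial * aa 2 n)
    (hmn : m ≤ n) (hK : Nat.card K * m.factorial = n.factorial)
    (h : ∀ p : ℕ, p.Prime → reg (alternatingGroup (Fin n)) p =
      reg K p * reg (alternatingGroup (Fin m)) p) :
    ∃ v t : ℕ, reg K 2 = t * ordCompl[2] (Nat.card K) ∧ v = (Nat.card K).factorization 2 ∧
      2 ^ v * ∏ i ∈ Ioc (m / 2) (n / 2), (2 * i - 1) =
      t * 2 ^ (n / 2 - m / 2) * ∏ i ∈ Ioc (m / 2) (n / 2), i := by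
  have h1 := eq2 hc hK h
  have h2 : m / 2 ≤ n / 2 := Nat.div_le_div_right hmn
  rw [aa_split h2] at h1
  obtain ⟨t, ht⟩ := hF K 2 Nat.prime_two
  refine ⟨_, t, by rw [ht, mul_comm], rfl, ?_⟩
  have h3 : (Nat.card K : ℚ) * ∏ i ∈ Ioc (m / 2) (n / 2), (1 - 1 / ((2 : ℚ) * i)) = reg K 2 := by
    have h4 := (aa_pos (le_refl 2) m).ne'
    apply mul_left_cancel₀ h4
    push_cast at h1
    linear_combination h1
  have h5 : ∏ i ∈ Ioc (m / 2) (n / 2), (1 - 1 / ((2 : ℚ) * i)) * (2 * (i : ℚ)) =
      ∏ i ∈ Ioc (m / 2) (n / 2), (((2 * i - 1 : ℕ) : ℚ)) := by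
    apply Finset.prod_congr rfl
    intro i hi
    rw [mem_Ioc] at hi
    have : (i : ℚ) ≠ 0 := by
      have : 0 < i := by omega
      exact_mod_cast this.ne'
    rw [Nat.cast_sub (by omega)]
    push_cast
    field_simp
  rw [Finset.prod_mul_distrib, Finset.prod_mul_distrib, Finset.prod_const, Nat.card_Ioc] at h5
  have h6 : (Nat.card K : ℚ) * ∏ i ∈ Ioc (m / 2) (n / 2), (((2 * i - 1 : ℕ) : ℚ)) =
      reg K 2 * (2 ^ (n / 2 - m / 2) * ∏ i ∈ Ioc (m / 2) (n / 2), (i : ℚ)) := by
    rw [← h5, ← h3]; ring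
  have h7 : Nat.card K * ∏ i ∈ Ioc (m / 2) (n / 2), (2 * i - 1) =
      reg K 2 * (2 ^ (n / 2 - m / 2) * ∏ i ∈ Ioc (m / 2) (n / 2), i) := by
    have : ((Nat.card K * ∏ i ∈ Ioc (m / 2) (n / 2), (2 * i - 1) : ℕ) : ℚ) =
        ((reg K 2 * (2 ^ (n / 2 - m / 2) * ∏ i ∈ Ioc (m / 2) (n / 2), i) : ℕ) : ℚ) := by
      push_cast
      exact h6
    exact_mod_cast this
  have h8 := Nat.ordProj_mul_ordCompl_eq_self (Nat.card K) 2
  have hk0 : 0 < ordCompl[2] (Nat.card K) := Nat.ordCompl_pos 2 Nat.card_pos.ne'
  rw [ht] at h7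
  apply Nat.eq_of_mul_eq_mul_left hk0
  calc _ = (2 ^ (Nat.card K).factorization 2 * ordCompl[2] (Nat.card K)) *
        ∏ i ∈ Ioc (m / 2) (n / 2), (2 * i - 1) := by ring
    _ = _ := by rw [h8, h7]; ring

end

theorem exists_odd_prime {a : ℕ} (ha : a % 2 = 1) (h : 1 < a) :
    ∃ l : ℕ, l.Prime ∧ l ≠ 2 ∧ l ∣ a := by
  refine ⟨a.minFac, Nat.minFac_prime (by omega), ?_, Nat.minFac_dvd a⟩
  intro h2
  have := Nat.minFac_dvd a
  rw [h2] at this
  omega

theorem p_ntc : NTC.{u} := by
  intro hF hC hB
  obtain ⟨hc2, hcl⟩ := hC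
  obtain ⟨ε, N₀, hε, hB⟩ := hB
  set e1 : ℝ := min (ε / 2) (1 / 2) with he1
  have he1p : 0 < e1 := by rw [he1]; positivity
  have he1a : e1 ≤ ε / 2 := min_le_left _ _
  have he1b : e1 ≤ 1 / 2 := min_le_right _ _
  obtain ⟨K₀, hP⟩ := Pool.Agent.Helper74.SD.exists_prime_near (e1 / 4) (by positivity)
  obtain ⟨n₁, hn₁⟩ := exists_nat_gt (10 / e1 + 10 * (1 + ε) / ε)
  refine ⟨2 * N₀ + 2 * K₀ + n₁ + 100, ?_⟩
  intro n m hn hmn hnm K _ _ hK h
  have hmn' := hmn.le
  have hnR : (n₁ : ℝ) ≤ n := by exact_mod_cast (by omega : n₁ ≤ n)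
  have hn100 : (100 : ℝ) ≤ n := by exact_mod_cast (by omega : 100 ≤ n)
  have hb1 : 10 / e1 < n := by
    have : 0 < 10 * (1 + ε) / ε := by positivity
    linarith
  have hb2 : 10 * (1 + ε) / ε < n := by
    have : 0 < 10 / e1 := by positivity
    linarith
  rw [div_lt_iff₀ he1p] at hb1
  rw [div_lt_iff₀ hε] at hb2
  by_cases hcase : (m : ℝ) ≤ (1 - e1) * n
  · -- one large prime
    obtain ⟨p, hp, hpk, hp2⟩ := hP (n / 2 - 1) (by omega)
    have hk : ((n : ℝ) - 3) / 2 ≤ ((n / 2 - 1 : ℕ) : ℝ) := by
      have : n ≤ 2 * (n / 2 - 1) + 3 := by omega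
      have : (n : ℝ) ≤ 2 * ((n / 2 - 1 : ℕ) : ℝ) + 3 := by exact_mod_cast this
      linarith
    have hp3 : (1 - e1 / 4) * (((n : ℝ) - 3) / 2) ≤ p := by
      refine le_trans ?_ hp2
      apply mul_le_mul_of_nonneg_left hk
      linarith
    have g1 : m < 2 * p := by
      have : (m : ℝ) < 2 * p := by nlinarith
      exact_mod_cast this
    have g2 : n < 3 * p := by
      have : (n : ℝ) < 3 * p := by nlinarith
      exact_mod_cast this
    exact caseP hF hcl hK h hp g1 (by omega) g2 hnm
  · push Not at hcase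
    obtain ⟨v, t, ht, hv, heq⟩ := eq2' hF hc2 hmn' hK h
    -- g = n / 2 - m / 2
    by_cases hg2 : 2 ≤ n / 2 - m / 2
    · have hgN : ((n / 2 - m / 2 : ℕ) : ℝ) ≤ ε * ((n / 2 : ℕ) : ℝ) := by
        have h1 : 2 * (n / 2 - m / 2) ≤ n - m + 1 := by omega
        have h2 : 2 * ((n / 2 - m / 2 : ℕ) : ℝ) ≤ n - m + 1 := by
          have h3 : ((2 * (n / 2 - m / 2) : ℕ) : ℝ) ≤ ((n - m + 1 : ℕ) : ℝ) := by exact_mod_cast h1
          push_cast [Nat.cast_sub hmn'] at h3
          linarith
        have h4 : (n : ℝ) - 1 ≤ 2 * ((n / 2 : ℕ) : ℝ) := by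
          have : n ≤ 2 * (n / 2) + 1 := by omega
          have : (n : ℝ) ≤ 2 * ((n / 2 : ℕ) : ℝ) + 1 := by exact_mod_cast this
          linarith
        have h5 : (n : ℝ) - m < e1 * n := by linarith
        have h6 : e1 * n ≤ ε / 2 * n := by
          apply mul_le_mul_of_nonneg_right he1a; linarith
        nlinarith
      obtain ⟨q, hq, hq2, hlt⟩ := hB (n / 2) (n / 2 - m / 2) (by omega) hg2 hgN
      rw [show n / 2 - (n / 2 - m / 2) = m / 2 by omega] at hlt
      have hne1 : ∏ i ∈ Ioc (m / 2) (n / 2), (2 * i - 1) ≠ 0 := by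
        rw [Finset.prod_ne_zero_iff]
        intro i hi
        rw [mem_Ioc] at hi
        omega
      have hne2 : ∏ i ∈ Ioc (m / 2) (n / 2), i ≠ 0 := by
        rw [Finset.prod_ne_zero_iff]
        intro i hi
        rw [mem_Ioc] at hi
        omega
      have hd : ∏ i ∈ Ioc (m / 2) (n / 2), i ∣
          2 ^ v * ∏ i ∈ Ioc (m / 2) (n / 2), (2 * i - 1) := by
        rw [heq]; exact Dvd.intro_left _ rfl
      have h1 := (Nat.factorization_le_iff_dvd hne2 (by positivity)).2 hd q
      rw [Nat.factorization_mul (by positivity) hne1] at h1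
      simp only [Finsupp.coe_add, Pi.add_apply] at h1
      rw [Nat.Prime.factorization_pow Nat.prime_two] at h1
      rw [Finsupp.single_eq_of_ne (by omega)] at h1
      omega
    · by_cases hg1 : n / 2 - m / 2 = 1
      · -- `n / 2` is a power of `2`
        have hM : n / 2 = m / 2 + 1 := by omega
        set N := n / 2 with hN
        have hI : Ioc (m / 2) N = {N} := by
          ext i; simp only [mem_Ioc, mem_singleton]; omega
        rw [hI, Finset.prod_singleton, Finset.prod_singleton, hg1] at heq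
        have hcop : Nat.Coprime N (2 * N - 1) := by
          have h1 : Nat.gcd N (2 * N - 1) ∣ 1 := by
            have a1 := Nat.gcd_dvd_left N (2 * N - 1)
            have a2 := Nat.gcd_dvd_right N (2 * N - 1)
            have a3 : Nat.gcd N (2 * N - 1) ∣ 2 * N := a1.mul_left 2
            have a4 : 2 * N = (2 * N - 1) + 1 := by omega
            rw [a4] at a3
            exact (Nat.dvd_add_right a2).1 a3
          exact Nat.dvd_one.1 h1
        have hdv : N ∣ 2 ^ v := by
          apply hcop.dvd_of_dvd_mul_right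
          rw [heq]; exact Dvd.intro_left _ rfl
        obtain ⟨a, -, ha⟩ := (Nat.dvd_prime_pow Nat.prime_two).1 hdv
        have h3N : ¬ 3 ∣ 2 * N := by
          rw [ha, ← pow_succ']
          intro h3
          have := Nat.Prime.dvd_of_dvd_pow Nat.prime_three h3
          omega
        have hNe : 2 ∣ N := by
          rw [ha]
          apply dvd_pow_self
          rintro rfl
          rw [pow_zero] at ha
          omega
        -- the four cases
        rcases Nat.even_or_odd' n with ⟨c, hc | hc⟩ <;> rcases Nat.even_or_odd' m with ⟨d, hd | hd⟩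
        · -- n = 2N, m = 2N - 2
          obtain ⟨l, hl, hl2, hld⟩ := exists_odd_prime (a := n - 3) (by omega) (by omega)
          have hl3 : l ≠ 3 := by
            rintro rfl
            apply h3N
            have : 2 * N = (n - 3) + 3 := by omega
            rw [this]
            exact Nat.dvd_add hld (dvd_refl 3)
          have hl5 : 5 ≤ l := by
            have := hl.two_le
            have h4 : l ≠ 4 := by rintro rfl; revert hl; decide
            omega
          obtain ⟨k, hk⟩ := hld
          have e1 : n = l * k + 3 := by omega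
          have e2 : m = l * k + 1 := by omega
          refine caseB hcl (by omega) (by omega) hmn' hK h hl hl2 ?_ ?_ ?_
          · rw [e1, e2, Nat.mul_add_div hl.pos, Nat.mul_add_div hl.pos,
              Nat.div_eq_of_lt (by omega), Nat.div_eq_of_lt (by omega)]
          · rw [e1, Nat.mul_add_mod, Nat.mod_eq_of_lt (by omega)]; omega
          · rw [e2, Nat.mul_add_mod, Nat.mod_eq_of_lt (by omega)]
        · -- n = 2N, m = 2N - 1
          have hcard : Nat.card K = n := by
            rw [card_eq_desc hmn' hK, show n - m = 1 by omega, Nat.descFactorial_one]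
          have hpow : Nat.card K = 2 ^ (a + 1) := by
            rw [hcard, pow_succ', ← ha]; omega
          have hreg : reg K 2 = 1 := by
            unfold reg
            rw [Nat.card_eq_one_iff_unique]
            refine ⟨⟨?_⟩, ⟨1, by simp⟩⟩
            have key : ∀ x : {g : K // ¬ 2 ∣ orderOf g}, x.1 = 1 := by
              intro x
              have h1 := orderOf_dvd_natCard x.1
              rw [hpow] at h1
              obtain ⟨b, -, hb⟩ := (Nat.dvd_prime_pow Nat.prime_two).1 h1
              rcases Nat.eq_zero_or_pos b with rfl | hb0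
              · rw [pow_zero] at hb
                exact orderOf_eq_one_iff.1 hb
              · exfalso
                apply x.2
                rw [hb]
                exact dvd_pow_self 2 hb0.ne'
            intro x y
            exact Subtype.ext ((key x).trans (key y).symm)
          have h1 := eq2 hc2 hK h
          rw [hreg, aa_split (l := 2) (m := m) (n := n) (by omega), ← hN, hI,
            Finset.prod_singleton] at h1
          have h2 : (Nat.card K : ℚ) * (1 - 1 / (2 * (N : ℚ))) = 1 := by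
            have h4 := (aa_pos (le_refl 2) m).ne'
            apply mul_left_cancel₀ h4
            push_cast at h1
            linear_combination h1
          have h3 : (Nat.card K : ℚ) = 2 * N := by
            rw [hcard]
            have : n = 2 * N := by omega
            exact_mod_cast this
          have hN0 : (50 : ℚ) ≤ N := by
            have : 50 ≤ N := by omega
            exact_mod_cast this
          rw [h3] at h2
          have h5 : (2 * (N : ℚ)) * (1 - 1 / (2 * (N : ℚ))) = 2 * N - 1 := by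
            field_simp
          linarith
        · -- n = 2N + 1, m = 2N - 2
          obtain ⟨l, hl, hl2, hld⟩ := exists_odd_prime (a := n - 4) (by omega) (by omega)
          have hl3 : l ≠ 3 := by
            rintro rfl
            apply h3N
            have : 2 * N = (n - 4) + 3 := by omega
            rw [this]
            exact Nat.dvd_add hld (dvd_refl 3)
          have hl5 : 5 ≤ l := by
            have := hl.two_le
            have h4 : l ≠ 4 := by rintro rfl; revert hl; decide
            omega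
          obtain ⟨k, hk⟩ := hld
          have e1 : n = l * k + 4 := by omega
          have e2 : m = l * k + 1 := by omega
          refine caseB hcl (by omega) (by omega) hmn' hK h hl hl2 ?_ ?_ ?_
          · rw [e1, e2, Nat.mul_add_div hl.pos, Nat.mul_add_div hl.pos,
              Nat.div_eq_of_lt (by omega), Nat.div_eq_of_lt (by omega)]
          · rw [e1, Nat.mul_add_mod, Nat.mod_eq_of_lt (by omega)]; omega
          · rw [e2, Nat.mul_add_mod, Nat.mod_eq_of_lt (by omega)]
        · -- n = 2N + 1, m = 2N - 1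
          obtain ⟨l, hl, hl2, hld⟩ := exists_odd_prime (a := n - 2) (by omega) (by omega)
          have hl3 : 3 ≤ l := by
            have := hl.two_le
            omega
          obtain ⟨k, hk⟩ := hld
          have e1 : n = l * k + 2 := by omega
          have e2 : m = l * k + 0 := by omega
          refine caseB hcl (by omega) (by omega) hmn' hK h hl hl2 ?_ ?_ ?_
          · rw [e1, e2, Nat.mul_add_div hl.pos, Nat.mul_add_div hl.pos,
              Nat.div_eq_of_lt (by omega), Nat.div_eq_of_lt (by omega)]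
          · rw [e1, Nat.mul_add_mod, Nat.mod_eq_of_lt (by omega)]
          · rw [e2, Nat.mul_add_mod, Nat.mod_eq_of_lt (by omega)]; omega
      · -- n odd, m = n - 1
        obtain ⟨l, hl, hl2, hld⟩ := exists_odd_prime (a := n - 2) (by omega) (by omega)
        have hl3 : 3 ≤ l := by
          have := hl.two_le
          omega
        obtain ⟨k, hk⟩ := hld
        have e1 : n = l * k + 2 := by omega
        have e2 : m = l * k + 1 := by omega
        refine caseB hcl (by omega) (by omega) hmn' hK h hl hl2 ?_ ?_ ?_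
        · rw [e1, e2, Nat.mul_add_div hl.pos, Nat.mul_add_div hl.pos,
            Nat.div_eq_of_lt (by omega), Nat.div_eq_of_lt (by omega)]
        · rw [e1, Nat.mul_add_mod, Nat.mod_eq_of_lt (by omega)]
        · rw [e2, Nat.mul_add_mod, Nat.mod_eq_of_lt (by omega)]

end Pool.Agent.Helper10.RS
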