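import Pool.Agent.Helper38.RS.Goals1

/-! # RS, packet PHI: the minimal polynomial of an odd root of unity over the 2-adic integers -/

namespace Pool.Agent.Helper10.RS

open Polynomial Module Pool.Agent.Helper38.RS

section

variable {k : Type} [NormedField k] [NormedAlgebra ℚ_[2] k]

/-- The embedding of the 2-adic integers. -/
noncomputable def io (k : Type) [NormedField k] [NormedAlgebra ℚ_[2] k] : ℤ_[2] →+* k :=
  (algebraMap ℚ_[2] k).comp (algebraMap ℤ_[2] ℚ_[2])

theorem norm_io (c : ℤ_[2]) : ‖io k c‖ = ‖c‖ := by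
  rw [io, RingHom.comp_apply, norm_algebraMap']
  rfl

theorem io_inj : Function.Injective (io k) := by
  intro a b hab
  have h1 : ‖io k (a - b)‖ = 0 := by rw [map_sub, hab, sub_self, norm_zero]
  rw [norm_io, norm_eq_zero] at h1
  exact sub_eq_zero.1 h1

theorem toZMod_eq_zero {c : ℤ_[2]} : PadicInt.toZMod c = 0 ↔ ‖c‖ < 1 := by
  rw [← RingHom.mem_ker, PadicInt.ker_toZMod, PadicInt.maximalIdeal_eq_span_p,
    Ideal.mem_span_singleton, ← PadicInt.norm_lt_one_iff_dvd]

theorem toZMod_surj : Function.Surjective (PadicInt.toZMod : ℤ_[2] →+* ZMod 2) :=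
  ZMod.ringHom_surjective _

variable [IsUltrametricDist k]

theorem eval_le (F : ℤ_[2][X]) {z : k} (hz : ‖z‖ ≤ 1) (C : ℝ) (hC : 0 ≤ C)
    (hF : ∀ n, ‖F.coeff n‖ ≤ C) : ‖eval₂ (io k) z F‖ ≤ C := by
  rw [eval₂_eq_sum, Polynomial.sum]
  refine IsUltrametricDist.norm_sum_le_of_forall_le_of_nonneg hC fun n _ => ?_
  rw [norm_mul, norm_io, norm_pow]
  calc ‖F.coeff n‖ * ‖z‖ ^ n ≤ C * 1 :=
        mul_le_mul (hF n) (pow_le_one₀ (norm_nonneg _) hz) (by positivity) hC
    _ = C := mul_one C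

theorem norm_lt_iff (c : ℤ_[2]) : ‖c‖ < 1 ↔ ‖c‖ ≤ 1 / 2 := by
  constructor
  · intro h
    have h1 := (PadicInt.norm_lt_one_iff_dvd c).1 h
    obtain ⟨d, rfl⟩ := h1
    rw [norm_mul]
    have h2 : ‖((2 : ℕ) : ℤ_[2])‖ = 1 / 2 := by
      rw [PadicInt.norm_p]
      norm_num
    rw [h2]
    have h3 := PadicInt.norm_le_one d
    nlinarith [norm_nonneg d]
  · intro h
    linarith

/-- A polynomial whose reduction vanishes. -/
theorem eval_lt (F : ℤ_[2][X]) {z : k} (hz : ‖z‖ ≤ 1) (hF : F.map PadicInt.toZMod = 0) :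
    ‖eval₂ (io k) z F‖ < 1 := by
  have h1 : ∀ n, ‖F.coeff n‖ ≤ 1 / 2 := by
    intro n
    have h2 : PadicInt.toZMod (F.coeff n) = 0 := by
      rw [← coeff_map, hF, coeff_zero]
    exact (norm_lt_iff _).1 (toZMod_eq_zero.1 h2)
  exact (eval_le F hz (1 / 2) (by norm_num) h1).trans_lt (by norm_num)

/-- The differences `1 - η` of roots of unity of odd order are units. -/
theorem one_sub_norm {m : ℕ} (hm : Odd m) {η : k} (h1 : η ^ m = 1) (h2 : η ≠ 1) :
    ¬ ‖η - 1‖ < 1 := by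
  intro hlt
  have hm0 : m ≠ 0 := by
    rintro rfl
    exact absurd hm (by decide)
  have hη : ‖η‖ = 1 := by
    have h3 : ‖η‖ ^ m = 1 := by rw [← norm_pow, h1, norm_one]
    exact (pow_eq_one_iff_of_nonneg (norm_nonneg _) hm0).1 h3
  have hgeom : ∑ j ∈ Finset.range m, η ^ j = 0 := by
    have h3 := mul_geom_sum η m
    rw [h1, sub_self] at h3
    exact (mul_eq_zero.1 h3).resolve_left (sub_ne_zero.2 h2)
  have hle : ∀ j, ‖η ^ j - 1‖ ≤ ‖η - 1‖ := by
    intro j
    rw [← mul_geom_sum η j, norm_mul]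
    have h4 : ‖∑ i ∈ Finset.range j, η ^ i‖ ≤ 1 :=
      IsUltrametricDist.norm_sum_le_of_forall_le_of_nonneg zero_le_one fun i _ => by
        rw [norm_pow, hη, one_pow]
    calc ‖η - 1‖ * ‖∑ i ∈ Finset.range j, η ^ i‖ ≤ ‖η - 1‖ * 1 :=
          mul_le_mul_of_nonneg_left h4 (norm_nonneg _)
      _ = ‖η - 1‖ := mul_one _
  have hsum : ‖∑ j ∈ Finset.range m, (η ^ j - 1)‖ ≤ ‖η - 1‖ :=
    IsUltrametricDist.norm_sum_le_of_forall_le_of_nonneg (norm_nonneg _) fun j _ => hle j
  rw [Finset.sum_sub_distrib, hgeom, zero_sub, norm_neg] at hsum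
  simp only [Finset.sum_const, Finset.card_range, nsmul_eq_mul, mul_one] at hsum
  have h5 : ‖(m : k)‖ = 1 := by
    have h6 : (m : k) = io k (m : ℤ_[2]) := by rw [map_natCast]
    rw [h6, norm_io]
    have h7 : ¬ ‖(m : ℤ_[2])‖ < 1 := by
      rw [PadicInt.norm_natCast_lt_one_iff]
      exact fun h => (Nat.not_even_iff_odd.2 hm) (even_iff_two_dvd.2 h)
    exact le_antisymm (PadicInt.norm_le_one _) (not_lt.1 h7)
  rw [h5] at hsum
  linarith

end

/-- Elements of norm less than `1` have a minimal polynomial congruent to a power of `X`. -/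
theorem small_minpoly {k : Type} [NormedField k] [NormedAlgebra ℚ_[2] k]
    [Algebra ℤ_[2] k] [IsScalarTower ℤ_[2] ℚ_[2] k]
    (ζ : k) (hζ : IsIntegral ℚ_[2] ζ) (y : k) (hy : IsIntegral ℤ_[2] y)
    (hyE : y ∈ IntermediateField.adjoin ℚ_[2] {ζ}) (hlt : ‖y‖ < 1) :
    (minpoly ℤ_[2] y).map PadicInt.toZMod = X ^ (minpoly ℤ_[2] y).natDegree := by
  classical
  set E := IntermediateField.adjoin ℚ_[2] {ζ} with hE
  have : FiniteDimensional ℚ_[2] E := IntermediateField.adjoin.finiteDimensional hζ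
  have : Algebra.IsAlgebraic ℚ_[2] E := Algebra.IsAlgebraic.of_finite _ _
  let f : AbsoluteValue E ℝ :=
    { toFun := fun x => ‖(x : k)‖
      map_mul' := fun x y => by simp
      nonneg' := fun x => norm_nonneg _
      eq_zero' := fun x => by simp
      add_le' := fun x y => norm_add_le _ _ }
  have hf : ∀ c : ℚ_[2], f (algebraMap ℚ_[2] E c) = ‖c‖ := by
    intro c
    show ‖((algebraMap ℚ_[2] E c : E) : k)‖ = ‖c‖
    rw [← norm_algebraMap' k c]
    rfl
  have h1 := spectralNorm_unique_field_norm_ext hf ⟨y, hyE⟩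
  have h2 : f ⟨y, hyE⟩ = ‖y‖ := rfl
  rw [h2] at h1
  have h3 : minpoly ℚ_[2] (⟨y, hyE⟩ : E) = minpoly ℚ_[2] y := by
    have := minpoly.algebraMap_eq (A := ℚ_[2]) (B := E) (B' := k)
      (algebraMap E k).injective (⟨y, hyE⟩ : E)
    exact this.symm
  have h4 : minpoly ℚ_[2] y = (minpoly ℤ_[2] y).map (algebraMap ℤ_[2] ℚ_[2]) :=
    minpoly.isIntegrallyClosed_eq_field_fractions' ℚ_[2] hy
  set μ := minpoly ℤ_[2] y with hμ
  have hmon : μ.Monic := minpoly.monic hy
  have hdeg : (minpoly ℚ_[2] y).natDegree = μ.natDegree := by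
    rw [h4, hmon.natDegree_map]
  have hco : ∀ n, n < μ.natDegree → PadicInt.toZMod (μ.coeff n) = 0 := by
    intro n hn
    rw [toZMod_eq_zero]
    have h5 : spectralNorm ℚ_[2] E (⟨y, hyE⟩ : E) = spectralValue (minpoly ℚ_[2] y) := by
      rw [spectralNorm, h3]
    rw [h5] at h1
    have h6 : spectralValueTerms (minpoly ℚ_[2] y) n ≤ spectralValue (minpoly ℚ_[2] y) :=
      le_ciSup (spectralValueTerms_bddAbove _) n
    rw [spectralValueTerms_of_lt_natDegree _ (by rw [hdeg]; exact hn), ← h1] at h6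
    have h7 : ‖(minpoly ℚ_[2] y).coeff n‖ ^ (1 / ((minpoly ℚ_[2] y).natDegree - n : ℝ)) < 1 :=
      h6.trans_lt hlt
    have h8 : ‖(minpoly ℚ_[2] y).coeff n‖ = ‖μ.coeff n‖ := by
      rw [h4, coeff_map]
      rfl
    rw [h8] at h7
    by_contra hc
    push Not at hc
    have h9 : (1 : ℝ) ≤ ‖μ.coeff n‖ ^ (1 / ((minpoly ℚ_[2] y).natDegree - n : ℝ)) := by
      refine Real.one_le_rpow hc ?_
      rw [hdeg]
      have : (n : ℝ) < μ.natDegree := by exact_mod_cast hn
      have h10 : (0 : ℝ) < (μ.natDegree : ℝ) - n := by linarith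
      positivity
    linarith
  ext n
  rw [coeff_map, coeff_X_pow]
  rcases lt_trichotomy n μ.natDegree with hn | hn | hn
  · rw [hco n hn, if_neg (by omega)]
  · rw [hn, hmon.coeff_natDegree, map_one, if_pos rfl]
  · rw [coeff_eq_zero_of_natDegree_lt hn, map_zero, if_neg (by omega)]

/-- PHI -/
theorem s_phi : S_PHI := by
  intro k _ _ _ m ζ hm hm1 hζ
  classical
  let _ : Algebra ℤ_[2] k := (io k).toAlgebra
  have : IsScalarTower ℤ_[2] ℚ_[2] k := IsScalarTower.of_algebraMap_eq' rfl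
  have hm0 : m ≠ 0 := by omega
  have hamap : algebraMap ℤ_[2] k = io k := rfl
  have : Module.IsTorsionFree ℤ_[2] k := by
    rw [Module.isTorsionFree_iff_algebraMap_injective]
    exact io_inj
  have hζm : ζ ^ m = 1 := hζ.pow_eq_one
  have hζ1 : ‖ζ‖ = 1 := by
    have h3 : ‖ζ‖ ^ m = 1 := by rw [← norm_pow, hζm, norm_one]
    exact (pow_eq_one_iff_of_nonneg (norm_nonneg _) hm0).1 h3
  have hint : IsIntegral ℤ_[2] ζ := by
    refine ⟨X ^ m - 1, monic_X_pow_sub_C 1 hm0, ?_⟩
    simp [hζm]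
  have hintQ : IsIntegral ℚ_[2] ζ := hint.tower_top
  set Φ := minpoly ℤ_[2] ζ with hΦ
  set P := Φ.map (PadicInt.toZMod : ℤ_[2] →+* ZMod 2) with hP
  have hmon : Φ.Monic := minpoly.monic hint
  have hPmon : P.Monic := hmon.map _
  have hroot : eval₂ (io k) ζ Φ = 0 := by
    have := minpoly.aeval ℤ_[2] ζ
    rwa [aeval_def, hamap] at this
  have hdvd : Φ ∣ X ^ m - 1 := by
    refine minpoly.isIntegrallyClosed_dvd hint ?_
    simp [hζm]
  have hdvdP : P ∣ X ^ m - 1 := by
    have h1 := (mapRingHom (PadicInt.toZMod : ℤ_[2] →+* ZMod 2)).map_dvd hdvd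
    simpa using h1
  -- (K1)
  have K1 : ∀ F : ℤ_[2][X], P ∣ F.map PadicInt.toZMod → ‖eval₂ (io k) ζ F‖ < 1 := by
    rintro F ⟨G, hG⟩
    obtain ⟨G', rfl⟩ := Polynomial.map_surjective _ toZMod_surj G
    have h1 : (F - Φ * G').map (PadicInt.toZMod : ℤ_[2] →+* ZMod 2) = 0 := by
      rw [Polynomial.map_sub, Polynomial.map_mul, hG, sub_self]
    have h2 := eval_lt (k := k) (F - Φ * G') hζ1.le h1
    rwa [eval₂_sub, eval₂_mul, hroot, zero_mul, sub_zero] at h2
  -- (K2)
  have hsq : Squarefree P := by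
    have h1 : (X ^ m - 1 : (ZMod 2)[X]).Separable := by
      have h2 : IsUnit ((m : ℕ) : ZMod 2) := by
        rw [isUnit_iff_ne_zero, Ne, ZMod.natCast_eq_zero_iff]
        exact fun h => (Nat.not_even_iff_odd.2 hm) (even_iff_two_dvd.2 h)
      have h3 := separable_X_pow_sub_C_unit (R := ZMod 2) (n := m) 1 h2
      simpa using h3
    exact h1.squarefree.squarefree_of_dvd hdvdP
  have K2 : ∀ F : ℤ_[2][X], ‖eval₂ (io k) ζ F‖ < 1 → P ∣ F.map PadicInt.toZMod := by
    intro F hF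
    set y := eval₂ (io k) ζ F with hy
    have hyi : IsIntegral ℤ_[2] y := by
      have h1 : y = aeval ζ F := by rw [aeval_def, hamap]
      rw [h1]
      have hmem : ζ ∈ integralClosure ℤ_[2] k := hint
      have h2 : Algebra.adjoin ℤ_[2] {ζ} ≤ integralClosure ℤ_[2] k :=
        Algebra.adjoin_le (Set.singleton_subset_iff.2 hmem)
      exact h2 (aeval_mem_adjoin_singleton ℤ_[2] ζ)
    have hyE : y ∈ IntermediateField.adjoin ℚ_[2] {ζ} := by
      have h1 : y = aeval ζ (F.map (algebraMap ℤ_[2] ℚ_[2])) := by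
        rw [aeval_map_algebraMap, aeval_def, hamap]
      rw [h1]
      exact IntermediateField.algebra_adjoin_le_adjoin _ _ (aeval_mem_adjoin_singleton _ _)
    have h2 := small_minpoly ζ hintQ y hyi hyE hF
    set μ := minpoly ℤ_[2] y with hμ
    have h3 : aeval ζ (μ.comp F) = 0 := by
      rw [aeval_comp]
      have h4 : aeval ζ F = y := by rw [aeval_def, hamap]
      rw [h4]
      exact minpoly.aeval _ _
    have h5 : Φ ∣ μ.comp F := minpoly.isIntegrallyClosed_dvd hint h3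
    have h6 : P ∣ (F.map (PadicInt.toZMod : ℤ_[2] →+* ZMod 2)) ^ μ.natDegree := by
      have h7 := Polynomial.map_dvd (PadicInt.toZMod : ℤ_[2] →+* ZMod 2) h5
      rwa [Polynomial.map_comp, h2, X_pow_comp] at h7
    have h8 : μ.natDegree ≠ 0 := (minpoly.natDegree_pos hyi).ne'
    exact (hsq.dvd_pow_iff_dvd h8).1 h6
  have hdegpos : 0 < P.natDegree := by
    rw [hP, hmon.natDegree_map]
    exact minpoly.natDegree_pos hint
  have hirr : Irreducible P := by
    refine ⟨fun hu => ?_, fun A B hAB => ?_⟩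
    · have := Polynomial.natDegree_eq_zero_of_isUnit hu
      omega
    · obtain ⟨A', hA'⟩ := Polynomial.map_surjective _ toZMod_surj A
      obtain ⟨B', hB'⟩ := Polynomial.map_surjective _ toZMod_surj B
      have h1 : ‖eval₂ (io k) ζ (A' * B')‖ < 1 :=
        K1 _ (by rw [Polynomial.map_mul, hA', hB', ← hAB])
      rw [eval₂_mul, norm_mul] at h1
      have hne : P ≠ 0 := hPmon.ne_zero
      have h2 : ‖eval₂ (io k) ζ A'‖ < 1 ∨ ‖eval₂ (io k) ζ B'‖ < 1 := by
        by_contra hc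
        push Not at hc
        have h3 := mul_le_mul hc.1 hc.2 zero_le_one (zero_le_one.trans hc.1)
        linarith
      rcases h2 with h2 | h2
      · right
        have h3 := K2 A' h2
        rw [hA'] at h3
        obtain ⟨C, hC⟩ := h3
        have h4 : P * 1 = P * (C * B) := by
          rw [mul_one, ← mul_assoc, ← hC, ← hAB]
        have h5 := mul_left_cancel₀ hne h4
        exact IsUnit.of_mul_eq_one C (by rw [mul_comm]; exact h5.symm)
      · left
        have h3 := K2 B' h2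
        rw [hB'] at h3
        obtain ⟨C, hC⟩ := h3
        have h4 : P * 1 = P * (A * C) := by
          rw [mul_one]
          calc P = A * B := hAB
            _ = A * (P * C) := by rw [← hC]
            _ = P * (A * C) := by ring
        have h5 := mul_left_cancel₀ hne h4
        exact IsUnit.of_mul_eq_one C h5.symm
  have hno : ∀ e : ℕ, 0 < e → e < m → ¬ P ∣ X ^ e - 1 := by
    intro e he hem hd
    have h1 : ‖eval₂ (io k) ζ (X ^ e - 1)‖ < 1 := K1 _ (by simpa using hd)
    rw [eval₂_sub, eval₂_pow, eval₂_X, eval₂_one] at h1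
    refine one_sub_norm hm (η := ζ ^ e) ?_ ?_ h1
    · rw [← pow_mul, mul_comm, pow_mul, hζm, one_pow]
    · exact hζ.pow_ne_one_of_pos_of_lt he.ne' hem
  refine ⟨Φ, P, ⟨hm, hm1, hζ, hmon, hdvd, hroot, rfl, hirr, ?_, ?_, hdvdP⟩⟩
  · -- the degree
    by_contra hc
    have hd1 : P.natDegree = 1 := by omega
    have h1 : P = X + C (P.coeff 0) := by
      have := hPmon.eq_X_add_C hd1
      exact this
    rcases (by
      have : ∀ c : ZMod 2, c = 0 ∨ c = 1 := by decide
      exact this (P.coeff 0)) with h0 | h0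
    · rw [h0, map_zero, add_zero] at h1
      have h2 : ‖eval₂ (io k) ζ (X : ℤ_[2][X])‖ < 1 := K1 _ (by rw [map_X, ← h1])
      rw [eval₂_X, hζ1] at h2
      exact lt_irrefl _ h2
    · rw [h0, map_one] at h1
      refine hno 1 one_pos hm1 ?_
      rw [pow_one, h1]
      have h2 : (X + 1 : (ZMod 2)[X]) = X - 1 := by
        rw [sub_eq_add_neg]
        congr 1
        have h3 : (1 : (ZMod 2)[X]) = C 1 := (map_one C).symm
        rw [h3, ← C_neg]
        congr 1
      rw [h2]
  · intro e he hem _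
    exact (hirr.coprime_iff_not_dvd).2 (hno e he hem)

end Pool.Agent.Helper10.RS
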