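import Pool.Agent.Helper10.RS.Goals3

/-!
PROJ: projective representations of degree `k` and automizers of elements of prime order.
-/

open Polynomial

namespace Pool.Agent.Helper10.RS

universe u v

theorem exists_spec {K : Type v} [Field K] [IsAlgClosed K] {k r : ℕ} (hr : (r : K) ≠ 0)
    (Y : Matrix (Fin k) (Fin k) K) (h1 : Y ^ r = 1) (h2 : Y ≠ 1) :
    ∃ z ∈ spectrum K Y, z ^ r = 1 ∧ z ≠ 1 := by
  have hk : Nontrivial (Matrix (Fin k) (Fin k) K) := ⟨Y, 1, h2⟩
  set Q : K[X] := ∑ i ∈ Finset.range r, X ^ i with hQ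
  have e1 : Q * (X - 1) = X ^ r - 1 := by
    rw [hQ]; exact geom_sum_mul X r
  have e2 : aeval Y Q * (Y - 1) = 0 := by
    have := congrArg (aeval Y) e1
    simpa [h1] using this
  have e3 : ¬ IsUnit (aeval Y Q) := by
    intro h
    apply h2
    have h3 := (h.mul_right_eq_zero).1 e2
    exact sub_eq_zero.1 h3
  have e4 : (0 : K) ∈ spectrum K (aeval Y Q) := (spectrum.zero_mem_iff K).2 e3
  rw [spectrum.map_polynomial_aeval_of_nonempty _ _
    (spectrum.nonempty_of_isAlgClosed_of_finiteDimensional K Y)] at e4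
  obtain ⟨z, hz, hz0⟩ := e4
  have hz0' : eval z Q = 0 := hz0
  refine ⟨z, hz, ?_, ?_⟩
  · have := congrArg (eval z) e1
    simp only [eval_mul, hz0', zero_mul, eval_sub, eval_pow, eval_X, eval_one] at this
    exact (sub_eq_zero.1 this.symm)
  · rintro rfl
    rw [hQ] at hz0'
    simp [eval_finsetSum] at hz0'
    exact hr hz0'

theorem spec_closed {K : Type v} [Field K] [IsAlgClosed K] {k s : ℕ}
    (Y : Matrix (Fin k) (Fin k) K) (B : (Matrix (Fin k) (Fin k) K)ˣ)
    (h : (B : Matrix (Fin k) (Fin k) K) * Y * (↑B⁻¹ : Matrix (Fin k) (Fin k) K) = Y ^ s) (z : K)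
    (hz : z ∈ spectrum K Y) : z ^ s ∈ spectrum K Y := by
  have h1 := spectrum.pow_mem_pow Y s hz
  rw [← h, spectrum.units_conjugate] at h1
  exact h1

/-- The linear part: `B Y B⁻¹ = Y ^ s` with `Y ^ r = 1`, `Y ≠ 1`. -/
theorem lin_bound {K : Type v} [Field K] [IsAlgClosed K] {k r s : ℕ} (hp : r.Prime)
    (hr : (r : K) ≠ 0)
    (Y : Matrix (Fin k) (Fin k) K) (B : (Matrix (Fin k) (Fin k) K)ˣ)
    (h : (B : Matrix (Fin k) (Fin k) K) * Y * (↑B⁻¹ : Matrix (Fin k) (Fin k) K) = Y ^ s)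
    (h1 : Y ^ r = 1) (h2 : Y ≠ 1) : orderOf (s : ZMod r) ≤ k := by
  classical
  have : Fact r.Prime := ⟨hp⟩
  obtain ⟨z, hz, hzr, hz1⟩ := exists_spec hr Y h1 h2
  have hord : orderOf z = r := orderOf_eq_prime hzr hz1 |>.trans rfl
  have hmem : ∀ i : ℕ, z ^ (s ^ i) ∈ spectrum K Y := by
    intro i
    induction i with
    | zero => simpa using hz
    | succ i ih =>
      have := spec_closed Y B h _ ih
      rwa [← pow_mul, ← pow_succ] at this
  have hinj : Set.InjOn (fun i : ℕ => z ^ (s ^ i)) (Finset.range (orderOf (s : ZMod r)) : Set ℕ) := by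
    intro i hi j hj hij
    simp only [Finset.coe_range, Set.mem_Iio] at hi hj
    have h3 : (s ^ i) ≡ (s ^ j) [MOD r] := by
      have hij' : z ^ (s ^ i) = z ^ (s ^ j) := hij
      have hz0 : z ≠ 0 := by
        rintro rfl
        rw [zero_pow hp.ne_zero] at hzr
        exact zero_ne_one hzr
      have hu : (Units.mk0 z hz0) ^ (s ^ i) = (Units.mk0 z hz0) ^ (s ^ j) := by
        ext
        simpa using hij'
      have h3 := pow_eq_pow_iff_modEq.1 hu
      rwa [← orderOf_units, Units.val_mk0, hord] at h3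
    have h4 : ((s : ZMod r)) ^ i = (s : ZMod r) ^ j := by
      have := (ZMod.natCast_eq_natCast_iff _ _ _).2 h3
      push_cast at this
      exact this
    exact pow_injOn_Iio_orderOf hi hj h4
  have hroots : ∀ i ∈ Finset.range (orderOf (s : ZMod r)), z ^ (s ^ i) ∈ Y.charpoly.roots.toFinset := by
    intro i _
    rw [Multiset.mem_toFinset, mem_roots (Matrix.charpoly_monic Y).ne_zero]
    exact Matrix.mem_spectrum_iff_isRoot_charpoly.1 (hmem i)
  have h5 := Finset.card_le_card_of_injOn (fun i : ℕ => z ^ (s ^ i)) hroots hinj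
  rw [Finset.card_range] at h5
  have h6 := Multiset.toFinset_card_le Y.charpoly.roots
  have h7 := card_roots' Y.charpoly
  rw [Matrix.charpoly_natDegree_eq_dim, Fintype.card_fin] at h7
  omega

theorem proj_alg {K : Type v} [Field K] [IsAlgClosed K] {k r s : ℕ} (hp : r.Prime)
    (hr : (r : K) ≠ 0) (A : Matrix (Fin k) (Fin k) K) (B : (Matrix (Fin k) (Fin k) K)ˣ) (a b : K)
    (ha : a ≠ 0) (hA : A ^ r = a • (1 : Matrix (Fin k) (Fin k) K))
    (hB : (B : Matrix (Fin k) (Fin k) K) * A * (↑B⁻¹ : Matrix (Fin k) (Fin k) K) = b • A ^ s)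
    (hns : ∀ c : K, A ≠ c • (1 : Matrix (Fin k) (Fin k) K)) : orderOf (s : ZMod r) ≤ k := by
  have : Fact r.Prime := ⟨hp⟩
  have hk : 0 < k := by
    rcases Nat.eq_zero_or_pos k with h | h
    · subst h
      exact absurd (Subsingleton.elim A ((0 : K) • 1)) (hns 0)
    · exact h
  by_cases s0 : (s : ZMod r) = 0
  · rw [s0]
    have : orderOf (0 : ZMod r) = 0 := by
      rw [orderOf_eq_zero_iff']
      intro n hn
      rw [zero_pow hn.ne']
      exact zero_ne_one
    omega
  by_cases s1 : (s : ZMod r) = 1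
  · rw [s1, orderOf_one]
    exact hk
  obtain ⟨ν, hν⟩ := IsAlgClosed.exists_pow_nat_eq a⁻¹ hp.pos
  have hν0 : ν ≠ 0 := by
    rintro rfl
    rw [zero_pow hp.ne_zero] at hν
    exact inv_ne_zero ha hν.symm
  set Z := ν • A with hZ
  have hZr : Z ^ r = 1 := by
    rw [hZ, _root_.smul_pow, hA, hν, smul_smul, inv_mul_cancel₀ ha, one_smul]
  set c := ν * b * (ν ^ s)⁻¹ with hc
  have hZB : (B : Matrix (Fin k) (Fin k) K) * Z * (↑B⁻¹ : Matrix (Fin k) (Fin k) K) = c • Z ^ s := by
    rw [hZ, mul_smul_comm, smul_mul_assoc, hB, _root_.smul_pow, smul_smul, smul_smul, hc]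
    congr 1
    field_simp
  have hcr : c ^ r = 1 := by
    have h1 : ((B : Matrix (Fin k) (Fin k) K) * Z * (↑B⁻¹ : Matrix (Fin k) (Fin k) K)) ^ r = 1 := by
      rw [Units.conj_pow, hZr, mul_one, Units.mul_inv]
    rw [hZB, _root_.smul_pow, ← pow_mul, mul_comm s r, pow_mul, hZr, one_pow] at h1
    have h2 := congrFun (congrFun h1 ⟨0, hk⟩) ⟨0, hk⟩
    simpa using h2
  have hs1 : (s : ZMod r) - 1 ≠ 0 := sub_ne_zero.2 s1
  set t := (-((s : ZMod r) - 1)⁻¹).val with ht
  have htc : (t : ZMod r) = -((s : ZMod r) - 1)⁻¹ := by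
    rw [ht, ZMod.natCast_zmod_val]
  have hmod : 1 + t * s ≡ t [MOD r] := by
    rw [← ZMod.natCast_eq_natCast_iff]
    push_cast
    rw [htc]
    field_simp
    ring
  set w := c ^ t with hw
  have hwc : c * w ^ s = w := by
    rw [hw, ← pow_mul, ← pow_succ', add_comm]
    rw [pow_eq_pow_mod (1 + t * s) hcr, pow_eq_pow_mod t hcr, hmod]
  have hc0 : c ≠ 0 := by
    rintro h
    rw [h, zero_pow hp.ne_zero] at hcr
    exact zero_ne_one hcr
  have hw0 : w ≠ 0 := pow_ne_zero _ hc0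
  have hwr : w ^ r = 1 := by
    rw [hw, ← pow_mul, mul_comm, pow_mul, hcr, one_pow]
  refine lin_bound hp hr (w⁻¹ • Z) B ?_ ?_ ?_
  · rw [mul_smul_comm, smul_mul_assoc, hZB, _root_.smul_pow w⁻¹ Z s, smul_smul]
    congr 1
    rw [inv_pow]
    field_simp
    exact hwc
  · rw [_root_.smul_pow, hZr, inv_pow, hwr, inv_one, one_smul]
  · intro h
    apply hns (w * ν⁻¹)
    have h2 : w⁻¹ • ν • A = 1 := h
    rw [← h2, smul_smul, smul_smul]
    rw [show w * ν⁻¹ * w⁻¹ * ν = 1 by field_simp, one_smul]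

theorem p_proj : PROJ.{u, v} := by
  intro T _ F _ k r s x g hp hx hg hrF f hf
  obtain ⟨A, hA⟩ := Matrix.ProjGenLinGroup.mk_surjective (f x)
  obtain ⟨B, hB⟩ := Matrix.ProjGenLinGroup.mk_surjective (f g)
  have e1 : Matrix.ProjGenLinGroup.mk (1 : Matrix.GeneralLinearGroup (Fin k) F) =
      Matrix.ProjGenLinGroup.mk (A ^ r) := by
    rw [map_pow, hA, ← map_pow, ← hx, pow_orderOf_eq_one, map_one, map_one]
  obtain ⟨a, ha⟩ := Matrix.ProjGenLinGroup.mk_eq_mk_iff.1 e1
  have e2 : Matrix.ProjGenLinGroup.mk (B * A * B⁻¹) = Matrix.ProjGenLinGroup.mk (A ^ s) := by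
    rw [map_mul, map_mul, map_inv, map_pow, hA, hB, ← map_pow, ← hg, map_mul, map_mul, map_inv]
  obtain ⟨b, hb⟩ := Matrix.ProjGenLinGroup.mk_eq_mk_iff.1 e2
  have e3 : B * A * B⁻¹ = A ^ s * Matrix.GeneralLinearGroup.scalar (Fin k) b⁻¹ := by
    rw [← hb, map_inv, mul_inv_cancel_right]
  have e4 : A ^ r = Matrix.GeneralLinearGroup.scalar (Fin k) a := by
    rw [← ha, one_mul]
  set φ : F →+* AlgebraicClosure F := algebraMap F (AlgebraicClosure F) with hφ
  set Φ : Matrix (Fin k) (Fin k) F →+* Matrix (Fin k) (Fin k) (AlgebraicClosure F) :=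
    φ.mapMatrix with hΦ
  have hsc : ∀ c : F, Φ (Matrix.scalar (Fin k) c) =
      φ c • (1 : Matrix (Fin k) (Fin k) (AlgebraicClosure F)) := by
    intro c
    rw [hΦ, RingHom.mapMatrix_apply, Matrix.scalar_apply, Matrix.diagonal_map (map_zero φ)]
    rw [Matrix.smul_one_eq_diagonal]
  have e5 : (Φ (A : Matrix (Fin k) (Fin k) F)) ^ r =
      φ a • (1 : Matrix (Fin k) (Fin k) (AlgebraicClosure F)) := by
    rw [← hsc, ← map_pow, ← Matrix.GeneralLinearGroup.coe_scalar, ← e4, Units.val_pow_eq_pow_val]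
  have e6 : ((Units.map Φ.toMonoidHom B : (Matrix (Fin k) (Fin k) (AlgebraicClosure F))ˣ) :
      Matrix (Fin k) (Fin k) (AlgebraicClosure F)) * Φ (A : Matrix (Fin k) (Fin k) F) *
      ((Units.map Φ.toMonoidHom B)⁻¹ : (Matrix (Fin k) (Fin k) (AlgebraicClosure F))ˣ) =
      φ (b⁻¹ : Fˣ) • (Φ (A : Matrix (Fin k) (Fin k) F)) ^ s := by
    have h := congrArg (fun M : Matrix.GeneralLinearGroup (Fin k) F =>
      Φ (M : Matrix (Fin k) (Fin k) F)) e3
    simp only [Units.val_mul, map_mul, Units.val_pow_eq_pow_val, map_pow] at h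
    rw [Matrix.GeneralLinearGroup.coe_scalar, hsc, mul_smul_comm, mul_one] at h
    rw [← h]
    rw [← map_inv]
    rfl
  refine proj_alg hp ?_ _ _ _ _ ?_ e5 e6 ?_
  · rw [← map_natCast φ, hφ, Ne, map_eq_zero]
    exact hrF
  · rw [hφ, Ne, map_eq_zero]
    exact a.ne_zero
  · intro c hc
    apply hf
    rw [← hA, Matrix.ProjGenLinGroup.mk_eq_one, Matrix.GeneralLinearGroup.center_eq_range_scalar]
    rcases Nat.eq_zero_or_pos k with hk | hk
    · subst hk
      exact ⟨1, Units.ext (Subsingleton.elim _ _)⟩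
    · have hent : ∀ i j : Fin k, φ ((A : Matrix (Fin k) (Fin k) F) i j) =
          c * (1 : Matrix (Fin k) (Fin k) (AlgebraicClosure F)) i j := by
        intro i j
        have := congrFun (congrFun hc i) j
        simpa [hΦ] using this
      have hne : (A : Matrix (Fin k) (Fin k) F) ⟨0, hk⟩ ⟨0, hk⟩ ≠ 0 := by
        intro h0
        have hc0 : c = 0 := by
          have := hent ⟨0, hk⟩ ⟨0, hk⟩
          rw [h0, map_zero, Matrix.one_apply_eq, mul_one] at this
          exact this.symm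
        have hz : (A : Matrix (Fin k) (Fin k) F) = 0 := by
          ext i j
          apply φ.injective
          rw [hent i j, hc0, zero_mul, Matrix.zero_apply, map_zero]
        have hA0 : (A : Matrix (Fin k) (Fin k) F) * (A⁻¹ : Matrix.GeneralLinearGroup (Fin k) F) = 1 := by
          rw [← Units.val_mul, mul_inv_cancel, Units.val_one]
        rw [hz, zero_mul] at hA0
        have := congrFun (congrFun hA0 ⟨0, hk⟩) ⟨0, hk⟩
        rw [Matrix.zero_apply, Matrix.one_apply_eq] at this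
        exact zero_ne_one this
      refine ⟨Units.mk0 _ hne, Units.ext ?_⟩
      rw [Matrix.GeneralLinearGroup.coe_scalar, Matrix.scalar_apply]
      ext i j
      apply φ.injective
      rw [hent i j, Matrix.diagonal_apply, Units.val_mk0, Matrix.one_apply]
      split_ifs with h
      · rw [hent, Matrix.one_apply_eq]
      · rw [mul_zero, map_zero]

end Pool.Agent.Helper10.RS
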